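import Pool.Agent.P.MP_9ae58c_an.Basic

/-! Global flow of a bounded Lipschitz field and its Euler scheme. -/

namespace Pool.Agent.P.MP_9ae58c_an

open Set Filter Topology
open scoped NNReal

section flow
variable {E : Type*} [NormedAddCommGroup E] [NormedSpace ℝ E] {V : E → E} {K : ℝ≥0}

theorem eu_local [CompleteSpace E] (hb : ∀ x, ‖V x‖ ≤ K) (hl : LipschitzWith K V) (x : E)
    (n : ℕ) : ∃ α : ℝ → E, α 0 = x ∧ ∀ t ∈ Ioo (-(n : ℝ)) n, HasDerivAt α (V (α t)) t := by
  have h0 : (0 : ℝ) ∈ Icc (-(n : ℝ)) n := ⟨by simp, by simp⟩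
  have h := IsPicardLindelof.of_time_independent (f := V) (t₀ := ⟨0, h0⟩) (x₀ := x)
    (a := K * n) (r := 0) (L := K) (K := K) (fun y _ => hb y) hl.lipschitzOnWith (by simp)
  obtain ⟨α, h1, h2⟩ := h.exists_eq_forall_mem_Icc_hasDerivWithinAt₀
  exact ⟨α, h1, fun t ht => (h2 t (Ioo_subset_Icc_self ht)).hasDerivAt (Icc_mem_nhds ht.1 ht.2)⟩

theorem eu_global [CompleteSpace E] (hb : ∀ x, ‖V x‖ ≤ K) (hl : LipschitzWith K V) (x : E) :
    ∃ α : ℝ → E, α 0 = x ∧ ∀ t, HasDerivAt α (V (α t)) t := by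
  choose s hs0 hs using eu_local hb hl x
  have key : ∀ (m n : ℕ) (t : ℝ), |t| < m → m ≤ n → s m t = s n t := by
    intro m n t ht hmn
    have hm : (0 : ℝ) < m := (abs_nonneg t).trans_lt ht
    have hmn' : (m : ℝ) ≤ n := by exact_mod_cast hmn
    exact ODE_solution_unique_of_mem_Ioo (v := fun _ => V) (s := fun _ => univ) (K := K)
      (a := -(m : ℝ)) (b := m) (t₀ := 0) (fun _ _ => hl.lipschitzOnWith) ⟨by linarith, hm⟩
      (fun u hu => ⟨hs m u hu, trivial⟩)
      (fun u hu => ⟨hs n u ⟨by linarith [hu.1], by linarith [hu.2]⟩, trivial⟩)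
      (by rw [hs0, hs0]) (abs_lt.1 ht)
  have hlt : ∀ t : ℝ, |t| < ((⌈|t|⌉₊ + 1 : ℕ) : ℝ) := fun t => by
    have := Nat.le_ceil |t|
    push_cast
    linarith
  have key2 : ∀ (n : ℕ) (t : ℝ), |t| < n → s (⌈|t|⌉₊ + 1) t = s n t := by
    intro n t ht
    rcases le_total (⌈|t|⌉₊ + 1) n with h | h
    · exact key _ _ t (hlt t) h
    · exact (key _ _ t ht h).symm
  refine ⟨fun t => s (⌈|t|⌉₊ + 1) t, hs0 _, fun t => ?_⟩
  have h1 := hs _ t (abs_lt.1 (hlt t))
  refine h1.congr_of_eventuallyEq ?_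
  filter_upwards [Ioo_mem_nhds (abs_lt.1 (hlt t)).1 (abs_lt.1 (hlt t)).2] with u hu
  exact key2 _ u (abs_lt.2 hu)

theorem eu_gron_pos (hl : LipschitzWith K V) {f g : ℝ → E} (hf : ∀ t, HasDerivAt f (V (f t)) t)
    (hg : ∀ t, HasDerivAt g (V (g t)) t) {t : ℝ} (ht : 0 ≤ t) :
    dist (f t) (g t) ≤ dist (f 0) (g 0) * Real.exp (K * t) := by
  have := dist_le_of_trajectories_ODE (v := fun _ => V) (K := K) (a := 0) (b := t)
    (fun _ => hl) (HasDerivAt.continuousOn fun u _ => hf u) (fun u _ => (hf u).hasDerivWithinAt)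
    (HasDerivAt.continuousOn fun u _ => hg u) (fun u _ => (hg u).hasDerivWithinAt) le_rfl t
    ⟨ht, le_rfl⟩
  rwa [sub_zero] at this

theorem eu_gron (hl : LipschitzWith K V) {f g : ℝ → E} (hf : ∀ t, HasDerivAt f (V (f t)) t)
    (hg : ∀ t, HasDerivAt g (V (g t)) t) (t : ℝ) :
    dist (f t) (g t) ≤ dist (f 0) (g 0) * Real.exp (K * |t|) := by
  rcases le_total 0 t with ht | ht
  · rw [abs_of_nonneg ht]; exact eu_gron_pos hl hf hg ht
  · have hn : ∀ {f : ℝ → E}, (∀ t, HasDerivAt f (V (f t)) t) →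
        ∀ t, HasDerivAt (fun u => f (-u)) ((-V) (f (-t))) t := by
      intro f hf t
      have := (hf (-t)).scomp t (hasDerivAt_neg t)
      rw [neg_one_smul] at this
      exact this
    have := eu_gron_pos hl.neg (hn hf) (hn hg) (t := -t) (by linarith)
    rw [abs_of_nonpos ht]
    simpa using this

theorem eu_time (hb : ∀ x, ‖V x‖ ≤ K) {f : ℝ → E} (hf : ∀ t, HasDerivAt f (V (f t)) t)
    (s t : ℝ) : ‖f t - f s‖ ≤ K * |t - s| :=
  convex_univ.norm_image_sub_le_of_norm_hasDerivWithin_le (f' := fun u => V (f u))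
    (fun u _ => (hf u).hasDerivWithinAt) (fun _ _ => hb _) (mem_univ s) (mem_univ t)

theorem eu_step (hb : ∀ x, ‖V x‖ ≤ K) (hl : LipschitzWith K V) {f : ℝ → E}
    (hf : ∀ t, HasDerivAt f (V (f t)) t) (t : ℝ) {h : ℝ} (hh : 0 ≤ h) :
    ‖f (t + h) - f t - h • V (f t)‖ ≤ K ^ 2 * h ^ 2 := by
  have h1 := (convex_Icc t (t + h)).norm_image_sub_le_of_norm_hasDerivWithin_le
    (f := fun u => f u - u • V (f t)) (f' := fun u => V (f u) - V (f t)) (C := K * (K * h))
    (fun u _ => by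
      have := ((hf u).sub ((hasDerivAt_id u).smul_const (V (f t)))).hasDerivWithinAt
        (s := Icc t (t + h))
      rw [one_smul] at this
      exact this)
    (fun u hu => by
      have a1 := hl.dist_le_mul (f u) (f t)
      rw [dist_eq_norm, dist_eq_norm] at a1
      refine a1.trans (mul_le_mul_of_nonneg_left ((eu_time hb hf t u).trans
        (mul_le_mul_of_nonneg_left ?_ K.2)) K.2)
      rw [abs_of_nonneg (by linarith [hu.1])]
      linarith [hu.2])
    (left_mem_Icc.2 (by linarith)) (right_mem_Icc.2 (by linarith))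
  have e1 : f (t + h) - (t + h) • V (f t) - (f t - t • V (f t)) =
      f (t + h) - f t - h • V (f t) := by
    rw [add_smul]; abel
  rw [e1, add_sub_cancel_left, Real.norm_eq_abs, abs_of_nonneg hh] at h1
  calc _ ≤ _ := h1
    _ = _ := by ring

theorem eu_cont (hb : ∀ x, ‖V x‖ ≤ K) (hl : LipschitzWith K V) {Y : E → ℝ → E}
    (h0 : ∀ x, Y x 0 = x) (hY : ∀ x t, HasDerivAt (Y x) (V (Y x t)) t) :
    Continuous fun p : E × ℝ => Y p.1 p.2 := by
  refine continuous_iff_continuousAt.2 fun p => tendsto_iff_dist_tendsto_zero.2 ?_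
  have hc : Continuous fun q : E × ℝ =>
      K * |q.2 - p.2| + dist q.1 p.1 * Real.exp (K * |p.2|) := by fun_prop
  have h1 := hc.tendsto p
  simp only [sub_self, abs_zero, mul_zero, dist_self, zero_mul, add_zero] at h1
  refine squeeze_zero (fun _ => dist_nonneg) (fun q => ?_) h1
  refine (dist_triangle _ (Y q.1 p.2) _).trans (add_le_add ?_ ?_)
  · rw [dist_eq_norm]; exact eu_time hb (hY q.1) p.2 q.2
  · have := eu_gron hl (hY q.1) (hY p.1) p.2
    rwa [h0, h0] at this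

/-- error propagation for an approximate Euler scheme -/
theorem eu_err (hb : ∀ x, ‖V x‖ ≤ K) (hl : LipschitzWith K V) {f : ℝ → E}
    (hf : ∀ t, HasDerivAt f (V (f t)) t) {h c : ℝ} (hh : 0 ≤ h) (hc : 0 ≤ c) (z : ℕ → E)
    (hz0 : ‖z 0 - f 0‖ ≤ h) (hz : ∀ j, ‖z (j + 1) - z j - h • V (z j)‖ ≤ c * h ^ 2) (j : ℕ) :
    ‖z j - f (j * h)‖ ≤ (1 + K * h) ^ j * (h + j * ((c + K ^ 2) * h ^ 2)) := by
  have hK : (0 : ℝ) ≤ K := K.2
  induction j with
  | zero => simpa using hz0
  | succ j ih =>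
    have a1 := eu_step hb hl hf (j * h) hh
    have a2 := hl.dist_le_mul (z j) (f (j * h))
    rw [dist_eq_norm, dist_eq_norm] at a2
    have e1 : z (j + 1) - f (((j + 1 : ℕ) : ℝ) * h) =
        (z (j + 1) - z j - h • V (z j)) + (z j - f (j * h)) + h • (V (z j) - V (f (j * h))) -
          (f (j * h + h) - f (j * h) - h • V (f (j * h))) := by
      rw [Nat.cast_succ, add_mul, one_mul, smul_sub]; abel
    have a3 : ‖h • (V (z j) - V (f (j * h)))‖ ≤ h * (K * ‖z j - f (j * h)‖) := by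
      rw [norm_smul, Real.norm_eq_abs, abs_of_nonneg hh]
      exact mul_le_mul_of_nonneg_left a2 hh
    have a4 : ‖z (j + 1) - f (((j + 1 : ℕ) : ℝ) * h)‖ ≤
        (1 + K * h) * ‖z j - f (j * h)‖ + (c + K ^ 2) * h ^ 2 := by
      rw [e1]
      have b1 := norm_sub_le ((z (j + 1) - z j - h • V (z j)) + (z j - f (j * h)) +
        h • (V (z j) - V (f (j * h)))) (f (j * h + h) - f (j * h) - h • V (f (j * h)))
      have b2 := norm_add₃_le (a := z (j + 1) - z j - h • V (z j)) (b := z j - f (j * h))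
        (c := h • (V (z j) - V (f (j * h))))
      have b3 := hz j
      linarith
    have a5 : 1 ≤ (1 + K * h) ^ (j + 1) := one_le_pow₀ (by nlinarith [mul_nonneg hK hh])
    have a6 := mul_le_mul_of_nonneg_left ih (show 0 ≤ 1 + K * h by positivity)
    have a7 : 0 ≤ (c + K ^ 2) * h ^ 2 := by positivity
    have a8 := mul_le_mul_of_nonneg_right a5 a7
    push_cast at a4 ⊢
    rw [pow_succ (1 + K * h)] at a8 ⊢
    linarith

end flow

theorem eu_enc1 (n : ℕ) : Encodable.encode (Int.ofNat n) = 2 * n := by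
  change Equiv.natSumNatEquivNat (Sum.inl n) = _
  simp

theorem eu_enc2 (n : ℕ) : Encodable.encode (Int.negSucc n) = 2 * n + 1 := by
  change Equiv.natSumNatEquivNat (Sum.inr n) = _
  simp

theorem eu_toNat : Primrec (fun a : ℤ => a.toNat) := by
  have h : Primrec (fun n : ℕ => if n % 2 = 0 then n / 2 else 0) :=
    Primrec.ite (Primrec.eq.comp (Primrec.nat_mod.comp Primrec.id (Primrec.const 2))
      (Primrec.const 0)) (Primrec.nat_div.comp Primrec.id (Primrec.const 2)) (Primrec.const 0)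
  refine (h.comp Primrec.encode).of_eq fun k => ?_
  obtain n | n := k
  · rw [eu_enc1]; simp
  · rw [eu_enc2, if_neg (by omega)]; rfl

theorem eu_negNat : Primrec (fun a : ℤ => (-a).toNat) := by
  have h : Primrec (fun n : ℕ => if n % 2 = 0 then 0 else n / 2 + 1) :=
    Primrec.ite (Primrec.eq.comp (Primrec.nat_mod.comp Primrec.id (Primrec.const 2))
      (Primrec.const 0)) (Primrec.const 0)
      (Primrec.succ.comp (Primrec.nat_div.comp Primrec.id (Primrec.const 2)))
  refine (h.comp Primrec.encode).of_eq fun k => ?_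
  obtain n | n := k
  · rw [eu_enc1]; simp
  · rw [eu_enc2, if_neg (by omega), Int.neg_negSucc, Int.toNat_natCast]; omega

theorem eu_sub : Primrec₂ (fun a b : ℕ => (a : ℤ) - b) := by
  have h : Primrec (fun p : ℕ × ℕ =>
      if p.2 ≤ p.1 then 2 * (p.1 - p.2) else 2 * (p.2 - p.1 - 1) + 1) :=
    Primrec.ite (Primrec.nat_le.comp Primrec.snd Primrec.fst)
      (Primrec.nat_mul.comp (Primrec.const 2) (Primrec.nat_sub.comp Primrec.fst Primrec.snd))
      (Primrec.succ.comp (Primrec.nat_mul.comp (Primrec.const 2) (Primrec.nat_sub.comp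
        (Primrec.nat_sub.comp Primrec.snd Primrec.fst) (Primrec.const 1))))
  refine Primrec.encode_iff.1 (h.of_eq fun p => ?_)
  split_ifs with hp
  · rw [← eu_enc1]; congr 1; simp only [Int.ofNat_eq_natCast]; omega
  · rw [← eu_enc2]; congr 1; simp only [Int.negSucc_eq]; omega

theorem eu_add : Primrec₂ (fun a b : ℤ => a + b) :=
  (eu_sub.comp (Primrec.nat_add.comp (eu_toNat.comp Primrec.fst) (eu_toNat.comp Primrec.snd))
    (Primrec.nat_add.comp (eu_negNat.comp Primrec.fst) (eu_negNat.comp Primrec.snd))).of_eq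
    fun p => by simp only; omega

theorem eu_mul : Primrec₂ (fun (a : ℕ) (b : ℤ) => (a : ℤ) * b) :=
  (eu_sub.comp (Primrec.nat_mul.comp Primrec.fst (eu_toNat.comp Primrec.snd))
    (Primrec.nat_mul.comp Primrec.fst (eu_negNat.comp Primrec.snd))).of_eq
    fun p => by
      simp only [Nat.cast_mul]
      rw [← mul_sub, Int.toNat_sub_toNat_neg]

/-- division of an integer by a natural number, rounded towards zero -/
def euDiv (z : ℤ) (N : ℕ) : ℤ := ((z.toNat / N : ℕ) : ℤ) - (((-z).toNat / N : ℕ) : ℤ)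

theorem primrec_euDiv : Primrec₂ euDiv :=
  eu_sub.comp (Primrec.nat_div.comp (eu_toNat.comp Primrec.fst) Primrec.snd)
    (Primrec.nat_div.comp (eu_negNat.comp Primrec.fst) Primrec.snd)

theorem eu_nat_div (a : ℕ) {N : ℕ} (hN : 1 ≤ N) : |((a / N : ℕ) : ℝ) - (a : ℝ) / N| ≤ 1 := by
  have hN' : (0 : ℝ) < N := by exact_mod_cast hN
  have h1 : ((a / N : ℕ) : ℝ) ≤ (a : ℝ) / N := Nat.cast_div_le
  have h2 : (a : ℝ) / N < (a / N : ℕ) + 1 := by
    rw [div_lt_iff₀ hN']
    have h3 : a < (a / N + 1) * N := by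
      have := Nat.lt_div_mul_add (a := a) hN
      rw [add_mul, one_mul]; exact this
    exact_mod_cast h3
  rw [abs_le]
  constructor <;> linarith

theorem euDiv_err (z : ℤ) {N : ℕ} (hN : 1 ≤ N) : |(euDiv z N : ℝ) - (z : ℝ) / N| ≤ 1 := by
  obtain ⟨a, rfl | rfl⟩ := z.eq_nat_or_neg
  · have := eu_nat_div a hN
    simp only [euDiv, Int.toNat_neg_natCast, Nat.zero_div, Int.toNat_natCast]
    generalize a / N = q at this ⊢
    simpa using this
  · have := eu_nat_div a hN
    rw [← abs_neg] at this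
    simp only [euDiv, Int.toNat_neg_natCast, Nat.zero_div, neg_neg, Int.toNat_natCast]
    generalize a / N = q at this ⊢
    convert this using 2
    push_cast
    ring

/-- global flow of a good field, jointly continuous, with a primitive recursive Euler scheme -/
theorem euler {d : ℕ} (F : Fin d → (Fin d → ℝ) → ℝ) (hF : ∀ i, Good (F i)) :
    ∃ Y : (Fin d → ℝ) → ℝ → Fin d → ℝ, (∀ x, Y x 0 = x) ∧
      (∀ x t i, HasDerivAt (fun u => Y x u i) (F i (Y x t)) t) ∧
      Continuous (fun p : (Fin d → ℝ) × ℝ => Y p.1 p.2) ∧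
      ∃ (K : ℕ) (E : ℕ × (Fin d → ℤ) × ℕ → Fin d → ℤ), Primrec E ∧
        ∀ (N T j : ℕ) (y : Fin d → ℤ) (x : Fin d → ℝ) (t : ℝ), 1 ≤ N → j ≤ T * N → 0 ≤ t →
          |t - j / N| ≤ 1 / N → dist x (fun i => (y i : ℝ) / N) ≤ 1 / N →
          ∀ i, |(E (N, y, j) i : ℝ) - N ^ 2 * Y x t i| ≤ K ^ (T + 1) * N := by
  choose Ki hb hl f hf happ using hF
  obtain ⟨K, hK⟩ : ∃ K : ℕ, ∀ i, (Ki i : ℝ) ≤ K :=
    ⟨Finset.univ.sup Ki, fun i => by exact_mod_cast Finset.le_sup (f := Ki) (Finset.mem_univ i)⟩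
  have hK0 : (0 : ℝ) ≤ K := K.cast_nonneg
  let V : (Fin d → ℝ) → Fin d → ℝ := fun x i => F i x
  have hVb : ∀ x, ‖V x‖ ≤ ((K : ℝ≥0) : ℝ) := fun x =>
    (pi_norm_le_iff_of_nonneg (by positivity)).2 fun i => (hb i x).trans (hK i)
  have hVl : LipschitzWith K V := LipschitzWith.of_dist_le_mul fun x y =>
    (dist_pi_le_iff (by positivity)).2 fun i =>
      (hl i x y).trans (mul_le_mul_of_nonneg_right (hK i) dist_nonneg)
  choose Y hY0 hY using eu_global hVb hVl
  let st : ℕ → (Fin d → ℤ) → Fin d → ℤ := fun N u i => u i + euDiv (f i (N * N, u)) N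
  refine ⟨Y, hY0, fun x t i => hasDerivAt_pi.1 (hY x t) i, eu_cont hVb hVl hY0 hY,
    (2 + 2 * K + K ^ 2) * (2 * 3 ^ K), fun p => (st p.1)^[p.2.2] (fun i => p.1 * p.2.1 i), ?_, ?_⟩
  · refine Primrec.nat_iterate (h := fun p : ℕ × (Fin d → ℤ) × ℕ => st p.1)
      (Primrec.snd.comp Primrec.snd) ?_ ?_
    · refine Primrec.fin_curry.2 (Primrec.fin_curry₁.2 fun i => ?_).swap
      exact eu_mul.comp Primrec.fst
        (Primrec.fin_app.comp (Primrec.fst.comp Primrec.snd) (Primrec.const i))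
    · refine Primrec.fin_curry.2 (Primrec.fin_curry₁.2 fun i => ?_).swap
      have h1 : Primrec fun q : (ℕ × (Fin d → ℤ) × ℕ) × (Fin d → ℤ) => q.1.1 :=
        Primrec.fst.comp Primrec.fst
      exact eu_add.comp (Primrec.fin_app.comp Primrec.snd (Primrec.const i))
        (primrec_euDiv.comp ((hf i).comp ((Primrec.nat_mul.comp h1 h1).pair Primrec.snd)) h1)
  · intro N T j y x t hN hj _ ht hx i
    have hN' : (1 : ℝ) ≤ N := by exact_mod_cast hN
    have hN0 : (0 : ℝ) < N := by linarith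
    let u : ℕ → Fin d → ℤ := fun j => (st N)^[j] (fun i => N * y i)
    let z : ℕ → Fin d → ℝ := fun j i => (u j i : ℝ) / ((N * N : ℕ) : ℝ)
    have hz0 : ‖z 0 - Y x 0‖ ≤ 1 / N := by
      rw [hY0, ← dist_eq_norm, dist_comm]
      convert hx using 2
      funext i
      simp only [z, u, Function.iterate_zero, id]
      push_cast
      field_simp
    have hz : ∀ j, ‖z (j + 1) - z j - (1 / N : ℝ) • V (z j)‖ ≤ (1 + K) * (1 / N : ℝ) ^ 2 := by
      intro j
      refine (pi_norm_le_iff_of_nonneg (by positivity)).2 fun i => ?_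
      have a1 := happ i (N * N) (u j) (Nat.one_le_iff_ne_zero.2 (by positivity))
      have a2 := euDiv_err (f i (N * N, u j)) hN
      have e1 : u (j + 1) i = u j i + euDiv (f i (N * N, u j)) N := by
        simp only [u, Function.iterate_succ_apply']
        rfl
      have e2 : (z (j + 1) - z j - (1 / N : ℝ) • V (z j)) i =
          ((euDiv (f i (N * N, u j)) N - (f i (N * N, u j) : ℝ) / N) +
            ((f i (N * N, u j) : ℝ) - ((N * N : ℕ) : ℝ) * F i (z j)) / N) * (1 / N : ℝ) ^ 2 := by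
        simp only [Pi.sub_apply, Pi.smul_apply, smul_eq_mul, V]
        simp only [z, e1]
        push_cast
        field_simp
        ring
      rw [e2, Real.norm_eq_abs, abs_mul, abs_of_nonneg (a := (1 / N : ℝ) ^ 2) (by positivity)]
      refine mul_le_mul_of_nonneg_right ((abs_add_le _ _).trans (add_le_add a2 ?_))
        (by positivity)
      rw [abs_div, abs_of_pos hN0]
      exact (div_le_self (abs_nonneg _) hN').trans (a1.trans (hK i))
    have h1 := eu_err hVb hVl (hY x) (h := 1 / N) (by positivity) (by positivity) z hz0 hz j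
    have h2 := eu_time hVb (hY x) t (j * (1 / N))
    simp only [NNReal.coe_natCast] at h1 h2
    have hjT : (j : ℝ) * (1 / N) ≤ T := by
      rw [mul_one_div, div_le_iff₀ hN0]
      exact_mod_cast hj
    have h3 : (1 + K * (1 / N : ℝ)) ^ j ≤ (3 ^ K) ^ T := by
      calc (1 + K * (1 / N : ℝ)) ^ j ≤ Real.exp (K * (1 / N : ℝ)) ^ j :=
            pow_le_pow_left₀ (by positivity) (by linarith [Real.add_one_le_exp (K * (1 / N : ℝ))]) j
        _ = Real.exp (K * (j * (1 / N : ℝ))) := by rw [← Real.exp_nat_mul]; ring_nf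
        _ ≤ Real.exp (((K * T : ℕ) : ℝ) * 1) := Real.exp_le_exp.2 (by
            push_cast
            rw [mul_one]
            exact mul_le_mul_of_nonneg_left hjT hK0)
        _ ≤ 3 ^ (K * T) := by
            rw [Real.exp_nat_mul]
            exact pow_le_pow_left₀ (Real.exp_pos _).le
              (Real.exp_one_lt_d9.le.trans (by norm_num)) _
        _ = _ := pow_mul _ _ _
    have hT : (T : ℝ) ≤ 2 ^ T := by exact_mod_cast Nat.lt_two_pow_self.le
    have hT1 : (1 : ℝ) ≤ 2 ^ T := one_le_pow₀ (by norm_num)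
    have h31 : (1 : ℝ) ≤ 3 ^ K := one_le_pow₀ (by norm_num)
    have h3T : (1 : ℝ) ≤ (3 ^ K) ^ T := one_le_pow₀ h31
    have h4 : 1 / (N : ℝ) + j * ((1 + K + K ^ 2) * (1 / N : ℝ) ^ 2) ≤
        (2 + K + K ^ 2) * 2 ^ T * (1 / N : ℝ) := by
      have b1 : (j : ℝ) * (1 / N) * (1 + K + K ^ 2) ≤ 2 ^ T * (1 + K + K ^ 2) :=
        mul_le_mul_of_nonneg_right (hjT.trans hT) (by positivity)
      have b2 : 1 + (j : ℝ) * (1 / N) * (1 + K + K ^ 2) ≤ (2 + K + K ^ 2) * 2 ^ T := by linarith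
      calc _ = (1 + (j : ℝ) * (1 / N) * (1 + K + K ^ 2)) * (1 / N : ℝ) := by ring
        _ ≤ _ := mul_le_mul_of_nonneg_right b2 (by positivity)
    have h5 : ‖z j - Y x t‖ ≤ (2 + 2 * K + K ^ 2) * (2 * 3 ^ K) ^ T * (1 / N : ℝ) := by
      have b1 := h1.trans (mul_le_mul h3 h4 (by positivity) (by positivity))
      have b2 : |(j : ℝ) * (1 / N) - t| ≤ 1 / N := by
        rw [abs_sub_comm, mul_one_div]; exact ht
      have b3 := h2.trans (mul_le_mul_of_nonneg_left b2 hK0)
      have b4 := norm_sub_le_norm_sub_add_norm_sub (z j) (Y x (j * (1 / N))) (Y x t)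
      have b5 : (K : ℝ) * (1 / N) * 1 ≤ K * (1 / N) * (2 ^ T * (3 ^ K) ^ T) :=
        mul_le_mul_of_nonneg_left (one_le_mul_of_one_le_of_one_le hT1 h3T) (by positivity)
      rw [mul_pow]
      linarith
    have h6 := (norm_le_pi_norm (z j - Y x t) i).trans h5
    have e3 : (u j i : ℝ) - N ^ 2 * Y x t i = N ^ 2 * (z j - Y x t) i := by
      simp only [Pi.sub_apply, z]
      push_cast
      field_simp
    change |(u j i : ℝ) - N ^ 2 * Y x t i| ≤ _
    rw [e3, abs_mul, abs_of_nonneg (a := (N : ℝ) ^ 2) (by positivity)]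
    refine (mul_le_mul_of_nonneg_left h6 (by positivity)).trans ?_
    have h7 : (2 + 2 * K + K ^ 2 : ℝ) * (2 * 3 ^ K) ^ T ≤
        ((2 + 2 * K + K ^ 2) * (2 * 3 ^ K)) ^ (T + 1) := by
      have b1 : (1 : ℝ) ≤ 2 + 2 * K + K ^ 2 := by nlinarith
      have b2 : (2 * 3 ^ K : ℝ) ^ T ≤ ((2 + 2 * K + K ^ 2) * (2 * 3 ^ K)) ^ T :=
        pow_le_pow_left₀ (by positivity) (le_mul_of_one_le_left (by positivity) b1) _
      have b3 : (2 + 2 * K + K ^ 2 : ℝ) ≤ (2 + 2 * K + K ^ 2) * (2 * 3 ^ K) :=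
        le_mul_of_one_le_right (by positivity) (by linarith)
      calc _ ≤ ((2 + 2 * K + K ^ 2) * (2 * 3 ^ K)) * ((2 + 2 * K + K ^ 2) * (2 * 3 ^ K) : ℝ) ^ T :=
            mul_le_mul b3 b2 (by positivity) (by positivity)
        _ = _ := (pow_succ' _ _).symm
    push_cast
    calc (N : ℝ) ^ 2 * ((2 + 2 * K + K ^ 2) * (2 * 3 ^ K) ^ T * (1 / N : ℝ))
        = (2 + 2 * K + K ^ 2) * (2 * 3 ^ K) ^ T * N := by field_simp
      _ ≤ _ := mul_le_mul_of_nonneg_right h7 hN0.le

end Pool.Agent.P.MP_9ae58c_an
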