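import Pool.Agent.P.MP_9ae58c_an.Basic

/-! The reduced isosceles motion is the positive trajectory of the three-body problem. -/

namespace Pool.Agent.P.MP_9ae58c_an

open Set Filter Topology

namespace Real3

/-- the vector field on phase space -/
noncomputable def field {n : ℕ} (m : Fin n → ℝ) (x : Conf n × Conf n) : Conf n × Conf n :=
  (x.2, fun i k => acc m x.1 i k)

lemma sq_sum_pos {a b : Fin 3 → ℝ} (h : a ≠ b) : 0 < ∑ k, (a k - b k) ^ 2 := by
  obtain ⟨k, hk⟩ := Function.ne_iff.mp h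
  refine Finset.sum_pos' (fun _ _ => sq_nonneg _) ⟨k, Finset.mem_univ _, ?_⟩
  have := sub_ne_zero.mpr hk
  positivity

lemma field_contDiffAt {n : ℕ} (m : Fin n → ℝ) (x : Conf n × Conf n) (hx : NoColl x.1) :
    ContDiffAt ℝ 1 (field m) x := by
  unfold field
  refine ContDiffAt.prodMk contDiffAt_snd ?_
  rw [contDiffAt_pi]
  intro i
  rw [contDiffAt_pi]
  intro k
  unfold acc
  refine ContDiffAt.sum fun j hj => ?_
  have hji : j ≠ i := (Finset.mem_erase.mp hj).1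
  have hpos := sq_sum_pos (hx j i hji)
  have hc : ∀ (a : Fin n) (b : Fin 3), ContDiffAt ℝ 1 (fun y : Conf n × Conf n => y.1 a b) x := by
    intro a b
    fun_prop
  refine ContDiffAt.div (contDiffAt_const.mul ((hc j k).sub (hc i k))) ?_ ?_
  · unfold dist3
    have h1 : ContDiffAt ℝ 1 (fun y : Conf n × Conf n => ∑ l, (y.1 j l - y.1 i l) ^ 2) x :=
      ContDiffAt.sum fun l _ => ((hc j l).sub (hc i l)).pow 2
    exact (h1.sqrt hpos.ne').pow 3
  · unfold dist3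
    have := Real.sqrt_pos.mpr hpos
    positivity

lemma sol_deriv {n : ℕ} {m : Fin n → ℝ} {T : ℝ} {q v : ℝ → Conf n} (h : IsSol m T q v) {t : ℝ}
    (ht : t ∈ Icc 0 T) :
    HasDerivWithinAt (fun u => (q u, v u)) (field m (q t, v t)) (Icc 0 T) t := by
  refine HasDerivWithinAt.prodMk ?_ ?_
  · rw [hasDerivWithinAt_pi]
    intro i
    rw [hasDerivWithinAt_pi]
    intro k
    exact ((h t ht).2 i k).1
  · rw [hasDerivWithinAt_pi]
    intro i
    rw [hasDerivWithinAt_pi]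
    intro k
    exact ((h t ht).2 i k).2

/-- uniqueness of solutions -/
lemma sol_unique {n : ℕ} {m : Fin n → ℝ} {T : ℝ} (hT : 0 ≤ T) {q v q' v' : ℝ → Conf n}
    (h : IsSol m T q v) (h' : IsSol m T q' v') (h0 : (q 0, v 0) = (q' 0, v' 0)) :
    (q T, v T) = (q' T, v' T) := by
  have hc : ContinuousOn (fun u => (q u, v u)) (Icc 0 T) :=
    fun t ht => (sol_deriv h ht).continuousWithinAt
  have hc' : ContinuousOn (fun u => (q' u, v' u)) (Icc 0 T) :=
    fun t ht => (sol_deriv h' ht).continuousWithinAt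
  set S : Set (Conf n × Conf n) :=
    (fun u => (q u, v u)) '' Icc 0 T ∪ (fun u => (q' u, v' u)) '' Icc 0 T with hS
  have hSc : IsCompact S :=
    (isCompact_Icc.image_of_continuousOn hc).union (isCompact_Icc.image_of_continuousOn hc')
  have hL : LocallyLipschitzOn S (field m) := by
    intro x hx
    have hx' : NoColl x.1 := by
      rcases hx with ⟨t, ht, rfl⟩ | ⟨t, ht, rfl⟩
      · exact (h t ht).1
      · exact (h' t ht).1
    obtain ⟨K, t, ht, hK⟩ := (field_contDiffAt m x hx').exists_lipschitzOnWith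
    exact ⟨K, t, mem_nhdsWithin_of_mem_nhds ht, hK⟩
  obtain ⟨K, hK⟩ := hL.exists_lipschitzOnWith_of_compact hSc
  have hmem : ∀ t ∈ Ico 0 T, Icc 0 T ∈ 𝓝[Ici t] t := by
    intro t ht
    exact mem_of_superset (Icc_mem_nhdsGE ht.2) (Icc_subset_Icc_left ht.1)
  have := ODE_solution_unique_of_mem_Icc_right (v := fun _ => field m) (s := fun _ => S) (K := K)
    (f := fun u => (q u, v u)) (g := fun u => (q' u, v' u)) (a := 0) (b := T)
    (fun _ _ => hK) hc
    (fun t ht => (sol_deriv h (Ico_subset_Icc_self ht)).mono_of_mem_nhdsWithin (hmem t ht))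
    (fun t ht => Or.inl ⟨t, Ico_subset_Icc_self ht, rfl⟩) hc'
    (fun t ht => (sol_deriv h' (Ico_subset_Icc_self ht)).mono_of_mem_nhdsWithin (hmem t ht))
    (fun t ht => Or.inr ⟨t, Ico_subset_Icc_self ht, rfl⟩) h0
  exact this ⟨hT, le_rfl⟩

lemma noColl_iso (μ s C r p z v ϑ : ℝ) (hr : 0 < r) : NoColl (iso μ s C r p z v ϑ).1 := by
  have h1 := Real.sin_sq_add_cos_sq ϑ
  have key : ¬ (r * Real.cos ϑ = 0 ∧ r * Real.sin ϑ = 0) := by
    rintro ⟨ha, hb⟩
    have ha' : Real.cos ϑ = 0 := (mul_eq_zero.mp ha).resolve_left hr.ne'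
    have hb' : Real.sin ϑ = 0 := (mul_eq_zero.mp hb).resolve_left hr.ne'
    rw [ha', hb'] at h1
    norm_num at h1
  intro i j hij h
  have h0 := congrFun h 0
  have h1 := congrFun h 1
  apply key
  fin_cases i <;> fin_cases j <;> simp [iso] at hij h0 h1 ⊢ <;>
    first
    | exact ⟨h0, h1⟩
    | (constructor
       · have : r * Real.cos ϑ = 0 := by linarith
         simpa using this
       · have : r * Real.sin ϑ = 0 := by linarith
         simpa using this)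

lemma acc_iso (μ s C r p z v ϑ : ℝ) (hμ : 0 < μ) (hs : 0 < s) (hr : 0 < r) :
    (fun i k => acc ![1 / (2 * s ^ 2), 1 / (2 * s ^ 2), μ / s ^ 2] (iso μ s C r p z v ϑ).1 i k) =
    ![![(-(1 / (8 * r ^ 2)) - μ * r * (1 / √(z ^ 2 + r ^ 2)) ^ 3) * Real.cos ϑ / s ^ 2,
        (-(1 / (8 * r ^ 2)) - μ * r * (1 / √(z ^ 2 + r ^ 2)) ^ 3) * Real.sin ϑ / s ^ 2,
        μ * z * (1 / √(z ^ 2 + r ^ 2)) ^ 3 / s ^ 2],
      ![-((-(1 / (8 * r ^ 2)) - μ * r * (1 / √(z ^ 2 + r ^ 2)) ^ 3) * Real.cos ϑ / s ^ 2),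
        -((-(1 / (8 * r ^ 2)) - μ * r * (1 / √(z ^ 2 + r ^ 2)) ^ 3) * Real.sin ϑ / s ^ 2),
        μ * z * (1 / √(z ^ 2 + r ^ 2)) ^ 3 / s ^ 2],
      ![0, 0, -(z * (1 / √(z ^ 2 + r ^ 2)) ^ 3 / s ^ 2)]] := by
  have h1 := Real.sin_sq_add_cos_sq ϑ
  have hμ1 : (1 + μ) ≠ 0 := by positivity
  set q := (iso μ s C r p z v ϑ).1 with hq
  have d01 : dist3 (q 0) (q 1) = 2 * r := by
    unfold dist3
    rw [Real.sqrt_eq_iff_mul_self_eq (by positivity) (by positivity), Fin.sum_univ_three]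
    simp [hq, iso]
    linear_combination (4 * r ^ 2) * h1
  have d10 : dist3 (q 1) (q 0) = 2 * r := by
    unfold dist3
    rw [Real.sqrt_eq_iff_mul_self_eq (by positivity) (by positivity), Fin.sum_univ_three]
    simp [hq, iso]
    linear_combination (4 * r ^ 2) * h1
  have e : ∀ a b : Fin 3 → ℝ, (a 0 - b 0) ^ 2 = (r * Real.cos ϑ) ^ 2 →
      (a 1 - b 1) ^ 2 = (r * Real.sin ϑ) ^ 2 → (a 2 - b 2) ^ 2 = z ^ 2 →
      dist3 a b = √(z ^ 2 + r ^ 2) := by
    intro a b h0 h1' h2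
    unfold dist3
    rw [Fin.sum_univ_three, h0, h1', h2]
    congr 1
    linear_combination r ^ 2 * h1
  have d02 : dist3 (q 0) (q 2) = √(z ^ 2 + r ^ 2) := by
    apply e <;> simp [hq, iso]
    field_simp
    ring
  have d20 : dist3 (q 2) (q 0) = √(z ^ 2 + r ^ 2) := by
    apply e <;> simp [hq, iso]
    field_simp
  have d12 : dist3 (q 1) (q 2) = √(z ^ 2 + r ^ 2) := by
    apply e <;> simp [hq, iso]
    field_simp
    ring
  have d21 : dist3 (q 2) (q 1) = √(z ^ 2 + r ^ 2) := by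
    apply e <;> simp [hq, iso]
    field_simp
  have hρ : √(z ^ 2 + r ^ 2) ≠ 0 := (Real.sqrt_pos.mpr (by positivity)).ne'
  have e0 : (Finset.univ.erase (0 : Fin 3)) = {1, 2} := by decide
  have e1 : (Finset.univ.erase (1 : Fin 3)) = {0, 2} := by decide
  have e2 : (Finset.univ.erase (2 : Fin 3)) = {0, 1} := by decide
  have a0 : ∀ k, acc ![1 / (2 * s ^ 2), 1 / (2 * s ^ 2), μ / s ^ 2] q 0 k =
      1 / (2 * s ^ 2) * (q 1 k - q 0 k) / (2 * r) ^ 3
        + μ / s ^ 2 * (q 2 k - q 0 k) / √(z ^ 2 + r ^ 2) ^ 3 := by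
    intro k
    unfold acc
    rw [e0, Finset.sum_pair (by decide), d10, d20]
    rfl
  have a1 : ∀ k, acc ![1 / (2 * s ^ 2), 1 / (2 * s ^ 2), μ / s ^ 2] q 1 k =
      1 / (2 * s ^ 2) * (q 0 k - q 1 k) / (2 * r) ^ 3
        + μ / s ^ 2 * (q 2 k - q 1 k) / √(z ^ 2 + r ^ 2) ^ 3 := by
    intro k
    unfold acc
    rw [e1, Finset.sum_pair (by decide), d01, d21]
    rfl
  have a2 : ∀ k, acc ![1 / (2 * s ^ 2), 1 / (2 * s ^ 2), μ / s ^ 2] q 2 k =
      1 / (2 * s ^ 2) * (q 0 k - q 2 k) / √(z ^ 2 + r ^ 2) ^ 3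
        + 1 / (2 * s ^ 2) * (q 1 k - q 2 k) / √(z ^ 2 + r ^ 2) ^ 3 := by
    intro k
    unfold acc
    rw [e2, Finset.sum_pair (by decide), d02, d12]
    rfl
  set ρ := √(z ^ 2 + r ^ 2)
  funext i k
  fin_cases i <;> fin_cases k <;> simp only [Fin.zero_eta, Fin.mk_one, Fin.reduceFinMk, a0, a1, a2] <;>
    simp [hq, iso] <;> field_simp <;> ring

end Real3

open Real3 in
/-- the reduced isosceles motion (in a reparametrised time with speed `g`) is the positive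
trajectory of the three-body problem with masses `1/(2 s²), 1/(2 s²), μ/s²` -/
theorem real_orbit (μ s C g₁ : ℝ) (hμ : 0 < μ) (hs : 0 < s) (hg₁ : 0 < g₁)
    (r p z v g : ℝ → ℝ) (hgc : Continuous g) (hrc : Continuous r)
    (hg : ∀ ψ, 0 ≤ ψ → g₁ ≤ g ψ) (hr0 : ∀ ψ, 0 ≤ ψ → 0 < r ψ)
    (hr : ∀ ψ, 0 ≤ ψ → HasDerivAt r (g ψ * p ψ) ψ)
    (hp : ∀ ψ, 0 ≤ ψ → HasDerivAt p (g ψ * (C ^ 2 / r ψ ^ 3 - 1 / (8 * r ψ ^ 2) -
      μ * r ψ * (1 / √(z ψ ^ 2 + r ψ ^ 2)) ^ 3)) ψ)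
    (hz : ∀ ψ, 0 ≤ ψ → HasDerivAt z (g ψ * v ψ) ψ)
    (hv : ∀ ψ, 0 ≤ ψ → HasDerivAt v
      (-(g ψ * (1 + μ) * z ψ * (1 / √(z ψ ^ 2 + r ψ ^ 2)) ^ 3)) ψ) :
    ∃ ϑ : ℝ → ℝ, ∀ U : Set (Conf 3 × Conf 3),
      Meets ![1 / (2 * s ^ 2), 1 / (2 * s ^ 2), μ / s ^ 2]
        (iso μ s C (r 0) (p 0) (z 0) (v 0) 0) U ↔
      ∃ ψ, 0 ≤ ψ ∧ iso μ s C (r ψ) (p ψ) (z ψ) (v ψ) (ϑ ψ) ∈ U := by
  have hμ1 : (1 + μ) ≠ 0 := by positivity
  have hmax : Continuous fun u : ℝ => max u 0 := continuous_id.max continuous_const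
  have hc1 : Continuous fun u : ℝ => g (max u 0) * C / r (max u 0) ^ 2 :=
    ((hgc.comp hmax).mul continuous_const).div ((hrc.comp hmax).pow 2)
      (fun u => pow_ne_zero 2 (hr0 _ (le_max_right _ _)).ne')
  have hc2 : Continuous fun u : ℝ => s * g (max u 0) := continuous_const.mul (hgc.comp hmax)
  set ϑ : ℝ → ℝ := fun ψ => ∫ u in (0 : ℝ)..ψ, g (max u 0) * C / r (max u 0) ^ 2 with hϑ
  set τ : ℝ → ℝ := fun ψ => ∫ u in (0 : ℝ)..ψ, s * g (max u 0) with hτ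
  have hϑd : ∀ ψ, 0 ≤ ψ → HasDerivAt ϑ (g ψ * C / r ψ ^ 2) ψ := by
    intro ψ hψ
    have := (hc1.integral_hasStrictDerivAt 0 ψ).hasDerivAt
    rwa [max_eq_left hψ] at this
  have hτd : ∀ ψ, HasDerivAt τ (s * g (max ψ 0)) ψ :=
    fun ψ => (hc2.integral_hasStrictDerivAt 0 ψ).hasDerivAt
  have hϑ0 : ϑ 0 = 0 := by simp [hϑ]
  have hτ0 : τ 0 = 0 := by simp [hτ]
  have hpos : ∀ ψ, s * g₁ ≤ s * g (max ψ 0) :=
    fun ψ => mul_le_mul_of_nonneg_left (hg _ (le_max_right _ _)) hs.le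
  have hsg : 0 < s * g₁ := mul_pos hs hg₁
  have hmono : StrictMono τ :=
    strictMono_of_hasDerivAt_pos hτd (fun ψ => lt_of_lt_of_le hsg (hpos ψ))
  have hτc : Continuous τ := continuous_iff_continuousAt.mpr fun ψ => (hτd ψ).continuousAt
  have hmono2 : Monotone fun ψ => τ ψ - s * g₁ * ψ := by
    apply monotone_of_hasDerivAt_nonneg (f' := fun ψ => s * g (max ψ 0) - s * g₁)
    · intro ψ
      exact ((hτd ψ).sub ((hasDerivAt_id ψ).const_mul (s * g₁))).congr_deriv (by simp)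
    · intro ψ
      exact sub_nonneg.mpr (hpos ψ)
  have hsurj : Function.Surjective τ := by
    apply hτc.surjective
    · refine tendsto_atTop_mono' atTop ?_ (tendsto_id.const_mul_atTop hsg)
      filter_upwards [eventually_ge_atTop (0 : ℝ)] with ψ hψ
      have := hmono2 hψ
      simp only [hτ0, mul_zero, sub_zero, id] at this ⊢
      linarith
    · refine tendsto_atBot_mono' atBot ?_ (tendsto_id.const_mul_atBot hsg)
      filter_upwards [eventually_le_atBot (0 : ℝ)] with ψ hψ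
      have := hmono2 hψ
      simp only [hτ0, mul_zero, sub_zero, id] at this ⊢
      linarith
  set e := hmono.orderIsoOfSurjective τ hsurj with he
  set Ψ : ℝ → ℝ := fun t => e.symm t with hΨ
  have hτΨ : ∀ t, τ (Ψ t) = t := fun t => e.apply_symm_apply t
  have hΨτ : ∀ ψ, Ψ (τ ψ) = ψ := fun ψ => e.symm_apply_apply ψ
  have hΨ0 : Ψ 0 = 0 := by
    have := hΨτ 0
    rwa [hτ0] at this
  have hΨnn : ∀ t, 0 ≤ t → 0 ≤ Ψ t := by
    intro t ht
    have : Ψ 0 ≤ Ψ t := e.symm.monotone ht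
    rwa [hΨ0] at this
  have hΨd : ∀ t, 0 ≤ t → HasDerivAt Ψ (s * g (Ψ t))⁻¹ t := by
    intro t ht
    have h1 := hτd (Ψ t)
    have h2 := lt_of_lt_of_le hsg (hpos (Ψ t))
    rw [max_eq_left (hΨnn t ht)] at h1 h2
    exact HasDerivAt.of_local_left_inverse e.symm.continuous.continuousAt h1 h2.ne'
      (Eventually.of_forall hτΨ)
  set m : Fin 3 → ℝ := ![1 / (2 * s ^ 2), 1 / (2 * s ^ 2), μ / s ^ 2] with hm
  set X : ℝ → Conf 3 × Conf 3 := fun ψ => iso μ s C (r ψ) (p ψ) (z ψ) (v ψ) (ϑ ψ) with hX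
  have hXq : ∀ ψ, 0 ≤ ψ → ∀ i k,
      HasDerivAt (fun u => (X u).1 i k) (s * g ψ * (X ψ).2 i k) ψ := by
    intro ψ hψ i k
    have hrψ := (hr0 ψ hψ).ne'
    have hx := (hr ψ hψ).mul (hϑd ψ hψ).cos
    have hy := (hr ψ hψ).mul (hϑd ψ hψ).sin
    have hw := (hz ψ hψ).const_mul (-(μ / (1 + μ)))
    have hw' := (hz ψ hψ).div_const (1 + μ)
    have h0 := hasDerivAt_const ψ (0 : ℝ)
    fin_cases i <;> fin_cases k
    · refine hx.congr_deriv ?_
      simp [hX, iso]; field_simp; ring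
    · refine hy.congr_deriv ?_
      simp [hX, iso]; field_simp
    · refine hw.congr_deriv ?_
      simp [hX, iso]; field_simp
    · refine hx.neg.congr_deriv ?_
      simp [hX, iso]; field_simp; ring
    · refine hy.neg.congr_deriv ?_
      simp [hX, iso]; field_simp; ring
    · refine hw.congr_deriv ?_
      simp [hX, iso]; field_simp
    · refine h0.congr_deriv ?_
      simp [hX, iso]
    · refine h0.congr_deriv ?_
      simp [hX, iso]
    · refine hw'.congr_deriv ?_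
      simp [hX, iso]; field_simp
  have hXv : ∀ ψ, 0 ≤ ψ → ∀ i k,
      HasDerivAt (fun u => (X u).2 i k) (s * g ψ * acc m (X ψ).1 i k) ψ := by
    intro ψ hψ i k
    have hrψ := (hr0 ψ hψ).ne'
    have ha := congrFun (congrFun (acc_iso μ s C (r ψ) (p ψ) (z ψ) (v ψ) (ϑ ψ) hμ hs
      (hr0 ψ hψ)) i) k
    have hcr := (hasDerivAt_const ψ C).div (hr ψ hψ) hrψ
    have hx := (((hp ψ hψ).mul (hϑd ψ hψ).cos).sub (hcr.mul (hϑd ψ hψ).sin)).div_const s
    have hy := (((hp ψ hψ).mul (hϑd ψ hψ).sin).add (hcr.mul (hϑd ψ hψ).cos)).div_const s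
    have hw := ((hv ψ hψ).const_mul (-(μ / (1 + μ)))).div_const s
    have hw' := ((hv ψ hψ).div_const (1 + μ)).div_const s
    have h0 := hasDerivAt_const ψ (0 : ℝ)
    have hb : acc m (X ψ).1 i k = _ := ha
    rw [hb]
    generalize (1 / √(z ψ ^ 2 + r ψ ^ 2)) ^ 3 = w at *
    fin_cases i <;> fin_cases k
    · refine hx.congr_deriv ?_
      simp; field_simp; ring
    · refine hy.congr_deriv ?_
      simp; field_simp; ring
    · refine hw.congr_deriv ?_
      simp; field_simp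
    · refine hx.neg.congr_deriv ?_
      simp; field_simp; ring
    · refine hy.neg.congr_deriv ?_
      simp; field_simp; ring
    · refine hw.congr_deriv ?_
      simp; field_simp
    · refine h0.congr_deriv ?_
      simp
    · refine h0.congr_deriv ?_
      simp
    · refine hw'.congr_deriv ?_
      simp; field_simp
  have hsol : ∀ T, IsSol m T (fun t => (X (Ψ t)).1) (fun t => (X (Ψ t)).2) := by
    intro T t ht
    have hψ := hΨnn t ht.1
    have hne : s * g (Ψ t) ≠ 0 := (mul_pos hs (lt_of_lt_of_le hg₁ (hg _ hψ))).ne'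
    refine ⟨noColl_iso _ _ _ _ _ _ _ _ (hr0 _ hψ), fun i k => ⟨?_, ?_⟩⟩
    · have := (hXq _ hψ i k).comp t (hΨd t ht.1)
      refine (this.congr_deriv ?_).hasDerivWithinAt
      rw [mul_right_comm, mul_inv_cancel₀ hne, one_mul]
    · have := (hXv _ hψ i k).comp t (hΨd t ht.1)
      refine (this.congr_deriv ?_).hasDerivWithinAt
      rw [mul_right_comm, mul_inv_cancel₀ hne, one_mul]
  have hX0 : X (Ψ 0) = iso μ s C (r 0) (p 0) (z 0) (v 0) 0 := by
    rw [hΨ0, hX]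
    simp only [hϑ0]
  refine ⟨ϑ, fun U => ⟨?_, ?_⟩⟩
  · rintro ⟨T, hT, q', v', hsol', h0, hU⟩
    have := sol_unique hT hsol' (hsol T) (h0.trans hX0.symm)
    rw [this] at hU
    exact ⟨Ψ T, hΨnn T hT, hU⟩
  · rintro ⟨ψ, hψ, hU⟩
    refine ⟨τ ψ, ?_, _, _, hsol _, hX0, ?_⟩
    · have := hmono.monotone hψ
      rwa [hτ0] at this
    · show X (Ψ (τ ψ)) ∈ U
      rw [hΨτ]
      exact hU

end Pool.Agent.P.MP_9ae58c_an
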