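import Pool.Agent.P.MP_9ae58c_an.Enum

/-! A universal machine, obtained from the compilation of recursive functions in Mathlib. -/

namespace Pool.Agent.P.MP_9ae58c_an

open Turing

namespace Univ

section sim
variable {Γ Λ : Type} [Inhabited Γ] [Inhabited Λ] (M : TM0.Machine Γ Λ) (S : Finset Λ)
  {nQ nS : ℕ} (e : Option S ≃ Fin nQ) (ε : Γ ≃ Fin (nS + 1))

open Classical in
/-- the state of the finite machine attached to a label -/
noncomputable def st (q : Λ) : Fin nQ := if h : q ∈ S then e (some ⟨q, h⟩) else e none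

omit [Inhabited Λ] in
theorem st_ne {q : Λ} (h : q ∈ S) : st S e q ≠ e none := by
  rw [st, dif_pos h]
  exact fun h' => by simpa using e.injective h'

omit [Inhabited Λ] in
theorem symm_st {q : Λ} (h : q ∈ S) : e.symm (st S e q) = some ⟨q, h⟩ := by
  rw [st, dif_pos h, Equiv.symm_apply_apply]

/-- translation of one instruction -/
noncomputable def ins (a : Fin (nS + 1)) : Option (Λ × TM0.Stmt Γ) → Fin nQ × Fin (nS + 1) × Fin 3
  | none => (e none, a, 1)
  | some (q, TM0.Stmt.write b) => (st S e q, ε b, 1)
  | some (q, TM0.Stmt.move Dir.left) => (st S e q, a, 0)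
  | some (q, TM0.Stmt.move Dir.right) => (st S e q, a, 2)

/-- the finite machine -/
noncomputable def mach (h0 : default ∈ S) : TM where
  nQ := nQ
  nS := nS
  q0 := st S e default
  qh := e none
  ne := st_ne S e h0
  δ := fun q a => ins S e ε a ((e.symm q).bind fun s => M s.1 (ε.symm a))

/-- translation of configurations -/
noncomputable def cfg (c : TM0.Cfg Γ Λ) : Fin nQ × (ℤ → Fin (nS + 1)) :=
  (st S e c.q, fun n => ε (c.Tape.nth n))

theorem step_cfg (h0 : default ∈ S) {c : TM0.Cfg Γ Λ} (hc : c.q ∈ S) :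
    (mach M S e ε h0).step (cfg S e ε c) =
      ((ins S e ε (ε c.Tape.head) (M c.q c.Tape.head)).1, fun n : ℤ =>
        Function.update (fun n => ε (c.Tape.nth n)) 0 (ins S e ε (ε c.Tape.head) (M c.q c.Tape.head)).2.1
          (n + (((ins S e ε (ε c.Tape.head) (M c.q c.Tape.head)).2.2 : ℕ) : ℤ) - 1)) := by
  have h1 : (mach M S e ε h0).δ (cfg S e ε c).1 ((cfg S e ε c).2 0) =
      ins S e ε (ε c.Tape.head) (M c.q c.Tape.head) := by
    simp only [mach, cfg, symm_st S e hc, Option.bind_some, Tape.nth_zero, Equiv.symm_apply_apply]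
  refine (if_neg (st_ne S e hc)).trans ?_
  exact congrArg (fun x : Fin nQ × Fin (nS + 1) × Fin 3 => ((x.1, fun n : ℤ =>
    Function.update (fun n => ε (c.Tape.nth n)) 0 x.2.1 (n + ((x.2.2 : ℕ) : ℤ) - 1)) :
      Fin nQ × (ℤ → Fin (nS + 1)))) h1

theorem step_none (h0 : default ∈ S) {c : TM0.Cfg Γ Λ} (hc : c.q ∈ S)
    (h : TM0.step M c = none) : ((mach M S e ε h0).step (cfg S e ε c)).1 = e none := by
  rw [step_cfg M S e ε h0 hc]
  obtain ⟨q, T⟩ := c
  have : M q T.head = none := by simpa [TM0.step] using h
  simp only [this, ins]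

theorem step_some (h0 : default ∈ S) {c c' : TM0.Cfg Γ Λ} (hc : c.q ∈ S)
    (h : TM0.step M c = some c') : (mach M S e ε h0).step (cfg S e ε c) = cfg S e ε c' := by
  rw [step_cfg M S e ε h0 hc]
  obtain ⟨q, T⟩ := c
  obtain ⟨⟨q', s⟩, h1, rfl⟩ := Option.map_eq_some_iff.1 h
  have h2 : Function.update (fun n => ε (T.nth n)) 0 (ε T.head) = fun n => ε (T.nth n) :=
    Function.update_eq_self_iff.2 rfl
  replace h1 : M q T.head = some (q', s) := h1
  simp only [h1]
  rcases s with (_ | _) | b
  · simp only [ins, h2, cfg, Tape.move_left_nth]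
    simp
  · simp only [ins, h2, cfg, Tape.move_right_nth]
    congr 1
    funext n
    congr 2
    simp only [Fin.isValue, Fin.coe_ofNat_eq_mod]
    omega
  · simp only [ins, cfg, Tape.write_nth]
    congr 1
    funext n
    by_cases hn : n = 0
    · simp [hn]
    · simp [hn]

theorem dom_iff (ss : TM0.Supports M (S : Set Λ)) {c : TM0.Cfg Γ Λ} (hc : c.q ∈ S) :
    (StateTransition.eval (TM0.step M) c).Dom ↔
      ∃ k : ℕ, ((mach M S e ε ss.1).step^[k] (cfg S e ε c)).1 = e none := by
  constructor
  · intro h
    obtain ⟨b, hb⟩ := Part.dom_iff_mem.1 h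
    obtain ⟨h1, h2⟩ := StateTransition.mem_eval.1 hb
    clear h hb
    induction h1 using Relation.ReflTransGen.head_induction_on with
    | refl => exact ⟨1, step_none M S e ε ss.1 hc h2⟩
    | head h3 _ ih =>
      obtain ⟨k, hk⟩ := ih (TM0.step_supports M ss h3 hc)
      exact ⟨k + 1, by rw [Function.iterate_succ_apply, step_some M S e ε ss.1 hc h3]; exact hk⟩
  · rintro ⟨k, hk⟩
    induction k generalizing c with
    | zero => exact absurd hk (st_ne S e hc)
    | succ k ih =>
      rcases h : TM0.step M c with _ | c'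
      · exact Part.dom_iff_mem.2 ⟨c, StateTransition.mem_eval.2 ⟨Relation.ReflTransGen.refl, h⟩⟩
      · rw [Function.iterate_succ_apply, step_some M S e ε ss.1 hc h] at hk
        rw [StateTransition.reaches_eval (Relation.ReflTransGen.single h)]
        exact ih (TM0.step_supports M ss h hc) hk

theorem init_cfg (h0 : default ∈ S) (hε : ε default = 0) (l : List Γ) :
    ((mach M S e ε h0).q0, (mach M S e ε h0).tape ([], l.map ε)) = cfg S e ε (TM0.init l) := by
  refine Prod.ext rfl (funext fun n => ?_)
  rcases n with n | n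
  · change (l.map ε).getD n 0 = ε ((Tape.mk' (ListBlank.mk []) (ListBlank.mk l)).nth (n : ℕ))
    rw [Tape.mk'_nth_nat, ListBlank.nth_mk, ← hε, List.getD_map, List.getI]
  · change (0 : Fin (nS + 1)) = ε ((ListBlank.mk []).nth n)
    rw [ListBlank.nth_mk, List.getI_nil, hε]

end sim

/-- a finitely supported machine of Mathlib as a machine of our model -/
theorem exists_mach {Γ Λ : Type} [Inhabited Γ] [Inhabited Λ] [Finite Γ] (M : TM0.Machine Γ Λ)
    (S : Finset Λ) (ss : TM0.Supports M (S : Set Λ)) :
    ∃ (U : TM) (ε : Γ → Fin (U.nS + 1)), ∀ l : List Γ,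
      (TM0.eval M l).Dom ↔ U.Halts ([], l.map ε) := by
  classical
  have := Fintype.ofFinite Γ
  obtain ⟨nS, hS⟩ : ∃ nS, Fintype.card Γ = nS + 1 :=
    ⟨Fintype.card Γ - 1, (Nat.sub_add_cancel Fintype.card_pos).symm⟩
  let ε₀ := Fintype.equivFinOfCardEq hS
  let ε : Γ ≃ Fin (nS + 1) := ε₀.trans (Equiv.swap (ε₀ default) 0)
  have hε : ε default = 0 := Equiv.swap_apply_left _ _
  let e := Fintype.equivFin (Option S)
  refine ⟨mach M S e ε ss.1, ε, fun l => ?_⟩
  rw [TM.Halts, init_cfg M S e ε ss.1 hε]
  exact dom_iff M S e ε ss (c := TM0.init l) ss.1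

/-- `n` copies of the block `b c` -/
def rep {α : Type} (b c : α) (n : ℕ) : List α := Nat.rec [] (fun _ l => b :: c :: l) n

theorem rep_succ {α : Type} (b c : α) (n : ℕ) : rep b c (n + 1) = b :: c :: rep b c n := rfl

theorem rep_append {α : Type} (b c : α) (n : ℕ) : rep b c n ++ [b, c] = b :: c :: rep b c n := by
  induction n with
  | zero => rfl
  | succ n ih => rw [rep_succ, List.cons_append, List.cons_append, ih]

theorem rep_reverse {α : Type} (b c : α) (n : ℕ) : (c :: rep b c n).reverse = c :: rep b c n := by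
  induction n with
  | zero => rfl
  | succ n ih =>
    rw [rep_succ, List.reverse_cons, List.reverse_cons, ih, List.append_assoc, List.cons_append,
      List.singleton_append, rep_append]

theorem rep_map {α β : Type} (f : α → β) (b c : α) (n : ℕ) :
    (rep b c n).map f = rep (f b) (f c) n := by
  induction n with
  | zero => rfl
  | succ n ih => rw [rep_succ, rep_succ, List.map_cons, List.map_cons, ih]

theorem primrec_rep {α : Type} [Primcodable α] (b c : α) : Primrec (rep b c) :=
  Primrec.nat_rec₁ [] ((Primrec.list_cons.comp (Primrec.const b)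
    (Primrec.list_cons.comp (Primrec.const c) Primrec.snd)).to₂)

open ToPartrec PartrecToTM2

/-- the code that counts the leading ones -/
def cnt : Code := Code.fix (Code.cons Code.tail (Code.cons Code.succ (Code.comp Code.tail Code.tail)))

theorem cnt_eval (a n : ℕ) : [a + n + 1] ∈ cnt.eval (a :: List.replicate n 1) := by
  rw [cnt, Code.fix_eval]
  induction n generalizing a with
  | zero => exact PFun.mem_fix_iff.2 (Or.inl (by simp))
  | succ n ih =>
    refine PFun.mem_fix_iff.2 (Or.inr ⟨(a + 1) :: List.replicate n 1, by simp [List.replicate_succ], ?_⟩)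
    have := ih (a + 1)
    rwa [add_assoc a 1 n, add_comm 1 n] at this

theorem trList_ones (n : ℕ) : trList (List.replicate n 1) = rep Γ'.bit1 Γ'.cons n := by
  induction n with
  | zero => rfl
  | succ n ih =>
    rw [List.replicate_succ, trList, ih, rep_succ]
    rfl

instance instFiniteK : Finite K' :=
  Finite.of_surjective (fun i : Fin 4 => ![K'.main, K'.rev, K'.aux, K'.stack] i) fun x => by
    cases x
    exacts [⟨0, rfl⟩, ⟨1, rfl⟩, ⟨2, rfl⟩, ⟨3, rfl⟩]

/-- every code is run by a machine of our model on unary inputs -/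
theorem exists_run (c : Code) : ∃ (U : TM) (A B C : Fin (U.nS + 1)), ∀ n : ℕ,
    (c.eval (0 :: List.replicate n 1)).Dom ↔ U.Halts ([], A :: rep B C n) := by
  let _ : Inhabited Λ' := ⟨trNormal c Cont'.halt⟩
  have h2 : TM2.Supports tr (codeSupp c Cont'.halt) := tr_supports c Cont'.halt
  have h0 := TM1to0.tr_supports _ (TM2to1.tr_supports tr h2)
  have : Finite (TM2to1.Γ' K' fun _ => Γ') :=
    inferInstanceAs (Finite (Bool × ∀ _ : K', Option Γ'))
  obtain ⟨U, ε, hU⟩ := exists_mach _ _ h0
  refine ⟨U, ε (true, Function.update (fun _ => none) K'.main (some Γ'.cons)),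
    ε (false, Function.update (fun _ => none) K'.main (some Γ'.bit1)),
    ε (false, Function.update (fun _ => none) K'.main (some Γ'.cons)), fun n => ?_⟩
  have h3 := hU (TM2to1.trInit K'.main (trList (0 :: List.replicate n 1)))
  rw [TM1to0.tr_eval] at h3
  replace h3 := (TM2to1.tr_eval_dom tr K'.main _).symm.trans h3
  have h4 : (TM2.init K'.main (trList (0 :: List.replicate n 1)) : Cfg') =
      PartrecToTM2.init c (0 :: List.replicate n 1) := by
    rw [TM2.init, PartrecToTM2.init]
    congr 1
    funext k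
    cases k <;> rfl
  have h5 : (TM2.eval tr K'.main (trList (0 :: List.replicate n 1))).Dom ↔
      (c.eval (0 :: List.replicate n 1)).Dom := by
    have h6 := congrArg Part.Dom (PartrecToTM2.tr_eval c (0 :: List.replicate n 1))
    rw [← h4] at h6
    exact h6.to_iff
  have h7 : TM2to1.trInit (Γ := fun _ => Γ') K'.main (trList (0 :: List.replicate n 1)) =
      (true, Function.update (fun _ => none) K'.main (some Γ'.cons)) ::
        rep (false, Function.update (fun _ => none) K'.main (some Γ'.bit1))
          (false, Function.update (fun _ => none) K'.main (some Γ'.cons)) n := by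
    rw [trList, trNat_zero, List.nil_append, trList_ones, TM2to1.trInit, rep_reverse]
    exact congrArg (List.cons _) (rep_map _ _ _ n)
  rw [← h5, h3, h7]
  exact (congrArg (fun l => U.Halts ([], _ :: l)) (rep_map ε _ _ n)).to_iff

end Univ

open ToPartrec in
theorem exists_universal : ∃ U : TM, U.Universal := by
  obtain ⟨R, hR, hH⟩ := halts_uniform
  let dec : ℕ → (ℕ × ℕ × ℕ × ℕ × List (List (ℕ × ℕ × ℕ))) × (List ℕ × List ℕ) :=
    fun n => (Encodable.decode n.pred).getD default
  have hdec : Primrec dec :=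
    Primrec.option_getD.comp (Primrec.decode.comp Primrec.pred) (Primrec.const default)
  have hg : Partrec fun n : ℕ => Nat.rfind fun k => (Part.some (R (dec n, k)) : Part Bool) :=
    Partrec.rfind (hR.comp ((hdec.comp Primrec.fst).pair Primrec.snd)).to_comp.partrec.to₂
  obtain ⟨c, hc⟩ := Code.exists_code (Nat.Partrec'.part_iff₁.2 hg)
  obtain ⟨U, A, B, C, hU⟩ := Univ.exists_run (c.comp Univ.cnt)
  refine ⟨U, fun x => ([], A :: Univ.rep B C (Encodable.encode x)), ?_, fun T d => ?_⟩
  · exact ((Primrec.const []).pair (Primrec.list_cons.comp (Primrec.const A)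
      ((Univ.primrec_rep B C).comp Primrec.encode))).to_comp
  · rw [hH, ← hU, Code.comp_eval]
    generalize (T.code, T.inpCode d) = x
    have h1 := Part.eq_some_iff.2 (Univ.cnt_eval 0 (Encodable.encode x))
    have h2 := hc ⟨[0 + Encodable.encode x + 1], rfl⟩
    have h3 : dec (0 + Encodable.encode x + 1) = x := by
      simp only [dec, Nat.pred_succ, zero_add, Encodable.encodek, Option.getD_some]
    replace h2 := ((congrArg (fun y => Part.bind y c.eval) h1).trans (Part.bind_some _ _)).trans h2
    refine Iff.trans ?_ (congrArg Part.Dom h2).to_iff.symm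
    change _ ↔ (Nat.rfind fun k => (Part.some (R (dec (0 + Encodable.encode x + 1), k)) : Part Bool)).Dom
    refine Iff.trans ?_ Nat.rfind_dom.symm
    rw [h3]
    simp

end Pool.Agent.P.MP_9ae58c_an
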