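import Pool.Agent.P.MP_9ae58c_an.Defs

/-! Auxiliary definitions for the proof of MP_9ae58c_an. -/

namespace Pool.Agent.P.MP_9ae58c_an

/-- bounded, Lipschitz, and approximable in fixed point integer arithmetic -/
def Good {d : ℕ} (g : (Fin d → ℝ) → ℝ) : Prop :=
  ∃ K : ℕ, (∀ x, |g x| ≤ K) ∧ (∀ x y, |g x - g y| ≤ K * dist x y) ∧
    ∃ f : ℕ × (Fin d → ℤ) → ℤ, Primrec f ∧ ∀ (N : ℕ) (y : Fin d → ℤ), 1 ≤ N →
      |(f (N, y) : ℝ) - N * g (fun i => (y i : ℝ) / N)| ≤ K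

/-- the point of phase space of the isosceles configuration (`s` rescales time) -/
noncomputable def iso (μ s C r p z v ϑ : ℝ) : Conf 3 × Conf 3 :=
  (![![r * Real.cos ϑ, r * Real.sin ϑ, -(μ / (1 + μ)) * z],
     ![-(r * Real.cos ϑ), -(r * Real.sin ϑ), -(μ / (1 + μ)) * z],
     ![0, 0, z / (1 + μ)]],
   ![![(p * Real.cos ϑ - C / r * Real.sin ϑ) / s, (p * Real.sin ϑ + C / r * Real.cos ϑ) / s,
        -(μ / (1 + μ)) * v / s],
     ![-((p * Real.cos ϑ - C / r * Real.sin ϑ) / s), -((p * Real.sin ϑ + C / r * Real.cos ϑ) / s),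
        -(μ / (1 + μ)) * v / s],
     ![0, 0, v / (1 + μ) / s]])

end Pool.Agent.P.MP_9ae58c_an
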