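import Pool.Agent.P.MP_9ae58c_an.Field

/-! A priori bounds: the clipping is never active, and the polar form of the binary motion. -/

namespace Pool.Agent.P.MP_9ae58c_an

open Set Real

section speed

variable {M : ℝ} {z v c g t : ℝ → ℝ} {a b : ℝ}

theorem Mot.en_desc' (h : Mot M z v c g t a b) (hab : a ≤ b) {κ : ℝ} (hκ : 0 < κ)
    (hzv : ∀ u ∈ Icc a b, z u * v u ≤ 0) (hc : ∀ u ∈ Icc a b, κ ≤ c u) :
    En M κ z v b ≤ En M κ z v a := by
  refine ge_of_deriv hab (fun u hu => h.en_deriv hκ hu) fun u hu => ?_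
  have h1 := (h.gpos hu).le
  have h2 := hzv u hu
  have h3 : Wd (z u) (c u) ^ 3 ≤ Wd (z u) κ ^ 3 :=
    pow_le_pow_left₀ (Wd_pos _ (h.cpos hu)).le (Wd_anti _ hκ (hc u hu)) 3
  exact mul_nonpos_of_nonpos_of_nonneg (mul_nonpos_of_nonneg_of_nonpos h1 h2) (sub_nonneg.2 h3)

theorem Mot.up1 (h : Mot M z v c g t a b) (hab : a ≤ b) (hv : ∀ u ∈ Icc a b, 0 ≤ v u)
    (hz : z b ≤ 0) : v b ^ 2 ≤ v a ^ 2 + 21 * 10 ^ 5 := by
  have hz' : ∀ u ∈ Icc a b, z u ≤ 0 := fun u hu =>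
    ((h.mono hu.1 le_rfl).z_mono hu.2 fun x hx => hv x ⟨hu.1.trans hx.1, hx.2⟩).trans hz
  have h1 := h.en_desc' hab (κ := 1 / 10 ^ 12) (by norm_num)
    (fun u hu => mul_nonpos_of_nonpos_of_nonneg (hz' u hu) (hv u hu)) h.c1
  have h2 : Wd (z b) (1 / 10 ^ 12) ≤ 1 / (1 / 10 ^ 6) :=
    Wd_le_of (by norm_num) (by nlinarith [sq_nonneg (z b)])
  have h3 := Wd_pos (z a) (c := 1 / 10 ^ 12) (by norm_num)
  have hM : 0 < 2 * M := by linarith [h.M1]
  have h4 : (v b ^ 2 - v a ^ 2) / (2 * M) ≤ 10 ^ 6 := by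
    unfold En at h1
    rw [sub_div]
    norm_num at h1 h2 h3 ⊢
    linarith
  rw [div_le_iff₀ hM] at h4
  linarith [h.M2]

theorem Mot.up2 (h : Mot M z v c g t a b) (hab : a ≤ b) (hv : ∀ u ∈ Icc a b, 0 ≤ v u)
    (hz : 0 ≤ z a) : v b ^ 2 ≤ v a ^ 2 := by
  have hz' : ∀ u ∈ Icc a b, 0 ≤ z u := fun u hu =>
    hz.trans ((h.mono le_rfl hu.2).z_mono hu.1 fun x hx => hv x ⟨hx.1, hx.2.trans hu.2⟩)
  exact pow_le_pow_left₀ (hv b (right_mem_Icc.2 hab)) (h.v_anti hab hz') 2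

theorem Mot.up (h : Mot M z v c g t a b) (hab : a ≤ b) (hv : ∀ u ∈ Icc a b, 0 ≤ v u) :
    v b ^ 2 ≤ v a ^ 2 + 21 * 10 ^ 5 := by
  rcases le_total (z b) 0 with h1 | h1
  · exact h.up1 hab hv h1
  rcases le_total 0 (z a) with h2 | h2
  · linarith [h.up2 hab hv h2]
  obtain ⟨w, hw, hw0⟩ := intermediate_value_Icc hab h.contz ⟨h2, h1⟩
  have h3 := (h.mono le_rfl hw.2).up1 hw.1 (fun u hu => hv u ⟨hu.1, hu.2.trans hw.2⟩) hw0.le
  have h4 := (h.mono hw.1 le_rfl).up2 hw.2 (fun u hu => hv u ⟨hw.1.trans hu.1, hu.2⟩) hw0.ge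
  linarith

theorem Mot.speed_pos (h : Mot M z v c g t a b) (hab : a ≤ b) (hb : 0 < v b) :
    v b ^ 2 ≤ v a ^ 2 + 21 * 10 ^ 5 := by
  by_cases hx : ∃ x ∈ Icc a b, v x ≤ 0
  · obtain ⟨x, hx, hx0⟩ := hx
    obtain ⟨w, hw, h1, h2⟩ := last_nonneg (f := fun u => -v u) hx.2
      (h.mono hx.1 le_rfl).contv.neg (by linarith)
    have hlt : w < b := lt_of_le_of_ne hw.2 (by rintro rfl; linarith)
    have h' := h.mono (hx.1.trans hw.1) le_rfl
    have h3 : 0 ≤ v w := nonneg_of_Ioc hlt h'.contv fun u hu => by linarith [h2 u ⟨hu.1, hu.2.le⟩]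
    have h4 := h'.up hw.2 fun u hu => by
      rcases hu.1.eq_or_lt with h5 | h5
      · rw [← h5]; exact h3
      · linarith [h2 u ⟨h5, hu.2⟩]
    have h5 : v w = 0 := by linarith
    rw [h5] at h4
    nlinarith [sq_nonneg (v a)]
  · push Not at hx
    exact h.up hab fun u hu => (hx u hu).le

theorem Mot.speed (h : Mot M z v c g t a b) (hab : a ≤ b) : v b ^ 2 ≤ v a ^ 2 + 21 * 10 ^ 5 := by
  rcases lt_trichotomy (v b) 0 with h1 | h1 | h1
  · have := (h.sign (σ := -1) (by norm_num)).speed_pos hab (by linarith)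
    simpa using this
  · rw [h1]; nlinarith [sq_nonneg (v a)]
  · exact h.speed_pos hab h1

end speed

theorem hasDerivAt_Wd2 {z c : ℝ → ℝ} {z' c' u : ℝ} (hz : HasDerivAt z z' u) (hc : HasDerivAt c c' u)
    (hκ : 0 < c u) :
    HasDerivAt (fun u => Wd (z u) (c u)) (-((z u * z' + c' / 2) * Wd (z u) (c u) ^ 3)) u := by
  have hp : 0 < z u ^ 2 + c u := by positivity
  have h1 : HasDerivAt (fun u => z u ^ 2 + c u) (2 * z u * z' + c') u :=
    ((hz.pow 2).add hc).congr_deriv (by simp)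
  have h2 := (h1.sqrt hp.ne').inv (Real.sqrt_pos.2 hp).ne'
  have hs : 0 < √(z u ^ 2 + c u) := Real.sqrt_pos.2 hp
  have h3 : (fun u => Wd (z u) (c u)) = fun u => (√(z u ^ 2 + c u))⁻¹ := by
    funext u; simp [Wd]
  rw [h3]
  refine h2.congr_deriv ?_
  unfold Wd
  field_simp

/-- a solution of the clipped system with the standard initial data -/
structure Sol (s : ℝ) (Y : ℝ → Fin 5 → ℝ) : Prop where
  hd : ∀ u i, HasDerivAt (fun w => Y w i) (Fld i (Y u)) u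
  h0 : Y 0 = ![-1, 0, 0, s, s]
  s1 : 1 ≤ s
  s2 : s ≤ 2

variable {s : ℝ} {Y : ℝ → Fin 5 → ℝ}

theorem Sol.cont (h : Sol s Y) (i : Fin 5) : Continuous fun w => Y w i :=
  continuous_iff_continuousAt.2 fun u => (h.hd u i).continuousAt

theorem Sol.cont' (h : Sol s Y) : Continuous Y := continuous_pi h.cont

theorem Sol.hs (h : Sol s Y) (u : ℝ) : Y u 4 = s := by
  have := is_const_of_deriv_eq_zero (f := fun w => Y w 4) (fun u => (h.hd u 4).differentiableAt)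
    (fun u => by rw [(h.hd u 4).deriv, F4]) u 0
  rw [this, h.h0]
  rfl

/-- radius -/
noncomputable def rr (Y : ℝ → Fin 5 → ℝ) (u : ℝ) : ℝ := (1 - Y u 0) / 2

theorem Sol.dr (h : Sol s Y) {u : ℝ} (hi : In (Y u)) :
    HasDerivAt (rr Y) (qh (Y u) * Y u 1 / 2) u := by
  refine (((h.hd u 0).const_sub 1).div_const 2).congr_deriv ?_
  rw [hi.F0]; ring

/-- the angular momentum integral -/
noncomputable def II (s : ℝ) (Y : ℝ → Fin 5 → ℝ) (u : ℝ) : ℝ :=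
  1 - Y u 0 * Y u 0 - Y u 1 * Y u 1 + 4 * (rr Y u * rr Y u) *
    (kk s - 4 * nu * (Y u 3 * Y u 3) + 8 * mu * Wd (Y u 2) (rr Y u ^ 2))

theorem Sol.dI (h : Sol s Y) {u : ℝ} (hi : In (Y u)) : HasDerivAt (II s Y) 0 u := by
  have hr := h.dr hi
  have e : rh (Y u) = rr Y u := hi.rh_eq
  have hpos : 0 < rr Y u ^ 2 := by rw [← e]; exact pow_pos (rh_pos _) 2
  have hW := hasDerivAt_Wd2 (h.hd u 2) (hr.pow 2) hpos
  refine ((((((h.hd u 0).mul (h.hd u 0)).const_sub 1).sub ((h.hd u 1).mul (h.hd u 1))).add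
    (((hr.mul hr).const_mul 4).mul (((((h.hd u 3).mul (h.hd u 3)).const_mul (4 * nu)).const_sub
      (kk s)).add (hW.const_mul (8 * mu))))).congr_deriv ?_)
  simp only [Pi.add_apply, Pi.pow_apply, Pi.mul_apply, hi.F0, hi.F1, hi.F2, F3, hi.xih_eq, zeh,
    Wh_eq, e, gh, h.hs, Nat.cast_ofNat, Nat.add_one_sub_one, pow_one]
  have hm := nu_mul
  set W := Wd (Y u 2) (rr Y u ^ 2)
  linear_combination (64 * (rr Y u) ^ 3 * qh (Y u) * Y u 2 * Y u 3 * W ^ 3) * hm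

theorem Sol.II_eq (h : Sol s Y) {T : ℝ} (hT : 0 ≤ T) (hi : ∀ u ∈ Icc 0 T, In (Y u)) :
    II s Y T = 16 / 10 ^ 6 * (s * s) := by
  have h1 := le_of_deriv (f' := fun _ => 0) hT (fun u hu => h.dI (hi u hu)) fun _ _ => le_rfl
  have h2 := ge_of_deriv (f' := fun _ => 0) hT (fun u hu => h.dI (hi u hu)) fun _ _ => le_rfl
  have h3 : II s Y 0 = 16 / 10 ^ 6 * (s * s) := by
    have e : Wd 0 1 = 1 := by simp [Wd]
    simp only [II, rr, h.h0, kk]
    simp only [Matrix.cons_val_zero, Matrix.cons_val_one, Matrix.cons_val]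
    norm_num [e]
    ring
  linarith

theorem Sol.bounds (h : Sol s Y) {T : ℝ} (hT : 0 ≤ T) (hi : ∀ u ∈ Icc 0 T, In (Y u)) :
    9995 / 10000 ≤ Y T 0 * Y T 0 + Y T 1 * Y T 1 ∧ Y T 0 * Y T 0 + Y T 1 * Y T 1 ≤ 10003 / 10000 ∧
      3 / 10 ^ 6 ≤ rr Y T := by
  have h1 := h.II_eq hT hi
  have hiT := hi T (right_mem_Icc.2 hT)
  have e : rh (Y T) = rr Y T := hiT.rh_eq
  obtain ⟨z1, z2⟩ := hiT.zeh_bd
  have e2 : zeh (Y T) = kk s - 4 * nu * (Y T 3 * Y T 3) + 8 * mu * Wd (Y T 2) (rr Y T ^ 2) := by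
    rw [zeh, h.hs, Wh_eq, e]
  rw [II, ← e2] at h1
  have r1 := rh_pos (Y T)
  have r2 := hiT.rh_le
  rw [e] at r1 r2
  have s1 : 1 ≤ s * s := by nlinarith [h.s1]
  have s2 : s * s ≤ 4 := by nlinarith [h.s1, h.s2]
  have rr2 : rr Y T * rr Y T ≤ 9 / 4 := by nlinarith
  have rr0 : 0 ≤ rr Y T * rr Y T := mul_self_nonneg _
  have a1 : rr Y T * rr Y T * zeh (Y T) ≤ rr Y T * rr Y T * (25 / 10 ^ 6) := by gcongr
  have a2 : rr Y T * rr Y T * (-(17 / 10 ^ 6)) ≤ rr Y T * rr Y T * zeh (Y T) := by gcongr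
  have e3 : Y T 0 = 1 - 2 * rr Y T := by unfold rr; ring
  refine ⟨by nlinarith, by nlinarith, ?_⟩
  rw [e3] at h1
  nlinarith [mul_self_nonneg (Y T 1)]

/-- physical time -/
noncomputable def tt (Y : ℝ → Fin 5 → ℝ) (u : ℝ) : ℝ := ∫ w in (0 : ℝ)..u, gh (Y w)

theorem Sol.contg (h : Sol s Y) : Continuous fun u => gh (Y u) := good_gh.continuous.comp h.cont'

theorem Sol.mot (h : Sol s Y) {T : ℝ} (hi : ∀ u ∈ Icc 0 T, In (Y u)) :
    Mot (1 + mu) (fun u => Y u 2) (fun u => Y u 3) (fun u => rr Y u ^ 2) (fun u => gh (Y u))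
      (tt Y) 0 T := by
  have hb : ∀ u ∈ Icc 0 T, rh (Y u) ≤ 10002 / 10000 := fun u hu => by
    obtain ⟨-, h1, -⟩ := h.bounds hu.1 fun x hx => hi x ⟨hx.1, hx.2.trans hu.2⟩
    rw [(hi u hu).rh_eq]
    nlinarith [mul_self_nonneg (Y u 1)]
  refine ⟨fun u hu => (h.hd u 2).congr_deriv (hi u hu).F2,
    fun u hu => (h.hd u 3).congr_deriv ?_,
    fun u _ => (h.contg.integral_hasStrictDerivAt 0 u).hasDerivAt,
    fun u hu => ((hi u hu).gh_bd (by linarith [hb u hu])).1,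
    fun u hu => ((hi u hu).gh_bd (by linarith [hb u hu])).2, fun u hu => ?_, fun u hu => ?_,
    by linarith [mu_pos], by unfold mu; norm_num⟩
  · rw [F3, (hi u hu).rh_eq]; rfl
  · have h1 := rh_ge' (Y u)
    rw [(hi u hu).rh_eq] at h1
    unfold rr
    nlinarith
  · have h1 := hb u hu
    have h2 := rh_pos (Y u)
    rw [(hi u hu).rh_eq] at h1 h2
    unfold rr
    nlinarith

theorem Sol.inside (h : Sol s Y) : ∀ u, 0 ≤ u → In (Y u) := by
  set G : ℝ → ℝ := fun u => min (min (Y u 0 + 2) (1 - 2 / 10 ^ 6 - Y u 0))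
    (min (min (2 - |Y u 1|) (2000 - |Y u 3|)) (Y u 0 * Y u 0 + Y u 1 * Y u 1 - 9 / 10)) with hG
  have hin : ∀ u, 0 ≤ G u → In (Y u) := fun u hu => by
    simp only [hG, le_min_iff] at hu
    obtain ⟨⟨a1, a2⟩, ⟨a3, a4⟩, a5⟩ := hu
    exact ⟨by linarith, by linarith, by linarith, by linarith, by linarith,
      by rw [h.hs]; exact h.s1, by rw [h.hs]; exact h.s2⟩
  have hc : Continuous G := by
    have c0 := h.cont 0
    have c1 := h.cont 1
    have c3 := h.cont 3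
    fun_prop
  have hv0 : Y 0 3 = s := by rw [h.h0]; rfl
  intro T hT
  refine hin T (boot (a := 0) (b := T) hc.continuousOn ?_ (fun u hu hG' => ?_) T
    (right_mem_Icc.2 hT)).le
  · have a0 : Y 0 0 = -1 := by rw [h.h0]; rfl
    have a1 : Y 0 1 = 0 := by rw [h.h0]; rfl
    have a2 : |s| ≤ 2 := by rw [abs_le]; constructor <;> linarith [h.s1, h.s2]
    simp only [hG, le_min_iff, a0, a1, hv0, abs_zero]
    refine ⟨⟨by norm_num, by norm_num⟩, ⟨by norm_num, by linarith⟩, by norm_num⟩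
  · have hi : ∀ x ∈ Icc 0 u, In (Y x) := fun x hx => hin x (hG' x hx)
    obtain ⟨b1, b2, b3⟩ := h.bounds hu.1 hi
    have b4 := (h.mot hi).speed hu.1
    simp only [hv0] at b4
    have b5 : |Y u 3| < 2000 := abs_lt_of_sq_lt_sq (by nlinarith [h.s1, h.s2]) (by norm_num)
    have b6 : |Y u 1| < 2 := abs_lt_of_sq_lt_sq (by nlinarith [mul_self_nonneg (Y u 0)])
      (by norm_num)
    unfold rr at b3
    simp only [hG, lt_min_iff]
    refine ⟨⟨by nlinarith [mul_self_nonneg (Y u 1)], by linarith⟩, ⟨by linarith, by linarith⟩,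
      by linarith⟩

/-- amplitude of the eccentricity vector -/
noncomputable def AA (Y : ℝ → Fin 5 → ℝ) (u : ℝ) : ℝ := -(Y u 0 * cos u) - Y u 1 * sin u

theorem Sol.polar (h : Sol s Y) {T : ℝ} (hT : 0 ≤ T) : Y T 0 * sin T - Y T 1 * cos T = 0 := by
  refine eq_zero_of_abs_deriv_le_mul_abs_self_of_eq_zero_right
    (f := fun u => Y u 0 * sin u - Y u 1 * cos u)
    (f' := fun u => 2 * qh (Y u) * rh (Y u) * xih (Y u) * Y u 1 /
      (Y u 0 * Y u 0 + Y u 1 * Y u 1) * (Y u 0 * sin u - Y u 1 * cos u)) (K := 1) (a := 0) (b := T)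
    (by have c0 := h.cont 0; have c1 := h.cont 1; fun_prop) (fun u hu => ?_) ?_
    (fun u hu => ?_) T (right_mem_Icc.2 hT)
  · have hi := h.inside u hu.1
    refine ((((h.hd u 0).mul (hasDerivAt_sin u)).sub
      ((h.hd u 1).mul (hasDerivAt_cos u))).congr_deriv ?_).hasDerivWithinAt
    have hP : Y u 0 * Y u 0 + Y u 1 * Y u 1 ≠ 0 := by linarith [hi.hP]
    rw [hi.F0, hi.F1, div_mul_eq_mul_div, eq_div_iff hP]
    have hq := hi.qh_mul
    linear_combination (-(Y u 0 * cos u + Y u 1 * sin u)) * hq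
  · simp only [h.h0, sin_zero, cos_zero]
    simp
  · have hi := h.inside u hu.1
    rw [norm_mul]
    gcongr
    have hP := hi.hP
    rw [Real.norm_eq_abs, abs_div, abs_of_pos (by linarith : 0 < Y u 0 * Y u 0 + Y u 1 * Y u 1),
      div_le_one (by linarith), abs_mul, abs_mul, abs_mul, abs_mul, abs_two,
      abs_of_pos (rh_pos _), abs_of_pos (by linarith [hi.qh_bd.1] : 0 < qh (Y u))]
    have h1 := hi.qh_bd.2
    have h2 := hi.rh_le
    have h3 := hi.xih_bd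
    have h4 := hi.y
    have h5 := rh_pos (Y u)
    have : 2 * qh (Y u) * rh (Y u) * |xih (Y u)| * |Y u 1| ≤
        2 * (1001 / 1000) * (3 / 2) * (25 / 10 ^ 6) * 2 := by gcongr
    linarith

theorem Sol.xy (h : Sol s Y) {u : ℝ} (hu : 0 ≤ u) :
    Y u 0 = -(AA Y u * cos u) ∧ Y u 1 = -(AA Y u * sin u) ∧
      AA Y u ^ 2 = Y u 0 * Y u 0 + Y u 1 * Y u 1 := by
  have h1 := h.polar hu
  have h2 := sin_sq_add_cos_sq u
  unfold AA
  refine ⟨?_, ?_, ?_⟩
  · linear_combination sin u * h1 - Y u 0 * h2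
  · linear_combination (-cos u) * h1 - Y u 1 * h2
  · linear_combination (-(Y u 0 * sin u - Y u 1 * cos u)) * h1 +
      (Y u 0 * Y u 0 + Y u 1 * Y u 1) * h2

theorem Sol.AA_bd (h : Sol s Y) {u : ℝ} (hu : 0 ≤ u) :
    9995 / 10000 ≤ AA Y u ∧ AA Y u ≤ 10005 / 10000 := by
  have hsq : ∀ w, 0 ≤ w → 9995 / 10000 ≤ AA Y w ^ 2 ∧ AA Y w ^ 2 ≤ 10003 / 10000 := fun w hw => by
    obtain ⟨b1, b2, -⟩ := h.bounds hw fun x hx => h.inside x hx.1
    rw [(h.xy hw).2.2]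
    exact ⟨b1, b2⟩
  have hc : Continuous (AA Y) := by
    have c0 := h.cont 0
    have c1 := h.cont 1
    unfold AA
    fun_prop
  have hpos := boot (a := 0) (b := u) hc.continuousOn (by simp [AA, h.h0])
    (fun w hw hA => by
      have h1 := hA w (right_mem_Icc.2 hw.1)
      have h2 := (hsq w hw.1).1
      rcases h1.eq_or_lt with h3 | h3
      · rw [← h3] at h2; norm_num at h2
      · exact h3) u (right_mem_Icc.2 hu)
  obtain ⟨h1, h2⟩ := hsq u hu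
  constructor <;> nlinarith

theorem Sol.clock (h : Sol s Y) {u : ℝ} (hu : 0 ≤ u) :
    ∃ e, HasDerivAt (fun w => w - Y w 1) e u ∧ 999 / 1000 * gh (Y u) ≤ e ∧
      e ≤ 1001 / 1000 * gh (Y u) := by
  have hi := h.inside u hu
  have hP := hi.hP
  have hq := hi.qh_mul
  have hg : 0 < gh (Y u) := by
    have := rh_pos (Y u)
    have := hi.qh_bd.1
    unfold gh
    positivity
  set P := Y u 0 * Y u 0 + Y u 1 * Y u 1 with hPdef
  have hx : |Y u 0| ≤ 2 := abs_le.2 ⟨hi.x1, by linarith [hi.x2]⟩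
  have hxi := hi.xih_bd
  have e : 1 - Fld 1 (Y u) = gh (Y u) * (1 + (Y u 0 * xih (Y u) / P - xih (Y u))) := by
    have hP0 : P ≠ 0 := by linarith
    have hr := hi.rh_eq
    rw [hi.F1, gh]
    field_simp
    have hx0 : Y u 0 = 1 - 2 * rh (Y u) := by rw [hr]; ring
    linear_combination (-1) * hq - qh (Y u) * P * hx0
  have hb : |Y u 0 * xih (Y u) / P| ≤ 1 / 10 ^ 4 := by
    rw [abs_div, abs_of_pos (by linarith : 0 < P), div_le_iff₀ (by linarith), abs_mul]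
    have : |Y u 0| * |xih (Y u)| ≤ 2 * (25 / 10 ^ 6) := by gcongr
    linarith
  rw [abs_le] at hb hxi
  refine ⟨_, (hasDerivAt_id u).sub (h.hd u 1), ?_, ?_⟩ <;> rw [e] <;> nlinarith

theorem Sol.orb (h : Sol s Y) :
    Orb (1 + mu) (fun u => Y u 2) (fun u => Y u 3) (fun u => rr Y u ^ 2) (fun u => gh (Y u))
      (tt Y) (AA Y) := by
  have hm : ∀ b, Mot (1 + mu) (fun u => Y u 2) (fun u => Y u 3) (fun u => rr Y u ^ 2)
      (fun u => gh (Y u)) (tt Y) 0 b := fun b => h.mot fun u hu => h.inside u hu.1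
  choose! e he using fun u (hu : 0 ≤ u) => h.clock hu
  have hl : ∀ u, 0 ≤ u → u + AA Y u * sin u = u - Y u 1 := fun u hu => by
    rw [(h.xy hu).2.1]; ring
  refine ⟨hm, fun u hu => (h.inside u hu).v, fun u hu => ?_, fun u hu => (h.AA_bd hu).1,
    fun u hu => (h.AA_bd hu).2, fun x y hx hxy => ?_, fun x y hx hxy => ?_⟩
  · rw [rr, (h.xy hu).1]; ring
  · have := ge_of_deriv (f := fun w => w - Y w 1 - 1001 / 1000 * tt Y w)
      (f' := fun w => e w - 1001 / 1000 * gh (Y w)) hxy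
      (fun w hw => (he w (hx.trans hw.1)).1.sub
        (((hm y).ht w ⟨hx.trans hw.1, hw.2⟩).const_mul _))
      fun w hw => by linarith [(he w (hx.trans hw.1)).2.2]
    rw [hl x hx, hl y (hx.trans hxy)]
    linarith
  · have := le_of_deriv (f := fun w => w - Y w 1 - 999 / 1000 * tt Y w)
      (f' := fun w => e w - 999 / 1000 * gh (Y w)) hxy
      (fun w hw => (he w (hx.trans hw.1)).1.sub
        (((hm y).ht w ⟨hx.trans hw.1, hw.2⟩).const_mul _))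
      fun w hw => by linarith [(he w (hx.trans hw.1)).2.1]
    rw [hl x hx, hl y (hx.trans hxy)]
    linarith

/-- radial velocity -/
noncomputable def pp (Y : ℝ → Fin 5 → ℝ) (u : ℝ) : ℝ := Y u 1 / (4 * rr Y u)

theorem Sol.rr_bd (h : Sol s Y) {u : ℝ} (hu : 0 ≤ u) : 1 / 10 ^ 6 ≤ rr Y u ∧ rr Y u ≤ 3 / 2 := by
  have hi := h.inside u hu
  have h1 := rh_ge' (Y u)
  have h2 := hi.rh_le
  rw [hi.rh_eq] at h1 h2
  exact ⟨h1, h2⟩

theorem Sol.pp_bd (h : Sol s Y) {u : ℝ} (hu : 0 ≤ u) : |pp Y u| ≤ 10 ^ 6 := by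
  have h1 := (h.rr_bd hu).1
  have h2 := (h.inside u hu).y
  rw [pp, abs_div, abs_of_pos (by linarith : 0 < 4 * rr Y u), div_le_iff₀ (by linarith)]
  linarith

theorem Sol.dr' (h : Sol s Y) {u : ℝ} (hu : 0 ≤ u) : HasDerivAt (rr Y) (gh (Y u) * pp Y u) u := by
  have hi := h.inside u hu
  have h1 : 0 < rr Y u := lt_of_lt_of_le (by norm_num) (h.rr_bd hu).1
  have e : rh (Y u) = rr Y u := hi.rh_eq
  refine (h.dr hi).congr_deriv ?_
  rw [gh, pp, e]
  field_simp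
  ring

theorem Sol.dp (h : Sol s Y) {u : ℝ} (hu : 0 ≤ u) :
    HasDerivAt (pp Y) (gh (Y u) * ((s / 1000) ^ 2 / rr Y u ^ 3 - 1 / (8 * rr Y u ^ 2) -
      mu * rr Y u * (1 / √(Y u 2 ^ 2 + rr Y u ^ 2)) ^ 3)) u := by
  have hi := h.inside u hu
  have h1 : 0 < rr Y u := lt_of_lt_of_le (by norm_num) (h.rr_bd hu).1
  have e : rh (Y u) = rr Y u := hi.rh_eq
  have hI := h.II_eq hu fun x hx => h.inside x hx.1
  refine ((h.hd u 1).div ((h.dr hi).const_mul 4) (by positivity)).congr_deriv ?_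
  have e2 : 1 / √(Y u 2 ^ 2 + rr Y u ^ 2) = Wd (Y u 2) (rr Y u ^ 2) := rfl
  have e3 : Y u 0 = 1 - 2 * rr Y u := by unfold rr; ring
  have e4 : (s / 1000) ^ 2 = II s Y u / 16 := by rw [hI]; ring
  rw [hi.F1, hi.xih_eq, zeh, gh, Wh_eq, e, e2, h.hs, e4, II, e3]
  field_simp
  ring

end Pool.Agent.P.MP_9ae58c_an
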