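import Pool.Agent.P.MP_9ae58c_an.Nest
import Pool.Agent.P.MP_9ae58c_an.Dyn
import Pool.Agent.P.MP_9ae58c_an.Euler
import Pool.Agent.P.MP_9ae58c_an.Real3

/-! A three-body orbit whose excursion heights enumerate a prescribed recursive sequence. -/

namespace Pool.Agent.P.MP_9ae58c_an

open Set Real

theorem prim_fin {α σ : Type} [Primcodable α] [Primcodable σ] {n : ℕ} {f : α → Fin n → σ}
    (h : ∀ i, Primrec fun a => f a i) : Primrec f :=
  Primrec.fin_curry.2 (Primrec₂.swap (Primrec.fin_curry₁.2 h))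

theorem exists_family : ∃ Y : ℝ → ℝ → Fin 5 → ℝ, (∀ s ∈ Icc (1 : ℝ) 2, Sol s (Y s)) ∧
    Fam (1 + mu) (fun s u => Y s u 2) (fun s u => Y s u 3) ∧
    ∃ K mx, Apx (fun s u => Y s u 2) (fun s u => Y s u 3) K mx := by
  obtain ⟨Y, h0, hd, hc, K, E, hE, herr⟩ := euler Fld good_Fld
  have hx : Continuous fun s : ℝ => (![-1, 0, 0, s, s] : Fin 5 → ℝ) := by fun_prop
  have hc' : Continuous fun p : ℝ × ℝ => Y ![-1, 0, 0, p.1, p.1] p.2 :=
    hc.comp ((hx.comp continuous_fst).prodMk continuous_snd)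
  have hsol : ∀ s ∈ Icc (1 : ℝ) 2, Sol s (Y ![-1, 0, 0, s, s]) := fun s hs =>
    ⟨hd _, h0 _, hs.1, hs.2⟩
  refine ⟨fun s => Y ![-1, 0, 0, s, s], hsol,
    ⟨(continuous_apply 2).comp hc', (continuous_apply 3).comp hc',
      fun s hs => ⟨_, _, _, _, (hsol s hs).orb⟩, fun s => by simp only [h0]; rfl,
      fun s => by simp only [h0]; rfl⟩, K,
    fun q => max (q.1 * E (q.2.1, ![-(q.2.1 : ℤ), 0, 0, q.2.2.1, q.2.2.1], q.2.2.2) 2)
      (q.1 * E (q.2.1, ![-(q.2.1 : ℤ), 0, 0, q.2.2.1, q.2.2.1], q.2.2.2) 3), ?_, ?_⟩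
  · have hN : Primrec fun q : ℤ × ℕ × ℕ × ℕ => q.2.1 := Primrec.fst.comp Primrec.snd
    have hi : Primrec fun q : ℤ × ℕ × ℕ × ℕ => (q.2.2.1 : ℤ) :=
      primrec_int_cast.comp (Primrec.fst.comp (Primrec.snd.comp Primrec.snd))
    have hj : Primrec fun q : ℤ × ℕ × ℕ × ℕ => q.2.2.2 :=
      Primrec.snd.comp (Primrec.snd.comp Primrec.snd)
    have hy : Primrec fun q : ℤ × ℕ × ℕ × ℕ =>
        (![-(q.2.1 : ℤ), 0, 0, q.2.2.1, q.2.2.1] : Fin 5 → ℤ) := by
      refine prim_fin fun i => ?_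
      fin_cases i
      · exact primrec_int_neg.comp (primrec_int_cast.comp hN)
      · exact Primrec.const 0
      · exact Primrec.const 0
      · exact hi
      · exact hi
    have hE' := hE.comp (hN.pair (hy.pair hj))
    exact primrec_int_max.comp
      (primrec_int_mul.comp Primrec.fst (Primrec.fin_app.comp hE' (Primrec.const 2)))
      (primrec_int_mul.comp Primrec.fst (Primrec.fin_app.comp hE' (Primrec.const 3)))
  · intro σ N i j T s u hσ hN hj hu hs ht
    have hN0 : (0 : ℝ) < N := by exact_mod_cast hN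
    have hdist : dist (![-1, 0, 0, s, s] : Fin 5 → ℝ)
        (fun l => (((![-(N : ℤ), 0, 0, i, i] : Fin 5 → ℤ) l : ℤ) : ℝ) / N) ≤ 1 / N := by
      refine (dist_pi_le_iff (by positivity)).2 fun l => ?_
      fin_cases l
      · simp [hN0.ne']
      · simp
      · simp
      · simpa [Real.dist_eq] using hs
      · simpa [Real.dist_eq] using hs
    have h2 := herr N T j _ _ u hN hj hu ht hdist 2
    have h3 := herr N T j _ _ u hN hj hu ht hdist 3
    have e : (N : ℝ) ^ 2 * Mx (fun s u => Y ![-1, 0, 0, s, s] u 2)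
        (fun s u => Y ![-1, 0, 0, s, s] u 3) σ s u =
        max (σ * (N ^ 2 * Y ![-1, 0, 0, s, s] u 2)) (σ * (N ^ 2 * Y ![-1, 0, 0, s, s] u 3)) := by
      rw [Mx, mul_max_of_nonneg _ _ (sq_nonneg _)]
      congr 1 <;> ring
    have hs1 : |(σ : ℝ)| = 1 := by rcases hσ with h | h <;> simp [h]
    rw [e]
    push_cast
    refine (abs_max_sub_max_le_max _ _ _ _).trans (max_le ?_ ?_)
    · rw [← mul_sub, abs_mul, hs1, one_mul]; exact h2
    · rw [← mul_sub, abs_mul, hs1, one_mul]; exact h3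

/-- upper heights of the classes -/
def be (c : ℕ) : ℕ := 10 ^ 11 * (al c * al c)

theorem prim_be : Primrec be :=
  Primrec.nat_mul.comp (Primrec.const _) (Primrec.nat_mul.comp prim_al prim_al)

section detect

variable {M : ℝ} {z v c g t A : ℝ → ℝ}

theorem Orb.height (h : Orb M z v c g t A) {τ ρ : ℝ} (hτ : 0 ≤ τ) (he : Exc z v τ ρ) (j : ℕ)
    (h1 : (Ac j : ℝ) - 8 ≤ ρ - τ) (h2 : ρ - τ ≤ Ac j + 28) :
    ∃ w ∈ Icc τ ρ, v w = 0 ∧ (al j : ℝ) ≤ z w ∧ z w ≤ be j ∧ (∀ u ∈ Icc τ ρ, z u ≤ z w) ∧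
      ∀ u ∈ Icc τ ρ, Wd (z u) (1001 / 1000) ≤ Wd (z w) (1001 / 1000) + v u ^ 2 / 2 := by
  have a1 : (10 : ℝ) ^ 5 ≤ al j := by exact_mod_cast al_ge j
  have e1 : (Ac j : ℝ) = 10 ^ 7 * (al j * al j) := by rw [Ac]; push_cast; norm_num
  have e2 : (be j : ℝ) = 10 ^ 11 * (al j * al j) := by rw [be]; push_cast; norm_num
  have a2 : (10 : ℝ) ^ 10 ≤ al j * al j := by nlinarith
  obtain ⟨w, hw, k1, -, -, k2, k3, k4, -, k5⟩ := (h.on hτ ρ).top he (by linarith)
    fun u hu => h.vb u (hτ.trans hu.1)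
  refine ⟨w, hw, k1, ?_, by linarith [hw.2], k2, k5⟩
  rw [div_le_iff₀ (by norm_num)] at k3
  refine (pow_le_pow_iff_left₀ (by positivity) (he.nonneg w hw) two_ne_zero).1 ?_
  nlinarith

theorem top_le {x h w β : ℝ} (hβ : 10 ^ 21 ≤ β) (hx0 : 0 ≤ x) (hh : 0 ≤ h) (hx : x < 3 * β)
    (hw : |w| < 3 / β) (hW : Wd x (1001 / 1000) ≤ Wd h (1001 / 1000) + w ^ 2 / 2) : h ≤ 8 * β := by
  have hβ0 : 0 < β := by linarith
  by_contra hn
  have h1 : 1 / (4 * β) ≤ Wd x (1001 / 1000) :=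
    Wd_ge_of (by norm_num) (by positivity) (by nlinarith)
  have h2 : Wd h (1001 / 1000) ≤ 1 / (8 * β) :=
    Wd_le_of (by positivity) (by nlinarith [not_le.1 hn])
  have h3 : w ^ 2 ≤ (3 / β) ^ 2 := by
    rw [← sq_abs w]; exact pow_le_pow_left₀ (abs_nonneg w) hw.le 2
  have h4 : (3 / β) ^ 2 / 2 < 1 / (8 * β) := by
    rw [div_pow, div_div, div_lt_div_iff₀ (by positivity) (by positivity)]
    nlinarith
  have h5 : 1 / (4 * β) = 1 / (8 * β) + 1 / (8 * β) := by field_simp; ring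
  linarith

theorem class_eq {i j : ℕ} {h : ℝ} (h1 : (al i : ℝ) ≤ h) (h2 : h ≤ be i) (h3 : (al j : ℝ) / 4 < h)
    (h4 : h ≤ 8 * be j) : i = j := by
  have e : ∀ k, (al (k + 1) : ℝ) = 100 * be k := fun k => by
    rw [al_succ, be]; push_cast; ring
  have hpos : ∀ k, (0 : ℝ) < be k := fun k => by
    have := al_ge k
    have : 0 < be k := by unfold be; positivity
    exact_mod_cast this
  rcases lt_trichotomy i j with h | h | h
  · have : (al (i + 1) : ℝ) ≤ al j := by exact_mod_cast al_mono h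
    linarith [e i, hpos i]
  · exact h
  · have : (al (j + 1) : ℝ) ≤ al i := by exact_mod_cast al_mono h
    linarith [e j, hpos j]

theorem be_ge (j : ℕ) : (10 : ℝ) ^ 21 ≤ be j := by
  have : 10 ^ 21 ≤ be j := by unfold be; nlinarith [al_ge j]
  exact_mod_cast this

theorem Orb.detect (h : Orb M z v c g t A) {cs : ℕ → ℕ} {τ : ℕ → ℝ} (h0 : τ 0 = 0)
    (hτ : ∀ k, Exc (fun u => sg k * z u) (fun u => sg k * v u) (τ k) (τ (k + 1)) ∧
      (Ac (cs k) : ℝ) - 8 ≤ τ (k + 1) - τ k ∧ τ (k + 1) - τ k ≤ Ac (cs k) + 28) (j : ℕ) :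
    ((∃ k, cs k = j) → ∃ ψ, 0 ≤ ψ ∧ v ψ = 0 ∧ (al j : ℝ) ≤ |z ψ| ∧ |z ψ| ≤ be j) ∧
    (∀ ψ, 0 ≤ ψ → (al j : ℝ) / 4 < |z ψ| → |z ψ| < 3 * be j → |v ψ| < 3 / be j →
      ∃ k, cs k = j) := by
  have hge : ∀ k : ℕ, (k : ℝ) ≤ τ k := by
    intro k
    induction k with
    | zero => simp [h0]
    | succ k ih =>
      have : (10 : ℝ) ^ 17 ≤ Ac (cs k) := by exact_mod_cast Ac_ge (cs k)
      push_cast
      linarith [(hτ k).2.1]
  have hτ0 : ∀ k, 0 ≤ τ k := fun k => (Nat.cast_nonneg k).trans (hge k)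
  have habs : ∀ k x, |((sg k : ℤ) : ℝ) * x| = |x| := fun k x => by
    rcases sg_cases k with h | h <;> simp [h]
  constructor
  · rintro ⟨k, rfl⟩
    obtain ⟨w, hw, k1, k2, k3, -, -⟩ := (h.sign (sg_sq k)).height (hτ0 k) (hτ k).1 (cs k)
      (hτ k).2.1 (hτ k).2.2
    have e : |z w| = sg k * z w := by
      rw [← habs k, abs_of_nonneg ((hτ k).1.nonneg w hw)]
    refine ⟨w, (hτ0 k).trans hw.1, ?_, e ▸ k2, e ▸ k3⟩
    rw [← abs_eq_zero, ← habs k, k1, abs_zero]
  · intro ψ hψ h1 h2 h3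
    have hex : ∀ n, ψ ≤ τ n → ∃ k, ψ ∈ Icc (τ k) (τ (k + 1)) := by
      intro n
      induction n with
      | zero => exact fun hn => ⟨0, by linarith, hn.trans (hτ 0).1.lt.le⟩
      | succ n ih =>
        intro hn
        rcases le_total ψ (τ n) with h4 | h4
        · exact ih h4
        · exact ⟨n, h4, hn⟩
    obtain ⟨n, hn⟩ := exists_nat_ge ψ
    obtain ⟨k, hk⟩ := hex n (hn.trans (hge n))
    obtain ⟨w, hw, -, k2, k3, k4, k5⟩ := (h.sign (sg_sq k)).height (hτ0 k) (hτ k).1 (cs k)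
      (hτ k).2.1 (hτ k).2.2
    have e : |z ψ| = sg k * z ψ := by
      rw [← habs k, abs_of_nonneg ((hτ k).1.nonneg ψ hk)]
    refine ⟨k, class_eq k2 k3 (lt_of_lt_of_le (e ▸ h1) (k4 ψ hk)) ?_⟩
    exact top_le (be_ge j) ((hτ k).1.nonneg ψ hk) ((hτ k).1.nonneg w hw) (e ▸ h2)
      (by rw [habs]; exact h3) (k5 ψ hk)

end detect

/-- a table with one exceptional entry -/
def tab (a b : ℤ × ℕ) : Fin 3 → Fin 3 → ℤ × ℕ := fun i k => if i = 2 ∧ k = 2 then a else b

theorem prim_tab {a b : ℕ → ℤ × ℕ} (ha : Primrec a) (hb : Primrec b) :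
    Primrec fun j => tab (a j) (b j) := by
  refine prim_fin fun i => prim_fin fun k => ?_
  unfold tab
  split_ifs
  · exact ha
  · exact hb

/-- the two boxes detecting a highest point of class `j` -/
def boxes (j : ℕ) : List (QPt 3 × QPt 3) :=
  [((tab (al j, 3) (-(2 * be j : ℕ), 0), tab (-1, be j) (-(2 * be j : ℕ), 0)),
      (tab ((2 * be j : ℕ), 0) ((2 * be j : ℕ), 0), tab (1, be j) ((2 * be j : ℕ), 0))),
   ((tab (-(2 * be j : ℕ), 0) (-(2 * be j : ℕ), 0), tab (-1, be j) (-(2 * be j : ℕ), 0)),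
      (tab (-(al j : ℤ), 3) ((2 * be j : ℕ), 0), tab (1, be j) ((2 * be j : ℕ), 0)))]

theorem prim_boxes : Primrec boxes := by
  have a := primrec_int_cast.comp prim_al
  have b := primrec_int_cast.comp (Primrec.nat_mul.comp (Primrec.const 2) prim_be)
  have p1 := b.pair (Primrec.const (0 : ℕ))
  have p2 := (primrec_int_neg.comp b).pair (Primrec.const (0 : ℕ))
  have q1 := prim_tab ((Primrec.const (-1 : ℤ)).pair prim_be) p2
  have q2 := prim_tab ((Primrec.const (1 : ℤ)).pair prim_be) p1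
  exact Primrec.list_cons.comp
    (((prim_tab (a.pair (Primrec.const 3)) p2).pair q1).pair ((prim_tab p1 p1).pair q2))
    (Primrec.list_cons.comp (((prim_tab p2 p2).pair q1).pair
      ((prim_tab ((primrec_int_neg.comp a).pair (Primrec.const 3)) p1).pair q2))
      (Primrec.const []))

theorem mem_boxes {j : ℕ} {x : Conf 3 × Conf 3} (hx : x ∈ region (boxes j)) :
    (al j : ℝ) / 4 < |x.1 2 2| ∧ |x.1 2 2| < 2 * be j ∧ |x.2 2 2| < 1 / (be j + 1) := by
  have ha : (0 : ℝ) ≤ al j := Nat.cast_nonneg _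
  obtain ⟨b, hb, hx⟩ := hx
  simp only [boxes, List.mem_cons, List.not_mem_nil, or_false] at hb
  rcases hb with rfl | rfl
  · obtain ⟨⟨h1, h2⟩, h3, h4⟩ := hx 2 2
    simp only [QPt.val, tab, frac, and_self, ↓reduceIte] at h1 h2 h3 h4
    push_cast at h1 h2 h3 h4
    rw [neg_div] at h3
    rw [abs_of_pos (by linarith : 0 < x.1 2 2)]
    exact ⟨by linarith, by linarith, abs_lt.2 ⟨h3, h4⟩⟩
  · obtain ⟨⟨h1, h2⟩, h3, h4⟩ := hx 2 2
    simp only [QPt.val, tab, frac, and_self, ↓reduceIte] at h1 h2 h3 h4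
    push_cast at h1 h2 h3 h4
    rw [neg_div] at h3
    rw [abs_of_neg (by linarith : x.1 2 2 < 0)]
    exact ⟨by linarith, by linarith, abs_lt.2 ⟨h3, h4⟩⟩

theorem mem_boxes_of {j : ℕ} {x : Conf 3 × Conf 3} (h1 : ∀ i k, |x.1 i k| < 2 * be j)
    (h2 : ∀ i k, |x.2 i k| < 2 * be j) (h3 : (al j : ℝ) / 4 < |x.1 2 2|) (h4 : x.2 2 2 = 0) :
    x ∈ region (boxes j) := by
  have hb : (0 : ℝ) < 1 / (be j + 1) := by positivity
  have hv : ∀ i k, frac (tab (-1, be j) (-(2 * be j : ℕ), 0) i k) < x.2 i k ∧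
      x.2 i k < frac (tab (1, be j) ((2 * be j : ℕ), 0) i k) := by
    intro i k
    have := abs_lt.1 (h2 i k)
    unfold tab frac
    split_ifs with h
    · rw [h.1, h.2, h4]
      push_cast
      rw [neg_div]
      constructor <;> linarith
    · push_cast
      constructor <;> linarith
  rcases lt_abs.1 h3 with h5 | h5
  · refine ⟨_, List.mem_cons_self, fun i k => ⟨?_, hv i k⟩⟩
    have := abs_lt.1 (h1 i k)
    simp only [QPt.val, tab, frac]
    split_ifs with h
    · rw [h.1, h.2] at this ⊢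
      push_cast
      constructor <;> linarith
    · push_cast
      constructor <;> linarith
  · refine ⟨_, List.mem_cons_of_mem _ List.mem_cons_self, fun i k => ⟨?_, hv i k⟩⟩
    have := abs_lt.1 (h1 i k)
    simp only [QPt.val, tab, frac]
    split_ifs with h
    · rw [h.1, h.2] at this ⊢
      push_cast
      constructor <;> linarith
    · push_cast
      constructor <;> linarith

/-- the rational starting point -/
def start : QPt 3 :=
  (![![(1, 0), (0, 0), (0, 0)], ![(-1, 0), (0, 0), (0, 0)], ![(0, 0), (0, 0), (0, 0)]],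
   ![![(0, 0), (1, 999), (-1, 10 ^ 12)], ![(0, 0), (-1, 999), (-1, 10 ^ 12)],
     ![(0, 0), (0, 0), (10 ^ 12, 10 ^ 12)]])

theorem start_val {s : ℝ} (hs : 0 < s) : iso mu s (s / 1000) 1 0 0 s 0 = start.val := by
  have h : s ≠ 0 := hs.ne'
  refine Prod.ext ?_ ?_ <;> funext i k <;> fin_cases i <;> fin_cases k <;>
    simp [iso, start, QPt.val, frac, mu] <;> field_simp <;> norm_num

theorem start_nocoll : NoColl start.val.1 := by
  intro i j hij h
  have := congrFun h 0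
  fin_cases i <;> fin_cases j <;> simp [start, QPt.val, frac] at hij this <;> linarith

theorem compReal_inv_sq {s : ℝ} (hs : 1 ≤ s) {a D : ℕ → ℕ} (ha : Computable a) (hD : Computable D)
    (h : ∀ k, 1 ≤ D k ∧ 1 ≤ (a k : ℝ) / D k ∧ |s - a k / D k| ≤ 1 / 2 ^ k) (L : ℕ) (hL : 2 ≤ L) :
    CompReal (1 / (L * s ^ 2)) := by
  refine ⟨fun k => (((D k * D k : ℕ) : ℤ), L * (a k * a k) - 1), ?_, fun k => ?_⟩
  · have mul := Primrec.nat_mul.to_comp
    exact (primrec_int_cast.to_comp.comp (mul.comp hD hD)).pair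
      (Primrec.nat_sub.to_comp.comp (mul.comp (Computable.const L) (mul.comp ha ha))
        (Computable.const 1))
  · obtain ⟨h1, h2, h3⟩ := h k
    have hD0 : (0 : ℝ) < D k := by exact_mod_cast h1
    have ha1 : 1 ≤ a k := by
      have : (D k : ℝ) ≤ a k := by rwa [le_div_iff₀ hD0, one_mul] at h2
      exact h1.trans (by exact_mod_cast this)
    have ha0 : (0 : ℝ) < a k := by exact_mod_cast ha1
    have hL' : (2 : ℝ) ≤ L := by exact_mod_cast hL
    have h4 : 1 ≤ L * (a k * a k) := Nat.mul_pos (by omega) (Nat.mul_pos ha1 ha1)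
    set x : ℝ := a k / D k with hx
    have e : frac (((D k * D k : ℕ) : ℤ), L * (a k * a k) - 1) = 1 / (L * x ^ 2) := by
      unfold frac
      rw [Nat.cast_sub h4, hx]
      push_cast
      field_simp
      ring
    have e2 : 1 / (L * s ^ 2) - 1 / (L * x ^ 2) = (x - s) * ((x + s) / (L * s ^ 2 * x ^ 2)) := by
      field_simp
      ring
    have h5 : (x + s) / (L * s ^ 2 * x ^ 2) ≤ 1 := by
      rw [div_le_one (by positivity)]
      have b1 : x ≤ s ^ 2 * x ^ 2 := by nlinarith [one_le_pow₀ hs (n := 2), mul_self_nonneg x]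
      have b2 : s ≤ s ^ 2 * x ^ 2 := by nlinarith [one_le_pow₀ h2 (n := 2), mul_self_nonneg s]
      nlinarith
    rw [e, e2, abs_mul, abs_sub_comm, abs_of_nonneg (by positivity : 0 ≤ (x + s) / (L * s ^ 2 * x ^ 2))]
    nlinarith [abs_nonneg (s - x)]

theorem core {c : ℕ → ℕ} (hc : Primrec c) : ∃ m : Fin 3 → ℝ, (∀ i, 0 < m i ∧ CompReal (m i)) ∧
    ∀ j, (∃ k, c k = j) ↔ Meets m start.val (region (boxes j)) := by
  obtain ⟨Y, hsol, hfam, K, mx, hapx⟩ := exists_family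
  obtain ⟨s, hs, ⟨a, D, ha, hD, happ⟩, τ, h0, hτ⟩ := hfam.shoot hapx hc
  have hS := hsol s hs
  have hO := hS.orb
  have hs0 : 0 < s := by linarith [hs.1]
  have hμ := mu_pos
  obtain ⟨ϑ, hϑ⟩ := real_orbit mu s (s / 1000) (1 / 10 ^ 6) hμ hs0 (by norm_num) (rr (Y s))
    (pp (Y s)) (fun u => Y s u 2) (fun u => Y s u 3) (fun u => gh (Y s u)) hS.contg
    (by have := hS.cont 0; unfold rr; fun_prop)
    (fun u hu => (hO.mot u).g1 u ⟨hu, le_rfl⟩)
    (fun u hu => lt_of_lt_of_le (by norm_num) (hS.rr_bd hu).1) (fun u hu => hS.dr' hu)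
    (fun u hu => hS.dp hu) (fun u hu => (hO.mot u).hz u ⟨hu, le_rfl⟩)
    (fun u hu => (hO.mot u).hv u ⟨hu, le_rfl⟩)
  have e0 : iso mu s (s / 1000) (rr (Y s) 0) (pp (Y s) 0) (Y s 0 2) (Y s 0 3) 0 = start.val := by
    rw [← start_val hs0]
    simp only [rr, pp, hS.h0]
    congr 1 <;> simp
  refine ⟨![1 / (2 * s ^ 2), 1 / (2 * s ^ 2), mu / s ^ 2], fun i => ?_, fun j => ?_⟩
  · have c1 := compReal_inv_sq hs.1 ha hD happ 2 le_rfl
    have c2 := compReal_inv_sq hs.1 ha hD happ (10 ^ 12) (by norm_num)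
    have e : mu / s ^ 2 = 1 / (((10 ^ 12 : ℕ) : ℝ) * s ^ 2) := by
      unfold mu; push_cast; field_simp; norm_num
    fin_cases i
    · exact ⟨by simp only [Fin.zero_eta, Matrix.cons_val_zero]; positivity, c1⟩
    · exact ⟨by simp only [Fin.mk_one, Matrix.cons_val_one, Matrix.cons_val_zero]; positivity, c1⟩
    · refine ⟨by change 0 < mu / s ^ 2; positivity, ?_⟩
      change CompReal (mu / s ^ 2)
      rw [e]; exact c2
  · rw [← e0, hϑ]
    obtain ⟨d1, d2⟩ := hO.detect h0 hτ j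
    have hβ := be_ge j
    have hM1 : 1 ≤ 1 + mu := by linarith
    have hM2 : 1 + mu ≤ 10001 / 10000 := by unfold mu; norm_num
    have hα : (0 : ℝ) < al j := by
      have := al_ge j
      exact_mod_cast lt_of_lt_of_le (by norm_num) this
    constructor
    · intro hk
      obtain ⟨ψ, hψ, k1, k2, k3⟩ := d1 hk
      obtain ⟨r1, r2⟩ := hS.rr_bd hψ
      have r0 : 0 < rr (Y s) ψ := by linarith
      have p1 := hS.pp_bd hψ
      have c1 := abs_cos_le_one (ϑ ψ)
      have c2 := abs_sin_le_one (ϑ ψ)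
      have b1 : ∀ w, |w| ≤ 1 → |rr (Y s) ψ * w| < 2 * be j := fun w hw => by
        rw [abs_mul, abs_of_pos r0]; nlinarith
      have b2 : |mu / (1 + mu) * Y s ψ 2| < 2 * be j := by
        have : mu / (1 + mu) ≤ 1 := by rw [div_le_one (by linarith)]; linarith
        rw [abs_mul, abs_of_pos (by positivity : 0 < mu / (1 + mu))]
        nlinarith [abs_nonneg (Y s ψ 2)]
      have b3 : |Y s ψ 2 / (1 + mu)| = |Y s ψ 2| / (1 + mu) := by
        rw [abs_div, abs_of_pos (by linarith : 0 < 1 + mu)]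
      have b4 : ∀ w w', |w| ≤ 1 → |w'| ≤ 1 →
          |(pp (Y s) ψ * w + s / 1000 / rr (Y s) ψ * w') / s| < 2 * be j := fun w w' hw hw' => by
        have q1 : s / 1000 / rr (Y s) ψ ≤ 10 ^ 4 := by
          rw [div_le_iff₀ r0]; linarith [hs.2]
        have q2 : |pp (Y s) ψ * w| ≤ 10 ^ 6 * 1 := by rw [abs_mul]; gcongr
        have q3 : |s / 1000 / rr (Y s) ψ * w'| ≤ 10 ^ 4 * 1 := by
          rw [abs_mul, abs_of_pos (by positivity)]; gcongr
        have q4 := abs_add_le (pp (Y s) ψ * w) (s / 1000 / rr (Y s) ψ * w')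
        rw [abs_div, abs_of_pos hs0, div_lt_iff₀ hs0]
        nlinarith [hs.1]
      have b5 := b4 (cos (ϑ ψ)) (-sin (ϑ ψ)) c1 (by rwa [abs_neg])
      have b6 := b4 (sin (ϑ ψ)) (cos (ϑ ψ)) c2 c1
      rw [mul_neg, ← sub_eq_add_neg] at b5
      have b7 : |Y s ψ 2| / (1 + mu) ≤ |Y s ψ 2| := div_le_self (abs_nonneg _) hM1
      have b0 : (0 : ℝ) < 2 * be j := by linarith
      refine ⟨ψ, hψ, mem_boxes_of (fun i k => ?_) (fun i k => ?_) ?_ ?_⟩
      · fin_cases i <;> fin_cases k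
        · exact b1 _ c1
        · exact b1 _ c2
        · simpa [iso] using b2
        · simpa [iso] using b1 _ c1
        · simpa [iso] using b1 _ c2
        · simpa [iso] using b2
        · simpa [iso] using b0
        · simpa [iso] using b0
        · change |Y s ψ 2 / (1 + mu)| < _
          rw [b3]; linarith
      · fin_cases i <;> fin_cases k
        · exact b5
        · exact b6
        · simpa [iso, k1] using b0
        · change |-_| < _
          rw [abs_neg]; exact b5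
        · change |-_| < _
          rw [abs_neg]; exact b6
        · simpa [iso, k1] using b0
        · simpa [iso] using b0
        · simpa [iso] using b0
        · simpa [iso, k1] using b0
      · change _ < |Y s ψ 2 / (1 + mu)|
        rw [b3, lt_div_iff₀ (by linarith)]
        nlinarith
      · change Y s ψ 3 / (1 + mu) / s = 0
        rw [k1]; simp
    · rintro ⟨ψ, hψ, hx⟩
      obtain ⟨k1, k2, k3⟩ := mem_boxes hx
      change _ < |Y s ψ 2 / (1 + mu)| at k1
      change |Y s ψ 2 / (1 + mu)| < _ at k2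
      change |Y s ψ 3 / (1 + mu) / s| < _ at k3
      rw [abs_div, abs_of_pos (by linarith : 0 < 1 + mu)] at k1 k2
      rw [abs_div, abs_div, abs_of_pos (by linarith : 0 < 1 + mu), abs_of_pos hs0, div_div,
        div_lt_div_iff₀ (by positivity) (by positivity)] at k3
      rw [div_lt_iff₀ (by linarith)] at k2
      refine d2 ψ hψ (k1.trans_le (div_le_self (abs_nonneg _) hM1)) (by nlinarith) ?_
      rw [lt_div_iff₀ (by linarith)]
      nlinarith [abs_nonneg (Y s ψ 3), hs.2]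

end Pool.Agent.P.MP_9ae58c_an
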