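import Mathlib

/-!
Definitions used in the statement for MP_9ae58c_an: Turing machines on a two-sided tape,
universality, the Newtonian `n`-body problem, rational points and rational boxes of phase space,
computable reals, Turing completeness.
-/

namespace Pool.Agent.P.MP_9ae58c_an

/-- A Turing machine: states `Fin nQ`, alphabet `Fin (nS + 1)` with blank `0`, distinct initial
and halting states, and a transition map whose last component `e : Fin 3` stands for the shift
`e - 1 ∈ {-1, 0, 1}`. -/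
structure TM : Type where
  nQ : ℕ
  nS : ℕ
  q0 : Fin nQ
  qh : Fin nQ
  ne : q0 ≠ qh
  δ : Fin nQ → Fin (nS + 1) → Fin nQ × Fin (nS + 1) × Fin 3

/-- One step: in the halting state nothing happens; otherwise, with `δ q (t 0) = (q', a, e)`,
write `a` at position `0`, shift the tape by `e - 1` and enter state `q'`. -/
def TM.step (T : TM) (c : Fin T.nQ × (ℤ → Fin (T.nS + 1))) : Fin T.nQ × (ℤ → Fin (T.nS + 1)) :=
  if c.1 = T.qh then c
  else ((T.δ c.1 (c.2 0)).1,
    fun n => Function.update c.2 0 (T.δ c.1 (c.2 0)).2.1 (n + (((T.δ c.1 (c.2 0)).2.2 : ℕ) : ℤ) - 1))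

/-- Finite description of a tape with finitely many non-blank entries: the entries at positions
`-1, -2, …` and the entries at positions `0, 1, …`. -/
abbrev TM.Inp (T : TM) : Type := List (Fin (T.nS + 1)) × List (Fin (T.nS + 1))

/-- The tape described by `d` (blank outside the two lists). -/
def TM.tape (T : TM) (d : T.Inp) : ℤ → Fin (T.nS + 1)
  | Int.ofNat n => d.2.getD n 0
  | Int.negSucc n => d.1.getD n 0

/-- `T` halts on the input `(q0, tape d)`. -/
def TM.Halts (T : TM) (d : T.Inp) : Prop :=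
  ∃ k : ℕ, (T.step^[k] (T.q0, T.tape d)).1 = T.qh

/-- The table of a machine as finite data. -/
def TM.code (T : TM) : ℕ × ℕ × ℕ × ℕ × List (List (ℕ × ℕ × ℕ)) :=
  (T.nQ, T.nS, T.q0.val, T.qh.val, List.ofFn fun q => List.ofFn fun a =>
    ((T.δ q a).1.val, (T.δ q a).2.1.val, (T.δ q a).2.2.val))

/-- An input as a pair of lists of numbers. -/
def TM.inpCode (T : TM) (d : T.Inp) : List ℕ × List ℕ := (d.1.map Fin.val, d.2.map Fin.val)

/-- `U` is universal: from a machine `T` and an input `d` one computes an input of `U` on which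
`U` halts if and only if `T` halts on `d`. -/
def TM.Universal (U : TM) : Prop :=
  ∃ f : (ℕ × ℕ × ℕ × ℕ × List (List (ℕ × ℕ × ℕ))) × (List ℕ × List ℕ) → U.Inp, Computable f ∧
    ∀ (T : TM) (d : T.Inp), T.Halts d ↔ U.Halts (f (T.code, T.inpCode d))

/-- Positions (or velocities) of `n` bodies in `ℝ³`. -/
abbrev Conf (n : ℕ) : Type := Fin n → Fin 3 → ℝ

/-- Euclidean distance in `ℝ³`. -/
noncomputable def dist3 (a b : Fin 3 → ℝ) : ℝ := √(∑ k, (a k - b k) ^ 2)

/-- No two bodies are at the same place. -/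
def NoColl {n : ℕ} (q : Conf n) : Prop := ∀ i j, i ≠ j → q i ≠ q j

/-- Coordinate `k` of the Newtonian acceleration of body `i`. -/
noncomputable def acc {n : ℕ} (m : Fin n → ℝ) (q : Conf n) (i : Fin n) (k : Fin 3) : ℝ :=
  ∑ j ∈ Finset.univ.erase i, m j * (q j k - q i k) / dist3 (q j) (q i) ^ 3

/-- `(q, v)` is a collision-free solution of the `n`-body equations on `[0, T]`. -/
def IsSol {n : ℕ} (m : Fin n → ℝ) (T : ℝ) (q v : ℝ → Conf n) : Prop :=
  ∀ t ∈ Set.Icc 0 T, NoColl (q t) ∧ ∀ i k,
    HasDerivWithinAt (fun u => q u i k) (v t i k) (Set.Icc 0 T) t ∧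
    HasDerivWithinAt (fun u => v u i k) (acc m (q t) i k) (Set.Icc 0 T) t

/-- The positive trajectory through `p` meets `U`. -/
def Meets {n : ℕ} (m : Fin n → ℝ) (p : Conf n × Conf n) (U : Set (Conf n × Conf n)) : Prop :=
  ∃ T : ℝ, 0 ≤ T ∧ ∃ q v : ℝ → Conf n, IsSol m T q v ∧ (q 0, v 0) = p ∧ (q T, v T) ∈ U

/-- The rational number `a / (b + 1)`. -/
noncomputable def frac (a : ℤ × ℕ) : ℝ := (a.1 : ℝ) / ((a.2 : ℝ) + 1)

/-- Points of phase space with rational coordinates, as finite data. -/
abbrev QPt (n : ℕ) : Type := (Fin n → Fin 3 → ℤ × ℕ) × (Fin n → Fin 3 → ℤ × ℕ)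

/-- The point of phase space described by `p`. -/
noncomputable def QPt.val {n : ℕ} (p : QPt n) : Conf n × Conf n :=
  (fun i k => frac (p.1 i k), fun i k => frac (p.2 i k))

/-- The open box with rational corners `b.1` and `b.2`. -/
def box {n : ℕ} (b : QPt n × QPt n) : Set (Conf n × Conf n) :=
  {x | ∀ i k, (b.1.val.1 i k < x.1 i k ∧ x.1 i k < b.2.val.1 i k) ∧
    (b.1.val.2 i k < x.2 i k ∧ x.2 i k < b.2.val.2 i k)}

/-- The union of a finite list of rational open boxes. -/
def region {n : ℕ} (B : List (QPt n × QPt n)) : Set (Conf n × Conf n) := {x | ∃ b ∈ B, x ∈ box b}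

/-- Computable real numbers. -/
def CompReal (x : ℝ) : Prop :=
  ∃ a : ℕ → ℤ × ℕ, Computable a ∧ ∀ n : ℕ, |x - frac (a n)| ≤ 1 / 2 ^ n

/-- Turing completeness of the `n`-body flow with masses `m`, with rational starting points and
finite unions of rational open boxes, both computed from the input. -/
def TuringComplete {n : ℕ} (m : Fin n → ℝ) : Prop :=
  ∃ U : TM, U.Universal ∧ ∃ (p : U.Inp → QPt n) (B : U.Inp → List (QPt n × QPt n)),
    Computable p ∧ Computable B ∧
    (∀ d d', U.tape d = U.tape d' → p d = p d' ∧ B d = B d') ∧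
    ∀ d, NoColl (p d).val.1 ∧ (U.Halts d ↔ Meets m (p d).val (region (B d)))

end Pool.Agent.P.MP_9ae58c_an
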