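import Pool.Agent.P.MP_9ae58c_an.Basic

/-! Integer arithmetic is primitive recursive; closure properties of `Good`. -/

namespace Pool.Agent.P.MP_9ae58c_an

theorem encode_ofNat (n : ℕ) : Encodable.encode (Int.ofNat n) = 2 * n := by
  change Equiv.natSumNatEquivNat (Sum.inl n) = _
  simp

theorem encode_negSucc (n : ℕ) : Encodable.encode (Int.negSucc n) = 2 * n + 1 := by
  change Equiv.intEquivNat _ = _
  simp [Equiv.intEquivNat, Equiv.intEquivNatSumNat]

theorem primrec_int_toNat : Primrec (fun a : ℤ => a.toNat) := by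
  have h : Primrec (fun n : ℕ => if n % 2 = 0 then n / 2 else 0) :=
    Primrec.ite (Primrec.eq.comp (Primrec.nat_mod.comp Primrec.id (Primrec.const 2))
      (Primrec.const 0)) (Primrec.nat_div.comp Primrec.id (Primrec.const 2)) (Primrec.const 0)
  refine (h.comp Primrec.encode).of_eq fun k => ?_
  rcases k with n | n
  · rw [encode_ofNat, if_pos (by omega)]
    simp
  · rw [encode_negSucc, if_neg (by omega)]
    simp

theorem primrec_int_negToNat : Primrec (fun a : ℤ => (-a).toNat) := by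
  have h : Primrec (fun n : ℕ => if n % 2 = 0 then 0 else n / 2 + 1) :=
    Primrec.ite (Primrec.eq.comp (Primrec.nat_mod.comp Primrec.id (Primrec.const 2))
      (Primrec.const 0)) (Primrec.const 0)
      (Primrec.succ.comp (Primrec.nat_div.comp Primrec.id (Primrec.const 2)))
  refine (h.comp Primrec.encode).of_eq fun k => ?_
  rcases k with n | n
  · rw [encode_ofNat, if_pos (by omega)]
    simp
  · rw [encode_negSucc, if_neg (by omega)]
    have : -Int.negSucc n = ((n + 1 : ℕ) : ℤ) := rfl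
    rw [this, Int.toNat_natCast]
    omega

theorem primrec_int_subNat : Primrec₂ (fun a b : ℕ => (a : ℤ) - b) := by
  have h : Primrec (fun p : ℕ × ℕ => if p.2 ≤ p.1 then 2 * (p.1 - p.2) else 2 * (p.2 - p.1) - 1) :=
    Primrec.ite (Primrec.nat_le.comp Primrec.snd Primrec.fst)
      (Primrec.nat_mul.comp (Primrec.const 2) (Primrec.nat_sub.comp Primrec.fst Primrec.snd))
      (Primrec.nat_sub.comp (Primrec.nat_mul.comp (Primrec.const 2)
        (Primrec.nat_sub.comp Primrec.snd Primrec.fst)) (Primrec.const 1))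
  refine Primrec.encode_iff.1 (h.of_eq fun p => ?_)
  obtain ⟨a, b⟩ := p
  simp only
  split_ifs with hab
  · have : (a : ℤ) - b = Int.ofNat (a - b) := by
      simp only [Int.ofNat_eq_natCast]; omega
    rw [this, encode_ofNat]
  · have : (a : ℤ) - b = Int.negSucc (b - a - 1) := by
      rw [Int.negSucc_eq]; omega
    rw [this, encode_negSucc]; omega

theorem primrec_int_cast : Primrec (fun a : ℕ => (a : ℤ)) :=
  (primrec_int_subNat.comp Primrec.id (Primrec.const 0)).of_eq fun a => by simp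

theorem primrec_int_neg : Primrec (fun a : ℤ => -a) :=
  (primrec_int_subNat.comp primrec_int_negToNat primrec_int_toNat).of_eq fun a => by omega

theorem primrec_int_add : Primrec₂ (fun a b : ℤ => a + b) :=
  (primrec_int_subNat.comp
    (Primrec.nat_add.comp (primrec_int_toNat.comp Primrec.fst) (primrec_int_toNat.comp Primrec.snd))
    (Primrec.nat_add.comp (primrec_int_negToNat.comp Primrec.fst)
      (primrec_int_negToNat.comp Primrec.snd))).of_eq fun p => by
    push_cast; omega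

theorem primrec_int_sub : Primrec₂ (fun a b : ℤ => a - b) :=
  (primrec_int_add.comp Primrec.fst (primrec_int_neg.comp Primrec.snd)).of_eq fun p => by
    simp only [sub_eq_add_neg]

theorem primrec_int_mul : Primrec₂ (fun a b : ℤ => a * b) :=
  (primrec_int_subNat.comp
    (Primrec.nat_add.comp
      (Primrec.nat_mul.comp (primrec_int_toNat.comp Primrec.fst)
        (primrec_int_toNat.comp Primrec.snd))
      (Primrec.nat_mul.comp (primrec_int_negToNat.comp Primrec.fst)
        (primrec_int_negToNat.comp Primrec.snd)))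
    (Primrec.nat_add.comp
      (Primrec.nat_mul.comp (primrec_int_toNat.comp Primrec.fst)
        (primrec_int_negToNat.comp Primrec.snd))
      (Primrec.nat_mul.comp (primrec_int_negToNat.comp Primrec.fst)
        (primrec_int_toNat.comp Primrec.snd)))).of_eq fun p => by
    have h1 := Int.toNat_sub_toNat_neg p.1
    have h2 := Int.toNat_sub_toNat_neg p.2
    push_cast
    conv_rhs => rw [← h1, ← h2]
    ring

theorem primrec_int_le : PrimrecRel (fun a b : ℤ => a ≤ b) :=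
  (Primrec.eq.comp (primrec_int_toNat.comp (primrec_int_sub.comp Primrec.fst Primrec.snd))
    (Primrec.const 0)).of_eq fun p => by omega

theorem primrec_int_lt : PrimrecRel (fun a b : ℤ => a < b) :=
  (primrec_int_le.comp (primrec_int_add.comp Primrec.fst (Primrec.const 1)) Primrec.snd).of_eq
    fun p => by omega

theorem primrec_int_max : Primrec₂ (fun a b : ℤ => max a b) :=
  (Primrec.ite (primrec_int_le.comp Primrec.fst Primrec.snd) Primrec.snd Primrec.fst).of_eq
    fun p => (max_def p.1 p.2).symm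

theorem primrec_int_min : Primrec₂ (fun a b : ℤ => min a b) :=
  (Primrec.ite (primrec_int_le.comp Primrec.fst Primrec.snd) Primrec.fst Primrec.snd).of_eq
    fun p => (min_def p.1 p.2).symm

/-- division of an integer by a natural number, rounded toward zero -/
def dv (z : ℤ) (N : ℕ) : ℤ := ((z.toNat / N : ℕ) : ℤ) - (((-z).toNat / N : ℕ) : ℤ)

theorem primrec_dv : Primrec₂ dv :=
  primrec_int_subNat.comp
    (Primrec.nat_div.comp (primrec_int_toNat.comp Primrec.fst) Primrec.snd)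
    (Primrec.nat_div.comp (primrec_int_negToNat.comp Primrec.fst) Primrec.snd)

theorem nat_div_err (m N : ℕ) (hN : 1 ≤ N) :
    ((m / N : ℕ) : ℝ) ≤ (m : ℝ) / N ∧ (m : ℝ) / N ≤ (m / N : ℕ) + 1 := by
  refine ⟨Nat.cast_div_le, ?_⟩
  have h : (0 : ℝ) < N := by exact_mod_cast hN
  rw [div_le_iff₀ h]
  have := Nat.lt_div_mul_add (a := m) (b := N) hN
  have h2 : (m : ℝ) < (m / N : ℕ) * N + N := by exact_mod_cast this
  linarith

theorem dv_err (z : ℤ) (N : ℕ) (hN : 1 ≤ N) : |(dv z N : ℝ) - (z : ℝ) / N| ≤ 1 := by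
  unfold dv
  rcases le_total 0 z with h | h
  · obtain ⟨m, rfl⟩ := Int.eq_ofNat_of_zero_le h
    have h1 : (-(m : ℤ)).toNat = 0 := by omega
    obtain ⟨h2, h3⟩ := nat_div_err m N hN
    rw [h1, Int.toNat_natCast, Nat.zero_div, Int.cast_sub, Int.cast_natCast, Int.cast_natCast,
      Int.cast_natCast, Nat.cast_zero, abs_le]
    constructor <;> linarith
  · obtain ⟨m, hm⟩ := Int.eq_ofNat_of_zero_le (neg_nonneg.2 h)
    obtain rfl : z = -(m : ℤ) := by omega
    have h1 : (-(m : ℤ)).toNat = 0 := by omega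
    obtain ⟨h2, h3⟩ := nat_div_err m N hN
    rw [h1, neg_neg, Int.toNat_natCast, Nat.zero_div, Int.cast_sub, Int.cast_natCast,
      Int.cast_natCast, Int.cast_neg, Int.cast_natCast, Nat.cast_zero, neg_div, abs_le]
    constructor <;> linarith

theorem Good.intro' {d : ℕ} {g : (Fin d → ℝ) → ℝ} (K₁ K₂ K₃ : ℝ) (h₁ : ∀ x, |g x| ≤ K₁)
    (h₂ : ∀ x y, |g x - g y| ≤ K₂ * dist x y) (f : ℕ × (Fin d → ℤ) → ℤ) (hf : Primrec f)
    (h₃ : ∀ (N : ℕ) (y : Fin d → ℤ), 1 ≤ N →
      |(f (N, y) : ℝ) - N * g (fun i => (y i : ℝ) / N)| ≤ K₃) : Good g := by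
  have h := Nat.le_ceil (max K₁ (max K₂ K₃))
  have e1 := (le_max_left _ _).trans h
  have e2 := (le_max_left _ _).trans ((le_max_right _ _).trans h)
  have e3 := (le_max_right _ _).trans ((le_max_right _ _).trans h)
  exact ⟨_, fun x => (h₁ x).trans e1,
    fun x y => (h₂ x y).trans (mul_le_mul_of_nonneg_right e2 dist_nonneg), f, hf,
    fun N y hN => (h₃ N y hN).trans e3⟩

theorem primrec_coord {d : ℕ} (i : Fin d) : Primrec (fun p : ℕ × (Fin d → ℤ) => p.2 i) :=
  Primrec.fin_app.comp Primrec.snd (Primrec.const i)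

theorem abs_coord_le {d : ℕ} (i : Fin d) (x y : Fin d → ℝ) : |x i - y i| ≤ dist x y := by
  rw [← Real.dist_eq]
  exact dist_le_pi_dist x y i

theorem Good.const {d : ℕ} (a b : ℕ) : Good (d := d) (fun _ => (a : ℝ) / b) := by
  refine Good.intro' |(a : ℝ) / b| 0 1 (fun _ => le_rfl) (fun x y => by simp)
    (fun p => dv ((p.1 * a : ℕ) : ℤ) b)
    (primrec_dv.comp (primrec_int_cast.comp (Primrec.nat_mul.comp Primrec.fst (Primrec.const a)))
      (Primrec.const b)) fun N y _ => ?_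
  rcases Nat.eq_zero_or_pos b with rfl | hb
  · simp [dv]
  · have := dv_err ((N * a : ℕ) : ℤ) b hb
    rwa [Int.cast_natCast, Nat.cast_mul (α := ℝ), mul_div_assoc] at this

theorem Good.coord {d : ℕ} (i : Fin d) (R : ℕ) :
    Good (fun x : Fin d → ℝ => max (-(R : ℝ)) (min (R : ℝ) (x i))) := by
  have hR : (0 : ℝ) ≤ R := Nat.cast_nonneg R
  have hp : Primrec (fun p : ℕ × (Fin d → ℤ) => ((p.1 * R : ℕ) : ℤ)) :=
    primrec_int_cast.comp (Primrec.nat_mul.comp Primrec.fst (Primrec.const R))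
  refine Good.intro' R 1 0 (fun x => ?_) (fun x y => ?_)
    (fun p => max (-((p.1 * R : ℕ) : ℤ)) (min ((p.1 * R : ℕ) : ℤ) (p.2 i)))
    (primrec_int_max.comp (primrec_int_neg.comp hp) (primrec_int_min.comp hp (primrec_coord i)))
    fun N y hN => ?_
  · rw [abs_le]
    exact ⟨le_max_left _ _, max_le (by linarith) (min_le_left _ _)⟩
  · refine (abs_max_sub_max_le_max _ _ _ _).trans (max_le (by simp) ?_)
    refine (abs_min_sub_min_le_max _ _ _ _).trans (max_le (by simp) ?_)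
    rw [one_mul]
    exact abs_coord_le i x y
  · have h : (0 : ℝ) < N := by exact_mod_cast hN
    rw [mul_max_of_nonneg _ _ h.le, mul_min_of_nonneg _ _ h.le, mul_div_cancel₀ _ h.ne']
    push_cast
    simp

theorem Good.neg {d : ℕ} {g : (Fin d → ℝ) → ℝ} (hg : Good g) : Good (fun x => -g x) := by
  obtain ⟨K, h1, h2, f, hf, h3⟩ := hg
  refine Good.intro' K K K (fun x => by rw [abs_neg]; exact h1 x) (fun x y => ?_)
    (fun p => -f p) (primrec_int_neg.comp hf) fun N y hN => ?_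
  · rw [neg_sub_neg, abs_sub_comm]; exact h2 x y
  · rw [Int.cast_neg, mul_neg, neg_sub_neg, abs_sub_comm]; exact h3 N y hN

theorem Good.add {d : ℕ} {g h : (Fin d → ℝ) → ℝ} (hg : Good g) (hh : Good h) :
    Good (fun x => g x + h x) := by
  obtain ⟨K, h1, h2, f, hf, h3⟩ := hg
  obtain ⟨K', h1', h2', f', hf', h3'⟩ := hh
  refine Good.intro' (K + K') (K + K') (K + K')
    (fun x => (abs_add_le _ _).trans (add_le_add (h1 x) (h1' x))) (fun x y => ?_)
    (fun p => f p + f' p) (primrec_int_add.comp hf hf') fun N y hN => ?_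
  · rw [add_sub_add_comm, add_mul]
    exact (abs_add_le _ _).trans (add_le_add (h2 x y) (h2' x y))
  · rw [Int.cast_add, mul_add, add_sub_add_comm]
    exact (abs_add_le _ _).trans (add_le_add (h3 N y hN) (h3' N y hN))

theorem abs_mul_sub_mul_le (a b c e : ℝ) : |a * b - c * e| ≤ |a - c| * |b| + |c| * |b - e| := by
  rw [← abs_mul, ← abs_mul]
  refine le_trans (le_of_eq ?_) (abs_add_le _ _)
  congr 1; ring

theorem Good.mul {d : ℕ} {g h : (Fin d → ℝ) → ℝ} (hg : Good g) (hh : Good h) :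
    Good (fun x => g x * h x) := by
  obtain ⟨K, h1, h2, f, hf, h3⟩ := hg
  obtain ⟨K', h1', h2', f', hf', h3'⟩ := hh
  have hK : (0 : ℝ) ≤ K := Nat.cast_nonneg K
  have hK' : (0 : ℝ) ≤ K' := Nat.cast_nonneg K'
  refine Good.intro' (K * K') (2 * (K * K')) (1 + 3 * (K * K')) (fun x => ?_) (fun x y => ?_)
    (fun p => dv (f p * f' p) p.1) (primrec_dv.comp (primrec_int_mul.comp hf hf') Primrec.fst)
    fun N y hN => ?_
  · rw [abs_mul]
    exact mul_le_mul (h1 x) (h1' x) (abs_nonneg _) hK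
  · refine (abs_mul_sub_mul_le _ _ _ _).trans ?_
    have e1 := mul_le_mul (h2 x y) (h1' x) (abs_nonneg _) (mul_nonneg hK dist_nonneg)
    have e2 := mul_le_mul (h1 y) (h2' x y) (abs_nonneg _) hK
    linarith
  · have hN' : (1 : ℝ) ≤ N := by exact_mod_cast hN
    have h0 : (0 : ℝ) < N := by linarith
    have e0 := dv_err (f (N, y) * f' (N, y)) N hN
    have e1 := h3 N y hN
    have e2 := h3' N y hN
    have e3 := h1 (fun i => (y i : ℝ) / N)
    have e4 := h1' (fun i => (y i : ℝ) / N)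
    simp only
    generalize g (fun i => (y i : ℝ) / N) = u at *
    generalize h (fun i => (y i : ℝ) / N) = w at *
    rw [Int.cast_mul] at e0
    generalize (f (N, y) : ℝ) = a at *
    generalize (f' (N, y) : ℝ) = b at *
    have e5 : |a * b / N - N * (u * w)| ≤ 3 * (K * K') := by
      have e6 : a * b / N - N * (u * w) = (a * b - N * u * (N * w)) / N := by
        field_simp
      rw [e6, abs_div, abs_of_pos h0, div_le_iff₀ h0]
      refine (abs_mul_sub_mul_le _ _ _ _).trans ?_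
      have e7 : |b| ≤ 2 * N * K' := by
        have : |b| ≤ |b - N * w| + |N * w| := by
          refine le_trans (le_of_eq ?_) (abs_add_le _ _)
          congr 1; ring
        rw [abs_mul, abs_of_pos h0] at this
        nlinarith
      have e8 : |N * u| ≤ N * K := by
        rw [abs_mul, abs_of_pos h0]
        exact mul_le_mul_of_nonneg_left e3 h0.le
      have e9 := mul_le_mul e1 e7 (abs_nonneg _) hK
      have e10 := mul_le_mul e8 e2 (abs_nonneg _) (mul_nonneg h0.le hK)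
      linarith
    exact (abs_sub_le _ _ _).trans (add_le_add e0 e5)

theorem Good.max {d : ℕ} {g h : (Fin d → ℝ) → ℝ} (hg : Good g) (hh : Good h) :
    Good (fun x => max (g x) (h x)) := by
  obtain ⟨K, h1, h2, f, hf, h3⟩ := hg
  obtain ⟨K', h1', h2', f', hf', h3'⟩ := hh
  have hK : (0 : ℝ) ≤ K := Nat.cast_nonneg K
  have hK' : (0 : ℝ) ≤ K' := Nat.cast_nonneg K'
  refine Good.intro' (K + K') (K + K') (K + K') (fun x => ?_) (fun x y => ?_)
    (fun p => Max.max (f p) (f' p)) (primrec_int_max.comp hf hf') fun N y hN => ?_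
  · have := h1 x
    have := h1' x
    rcases max_choice (g x) (h x) with e | e <;> rw [e] <;> linarith
  · have := h2 x y
    have := h2' x y
    have := mul_nonneg hK (dist_nonneg (x := x) (y := y))
    have := mul_nonneg hK' (dist_nonneg (x := x) (y := y))
    refine (abs_max_sub_max_le_max _ _ _ _).trans (max_le ?_ ?_) <;> linarith
  · have := h3 N y hN
    have := h3' N y hN
    rw [mul_max_of_nonneg _ _ (Nat.cast_nonneg N), Int.cast_max]
    refine (abs_max_sub_max_le_max _ _ _ _).trans (max_le ?_ ?_) <;> linarith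

theorem Good.min {d : ℕ} {g h : (Fin d → ℝ) → ℝ} (hg : Good g) (hh : Good h) :
    Good (fun x => min (g x) (h x)) := by
  have := (hg.neg.max hh.neg).neg
  simpa only [max_neg_neg, neg_neg] using this

/-- quotient estimate -/
theorem dv_quot {X : ℤ} {S N : ℕ} {a w K : ℝ} (ha : 0 < a) (hw : 1 / a ≤ w) (hS : 1 ≤ S)
    (hX : |(X : ℝ)| ≤ a * S) (hK : |(S : ℝ) - N * w| ≤ K) :
    |(dv (N * X) S : ℝ) - X / w| ≤ 1 + a ^ 2 * K := by
  have h0 : (0 : ℝ) < S := by exact_mod_cast hS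
  have hw0 : 0 < w := lt_of_lt_of_le (by positivity) hw
  have haw : 1 ≤ a * w := by rwa [div_le_iff₀' ha] at hw
  have hK0 : 0 ≤ K := (abs_nonneg _).trans hK
  refine (abs_sub_le _ _ _).trans (add_le_add (dv_err _ S hS) ?_)
  have e : ((N * X : ℤ) : ℝ) / S - X / w = -(X * (S - N * w)) / (S * w) := by
    push_cast; field_simp; ring
  rw [e, abs_div, abs_neg, abs_mul, abs_of_pos (mul_pos h0 hw0), div_le_iff₀ (mul_pos h0 hw0)]
  have e1 := mul_le_mul hX hK (abs_nonneg _) (mul_pos ha h0).le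
  have e2 : 0 ≤ a * S * K := by positivity
  nlinarith

theorem abs_div_sub_div_le {a x y u w : ℝ} (ha : 0 < a) (hu : 1 / a ≤ u) (hw : 0 < w) {c : ℝ}
    (hy : |y| ≤ c * w) : |x / u - y / w| ≤ a * |x - y| + a * c * |u - w| := by
  have hu0 : 0 < u := lt_of_lt_of_le (by positivity) hu
  have hau : 1 ≤ a * u := by rwa [div_le_iff₀' ha] at hu
  have e : x / u - y / w = ((x - y) * w - y * (u - w)) / (u * w) := by
    field_simp; ring
  rw [e, abs_div, abs_of_pos (mul_pos hu0 hw), div_le_iff₀ (mul_pos hu0 hw)]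
  refine (abs_sub _ _).trans ?_
  rw [abs_mul, abs_mul, abs_of_pos hw]
  have e1 := mul_le_mul_of_nonneg_right hy (abs_nonneg (u - w))
  have e2 : 0 ≤ |x - y| * w + c * w * |u - w| :=
    add_nonneg (mul_nonneg (abs_nonneg _) hw.le)
      (mul_nonneg ((abs_nonneg _).trans hy) (abs_nonneg _))
  nlinarith

/-- natural number approximants of a function bounded below -/
theorem exists_natAppr {d : ℕ} {g : (Fin d → ℝ) → ℝ} (hg : Good g) (a : ℕ) (ha : 0 < a)
    (hge : ∀ x, 1 / (a : ℝ) ≤ g x) : ∃ (K : ℝ) (G : ℕ × (Fin d → ℤ) → ℕ), Primrec G ∧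
      ∀ (N : ℕ) (y : Fin d → ℤ), 1 ≤ N → 1 ≤ G (N, y) ∧ (N : ℝ) ≤ a * G (N, y) ∧
        |(G (N, y) : ℝ) - N * g (fun i => (y i : ℝ) / N)| ≤ K := by
  obtain ⟨K, h1, h2, f, hf, h3⟩ := hg
  refine ⟨K + 1, fun p => Max.max (f p).toNat (p.1 / a + 1),
    Primrec.nat_max.comp (primrec_int_toNat.comp hf)
      (Primrec.succ.comp (Primrec.nat_div.comp Primrec.fst (Primrec.const a))), fun N y hN => ?_⟩
  have ha' : (0 : ℝ) < a := by exact_mod_cast ha
  obtain ⟨e1, e2⟩ := nat_div_err N a ha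
  have e3 := h3 N y hN
  have e4 := hge (fun i => (y i : ℝ) / N)
  have hK : (0 : ℝ) ≤ K := Nat.cast_nonneg K
  have e5 : (N : ℝ) / a ≤ N * g (fun i => (y i : ℝ) / N) := by
    rw [div_eq_mul_one_div]
    exact mul_le_mul_of_nonneg_left e4 (Nat.cast_nonneg N)
  have e6 : ((N / a : ℕ) : ℝ) + 1 ≤ (Max.max (f (N, y)).toNat (N / a + 1) : ℕ) := by
    exact_mod_cast le_max_right _ _
  refine ⟨le_trans (Nat.le_add_left _ _) (le_max_right _ _), ?_, ?_⟩
  · rw [← div_le_iff₀' ha']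
    exact e2.trans e6
  · have e7 : (f (N, y) : ℝ) ≤ (Max.max (f (N, y)).toNat (N / a + 1) : ℕ) := by
      have : f (N, y) ≤ ((Max.max (f (N, y)).toNat (N / a + 1) : ℕ) : ℤ) := by omega
      have h4 := (Int.cast_le (R := ℝ)).2 this
      rwa [Int.cast_natCast] at h4
    have e8 : ((Max.max (f (N, y)).toNat (N / a + 1) : ℕ) : ℝ) = f (N, y) ∨
        ((Max.max (f (N, y)).toNat (N / a + 1) : ℕ) : ℝ) = (N / a : ℕ) + 1 := by
      have : ((Max.max (f (N, y)).toNat (N / a + 1) : ℕ) : ℤ) = f (N, y) ∨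
          Max.max (f (N, y)).toNat (N / a + 1) = (N / a : ℕ) + 1 := by
        generalize N / a = c
        omega
      rcases this with h | h
      · left; rw [← h, Int.cast_natCast, h]
      · right; exact_mod_cast h
    simp only
    rw [abs_le] at e3 ⊢
    rcases e8 with h | h <;> constructor <;> linarith [e3.1, e3.2]

theorem good_inv_aux {d : ℕ} {w : (Fin d → ℝ) → ℝ} (a : ℕ) (ha : 0 < a)
    (hge : ∀ x, 1 / (a : ℝ) ≤ w x) {L K : ℝ} (hL : ∀ x y, |w x - w y| ≤ L * dist x y)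
    {G : ℕ × (Fin d → ℤ) → ℕ} (hG : Primrec G)
    (h : ∀ (N : ℕ) (y : Fin d → ℤ), 1 ≤ N → 1 ≤ G (N, y) ∧ (N : ℝ) ≤ a * G (N, y) ∧
        |(G (N, y) : ℝ) - N * w (fun i => (y i : ℝ) / N)| ≤ K) : Good (fun x => 1 / w x) := by
  have ha' : (0 : ℝ) < a := by exact_mod_cast ha
  have hw : ∀ x, 0 < w x := fun x => lt_of_lt_of_le (by positivity) (hge x)
  have haw : ∀ x, 1 ≤ a * w x := fun x => by
    have := hge x
    rwa [div_le_iff₀' ha'] at this
  refine Good.intro' a (a * a * L) (1 + a ^ 2 * K) (fun x => ?_) (fun x y => ?_)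
    (fun p => dv (p.1 * p.1) (G p))
    (primrec_dv.comp (primrec_int_mul.comp (primrec_int_cast.comp Primrec.fst)
      (primrec_int_cast.comp Primrec.fst)) hG) fun N y hN => ?_
  · rw [abs_of_pos (one_div_pos.2 (hw x)), div_le_iff₀ (hw x)]
    exact haw x
  · refine (abs_div_sub_div_le ha' (hge x) (hw y) (c := a) (by simpa using haw y)).trans ?_
    rw [sub_self, abs_zero, mul_zero, zero_add, mul_assoc _ L]
    exact mul_le_mul_of_nonneg_left (hL x y) (by positivity)
  · obtain ⟨e1, e2, e3⟩ := h N y hN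
    have := dv_quot (X := N) ha' (hge _) e1 (by simpa using e2) e3
    rwa [Int.cast_natCast, div_eq_mul_one_div] at this

theorem Good.inv {d : ℕ} {g : (Fin d → ℝ) → ℝ} (hg : Good g) (a : ℕ) (ha : 0 < a)
    (hge : ∀ x, 1 / (a : ℝ) ≤ g x) : Good (fun x => 1 / g x) := by
  obtain ⟨K, G, hG, h⟩ := exists_natAppr hg a ha hge
  obtain ⟨L, -, hL, -⟩ := hg
  exact good_inv_aux a ha hge hL hG h

theorem abs_sqrt_sub_sqrt_le (a b c e : ℝ) :
    |√(a ^ 2 + b ^ 2) - √(c ^ 2 + e ^ 2)| ≤ |a - c| + |b - e| := by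
  rw [← Complex.norm_add_mul_I, ← Complex.norm_add_mul_I]
  refine (abs_norm_sub_norm_le _ _).trans ((Complex.norm_le_abs_re_add_abs_im _).trans ?_)
  simp

theorem norm_aux {d : ℕ} (i : Fin d) {g : (Fin d → ℝ) → ℝ} (hg : Good g) (a : ℕ) (ha : 0 < a)
    (hge : ∀ x, 1 / (a : ℝ) ≤ g x) :
    (∀ x, 1 / (a : ℝ) ≤ √(x i ^ 2 + g x ^ 2)) ∧
    (∃ L : ℝ, ∀ x y, |√(x i ^ 2 + g x ^ 2) - √(y i ^ 2 + g y ^ 2)| ≤ L * dist x y) ∧
    ∃ (K : ℝ) (G : ℕ × (Fin d → ℤ) → ℕ), Primrec G ∧
      ∀ (N : ℕ) (y : Fin d → ℤ), 1 ≤ N → |(y i : ℝ)| ≤ G (N, y) ∧ 1 ≤ G (N, y) ∧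
        (N : ℝ) ≤ a * G (N, y) ∧
        |(G (N, y) : ℝ) - N * √(((y i : ℝ) / N) ^ 2 + g (fun i => (y i : ℝ) / N) ^ 2)| ≤ K := by
  obtain ⟨K, G, hG, h⟩ := exists_natAppr hg a ha hge
  obtain ⟨L, -, hL, -⟩ := hg
  refine ⟨fun x => (hge x).trans (Real.le_sqrt_of_sq_le (by nlinarith [sq_nonneg (x i)])),
    ⟨1 + L, fun x y => ?_⟩, 1 + K,
    fun p => Nat.sqrt ((p.2 i * p.2 i).toNat + G p * G p) + 1,
    Primrec.succ.comp (Primrec.nat_sqrt.comp (Primrec.nat_add.comp
      (primrec_int_toNat.comp (primrec_int_mul.comp (primrec_coord i) (primrec_coord i)))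
      (Primrec.nat_mul.comp hG hG))), fun N y hN => ?_⟩
  · refine (abs_sqrt_sub_sqrt_le _ _ _ _).trans ?_
    rw [add_mul, one_mul]
    exact add_le_add (abs_coord_le i x y) (hL x y)
  · obtain ⟨e1, e2, e3⟩ := h N y hN
    have h0 : (0 : ℝ) < N := by exact_mod_cast hN
    simp only
    have e4 : (((y i * y i).toNat + G (N, y) * G (N, y) : ℕ) : ℝ) =
        (y i : ℝ) ^ 2 + (G (N, y) : ℝ) ^ 2 := by
      have : (((y i * y i).toNat : ℕ) : ℤ) = y i * y i := Int.toNat_of_nonneg (mul_self_nonneg _)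
      have h2 : (((y i * y i).toNat : ℕ) : ℝ) = y i * y i := by exact_mod_cast this
      push_cast
      rw [h2]; ring
    have e5 := Real.nat_sqrt_le_real_sqrt (a := (y i * y i).toNat + G (N, y) * G (N, y))
    have e6 := Real.real_sqrt_le_nat_sqrt_succ (a := (y i * y i).toNat + G (N, y) * G (N, y))
    rw [e4] at e5 e6
    have e7 : |(y i : ℝ)| ≤ √((y i : ℝ) ^ 2 + (G (N, y) : ℝ) ^ 2) :=
      Real.abs_le_sqrt (by nlinarith [sq_nonneg (G (N, y) : ℝ)])
    have e8 : (G (N, y) : ℝ) ≤ √((y i : ℝ) ^ 2 + (G (N, y) : ℝ) ^ 2) :=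
      Real.le_sqrt_of_sq_le (by nlinarith [sq_nonneg (y i : ℝ)])
    have e9 : N * √(((y i : ℝ) / N) ^ 2 + g (fun i => (y i : ℝ) / N) ^ 2) =
        √((y i : ℝ) ^ 2 + (N * g (fun i => (y i : ℝ) / N)) ^ 2) := by
      rw [← Real.sqrt_sq h0.le, ← Real.sqrt_mul (sq_nonneg _), Real.sqrt_sq h0.le]
      congr 1
      field_simp
    have e10 := abs_sqrt_sub_sqrt_le (y i) (G (N, y)) (y i) (N * g (fun i => (y i : ℝ) / N))
    rw [sub_self, abs_zero, zero_add] at e10
    have e11 := abs_le.1 (e10.trans e3)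
    rw [Nat.cast_add, Nat.cast_one, e9]
    refine ⟨e7.trans e6, Nat.le_add_left _ _,
      e2.trans (mul_le_mul_of_nonneg_left (e8.trans e6) (Nat.cast_nonneg a)), ?_⟩
    rw [abs_le]
    constructor <;> linarith [e11.1, e11.2]

theorem Good.invNorm {d : ℕ} (i : Fin d) {g : (Fin d → ℝ) → ℝ} (hg : Good g) (a : ℕ) (ha : 0 < a)
    (hge : ∀ x, 1 / (a : ℝ) ≤ g x) : Good (fun x => 1 / √(x i ^ 2 + g x ^ 2)) := by
  obtain ⟨h1, ⟨L, hL⟩, K, G, hG, h⟩ := norm_aux i hg a ha hge
  exact good_inv_aux (w := fun x => √(x i ^ 2 + g x ^ 2)) a ha h1 hL hG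
    fun N y hN => (h N y hN).2

theorem Good.dirNorm {d : ℕ} (i : Fin d) {g : (Fin d → ℝ) → ℝ} (hg : Good g) (a : ℕ) (ha : 0 < a)
    (hge : ∀ x, 1 / (a : ℝ) ≤ g x) : Good (fun x => x i / √(x i ^ 2 + g x ^ 2)) := by
  obtain ⟨h1, ⟨L, hL⟩, K, G, hG, h⟩ := norm_aux i hg a ha hge
  have ha' : (0 : ℝ) < a := by exact_mod_cast ha
  have ha1 : (1 : ℝ) ≤ a := by exact_mod_cast ha
  have hw : ∀ x : Fin d → ℝ, 0 < √(x i ^ 2 + g x ^ 2) := fun x =>
    lt_of_lt_of_le (by positivity) (h1 x)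
  have hx : ∀ x : Fin d → ℝ, |x i| ≤ √(x i ^ 2 + g x ^ 2) := fun x =>
    Real.abs_le_sqrt (by nlinarith [sq_nonneg (g x)])
  refine Good.intro' 1 (a + a * L) (1 + a ^ 2 * K) (fun x => ?_) (fun x y => ?_)
    (fun p => dv (p.1 * p.2 i) (G p))
    (primrec_dv.comp (primrec_int_mul.comp (primrec_int_cast.comp Primrec.fst)
      (primrec_coord i)) hG) fun N y hN => ?_
  · rw [abs_div, abs_of_pos (hw x), div_le_one (hw x)]
    exact hx x
  · refine (abs_div_sub_div_le ha' (h1 x) (hw y) (c := 1) (by simpa using hx y)).trans ?_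
    rw [mul_one, add_mul, mul_assoc]
    exact add_le_add (mul_le_mul_of_nonneg_left (abs_coord_le i x y) ha'.le)
      (mul_le_mul_of_nonneg_left (hL x y) ha'.le)
  · obtain ⟨e0, e1, e2, e3⟩ := h N y hN
    have h0 : (0 : ℝ) < N := by exact_mod_cast hN
    have := dv_quot (X := y i) ha' (h1 fun i => (y i : ℝ) / N) e1
      (e0.trans (le_mul_of_one_le_left (Nat.cast_nonneg _) ha1)) e3
    simp only
    rwa [← mul_div_assoc, mul_div_cancel₀ _ h0.ne']

end Pool.Agent.P.MP_9ae58c_an
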