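import Pool.Agent.P.MP_9ae58c_an.Shoot
import Pool.Agent.P.MP_9ae58c_an.Num

/-! The nested intervals can be found by an algorithm. -/

namespace Pool.Agent.P.MP_9ae58c_an

open Set Real Filter Topology

section prim

variable {α : Type} [Primcodable α]

theorem pp_forall_lt {f : α → ℕ} {R : α → ℕ → Prop} (hf : Primrec f)
    (hR : PrimrecPred fun p : α × ℕ => R p.1 p.2) : PrimrecPred fun a => ∀ x < f a, R a x := by
  have h : PrimrecRel fun (x : ℕ) (a : α) => R a x :=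
    PrimrecPred.comp hR (Primrec.snd.pair Primrec.fst)
  exact (h.forall_mem_list.comp (Primrec.list_range.comp hf) Primrec.id).of_eq (by simp)

theorem pp_exists_lt {f : α → ℕ} {R : α → ℕ → Prop} (hf : Primrec f)
    (hR : PrimrecPred fun p : α × ℕ => R p.1 p.2) : PrimrecPred fun a => ∃ x < f a, R a x := by
  have h : PrimrecRel fun (x : ℕ) (a : α) => R a x :=
    PrimrecPred.comp hR (Primrec.snd.pair Primrec.fst)
  exact (h.exists_mem_list.comp (Primrec.list_range.comp hf) Primrec.id).of_eq (by simp)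

theorem pp_imp {p q : α → Prop} (hp : PrimrecPred p) (hq : PrimrecPred q) :
    PrimrecPred fun a => p a → q a :=
  (hp.not.or hq).of_eq fun a => by tauto

theorem primrec_pow : Primrec₂ (fun a b : ℕ => a ^ b) := Primrec₂.unpaired'.1 Nat.Primrec.pow

/-- grid test for positivity -/
def chkP (K : ℕ) (mx : ℤ × ℕ × ℕ × ℕ → ℤ) (σ : ℤ) (D A B θ θ' n : ℕ) : Prop :=
  ∀ i < B * n + 1, A * n ≤ i → ∀ j < θ' * (D * n) + 1, θ * (D * n) ≤ j →
    ((K ^ (θ' + 1) * (D * n) : ℕ) : ℤ) < mx (σ, D * n, i, j)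

/-- grid test for negativity -/
def chkN (K : ℕ) (mx : ℤ × ℕ × ℕ × ℕ → ℤ) (σ : ℤ) (D A B θ θ' n : ℕ) : Prop :=
  ∀ i < B * n + 1, A * n ≤ i → ∃ j < θ' * (D * n) + 1, θ * (D * n) ≤ j ∧
    mx (σ, D * n, i, j) < -((K ^ (θ' + 1) * (D * n) : ℕ) : ℤ)

theorem prim_chk (K : ℕ) {mx : ℤ × ℕ × ℕ × ℕ → ℤ} (hm : Primrec mx) {σ : α → ℤ}
    {D A B θ θ' n : α → ℕ} (hσ : Primrec σ) (hD : Primrec D) (hA : Primrec A) (hB : Primrec B)
    (hθ : Primrec θ) (hθ' : Primrec θ') (hn : Primrec n) :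
    (PrimrecPred fun a => chkP K mx (σ a) (D a) (A a) (B a) (θ a) (θ' a) (n a)) ∧
    (PrimrecPred fun a => chkN K mx (σ a) (D a) (A a) (B a) (θ a) (θ' a) (n a)) := by
  have hN : Primrec fun a => D a * n a := Primrec.nat_mul.comp hD hn
  have f1 : Primrec fun p : α × ℕ => p.1 := Primrec.fst
  have f2 : Primrec fun p : (α × ℕ) × ℕ => p.1.1 := Primrec.fst.comp Primrec.fst
  have b1 : Primrec fun a => B a * n a + 1 := Primrec.succ.comp (Primrec.nat_mul.comp hB hn)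
  have b2 : PrimrecPred fun p : α × ℕ => A p.1 * n p.1 ≤ p.2 :=
    Primrec.nat_le.comp ((Primrec.nat_mul.comp hA hn).comp f1) Primrec.snd
  have b3 : Primrec fun p : α × ℕ => θ' p.1 * (D p.1 * n p.1) + 1 :=
    (Primrec.succ.comp (Primrec.nat_mul.comp hθ' hN)).comp f1
  have b4 : PrimrecPred fun p : (α × ℕ) × ℕ => θ p.1.1 * (D p.1.1 * n p.1.1) ≤ p.2 :=
    Primrec.nat_le.comp ((Primrec.nat_mul.comp hθ hN).comp f2) Primrec.snd
  have b5 : Primrec fun p : (α × ℕ) × ℕ =>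
      ((K ^ (θ' p.1.1 + 1) * (D p.1.1 * n p.1.1) : ℕ) : ℤ) :=
    (primrec_int_cast.comp (Primrec.nat_mul.comp
      (primrec_pow.comp (Primrec.const K) (Primrec.succ.comp hθ')) hN)).comp f2
  have b6 : Primrec fun p : (α × ℕ) × ℕ => mx (σ p.1.1, D p.1.1 * n p.1.1, p.1.2, p.2) :=
    hm.comp ((hσ.comp f2).pair ((hN.comp f2).pair
      ((Primrec.snd.comp Primrec.fst).pair Primrec.snd)))
  exact ⟨pp_forall_lt b1 (pp_imp b2 (pp_forall_lt b3 (pp_imp b4 (primrec_int_lt.comp b5 b6)))),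
    pp_forall_lt b1 (pp_imp b2 (pp_exists_lt b3
      (b4.and (primrec_int_lt.comp b6 (primrec_int_neg.comp b5)))))⟩

theorem comp_choice {R : ℕ → α → α → ℕ → Prop}
    (hR : PrimrecPred fun p : (ℕ × α) × α × ℕ => R p.1.1 p.1.2 p.2.1 p.2.2) (I : ℕ → α → Prop)
    (x₀ : α) (h0 : I 0 x₀) (hex : ∀ k x, I k x → ∃ y n, R k x y n)
    (hst : ∀ k x y n, I k x → R k x y n → I (k + 1) y) :
    ∃ f : ℕ → α, Computable f ∧ f 0 = x₀ ∧ ∀ k, I k (f k) ∧ ∃ n, R k (f k) (f (k + 1)) n := by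
  classical
  let dec : ℕ → α := fun m => (Encodable.decode m).getD x₀
  have hof : Primrec dec := Primrec.option_getD.comp Primrec.decode (Primrec.const x₀)
  have henc : ∀ a : α, ∃ n, dec n = a := fun a => ⟨Encodable.encode a, by simp [dec]⟩
  let P : ℕ × α → ℕ → Bool := fun p m =>
    decide (R p.1 p.2 (dec m.unpair.1) m.unpair.2)
  have hP : Primrec₂ P := by
    have : Primrec fun q : (ℕ × α) × ℕ =>
        ((q.1, dec q.2.unpair.1, q.2.unpair.2) : (ℕ × α) × α × ℕ) :=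
      Primrec.fst.pair ((hof.comp (Primrec.fst.comp (Primrec.unpair.comp Primrec.snd))).pair
        (Primrec.snd.comp (Primrec.unpair.comp Primrec.snd)))
    exact (PrimrecPred.comp hR this).decide
  let step : ℕ × α →. α := fun p =>
    (Nat.rfind fun m => Part.some (P p m)).map fun m => dec m.unpair.1
  have hstep : Partrec step :=
    (Partrec.rfind hP.to_comp.partrec₂).map
      (hof.comp (Primrec.fst.comp (Primrec.unpair.comp Primrec.snd))).to_comp.to₂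
  let sq : ℕ →. α := fun k =>
    Nat.rec (motive := fun _ => Part α) (Part.some x₀) (fun y IH => IH.bind fun i => step (y, i)) k
  have hsq : Partrec sq :=
    Partrec.nat_rec (f := fun k : ℕ => k) (g := fun _ => Part.some x₀)
      (h := fun _ p => step p) Computable.id (Computable.const x₀).partrec
      (hstep.comp Computable.snd).to₂
  have hs : ∀ k x, I k x → ∃ y ∈ step (k, x), ∃ n, R k x y n := by
    intro k x hx
    obtain ⟨y, n, h⟩ := hex k x hx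
    obtain ⟨m, rfl⟩ := henc y
    obtain ⟨w, hw, -⟩ := Nat.rfind_min' (p := P (k, x)) (m := Nat.pair m n) (by simpa [P] using h)
    refine ⟨_, Part.mem_map _ hw, w.unpair.2, ?_⟩
    have := Nat.rfind_spec hw
    simpa [P] using this
  choose! nx hnx using hs
  let f : ℕ → α := fun k => Nat.rec (motive := fun _ => α) x₀ (fun k x => nx k x) k
  have hI : ∀ k, I k (f k) := by
    intro k
    induction k with
    | zero => exact h0
    | succ k ih =>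
      obtain ⟨-, n, h⟩ := hnx k _ ih
      exact hst k _ _ n ih h
  refine ⟨f, hsq.of_eq_tot fun k => ?_, rfl, fun k => ⟨hI k, (hnx k _ (hI k)).2⟩⟩
  induction k with
  | zero => exact Part.mem_some _
  | succ k ih => exact Part.mem_bind ih (hnx k _ (hI k)).1

end prim

/-- integer approximation of `Mx` on grids -/
structure Apx (Z V : ℝ → ℝ → ℝ) (K : ℕ) (mx : ℤ × ℕ × ℕ × ℕ → ℤ) : Prop where
  prim : Primrec mx
  err : ∀ (σ : ℤ) (N i j T : ℕ) (s u : ℝ), σ = 1 ∨ σ = -1 → 1 ≤ N → j ≤ T * N → 0 ≤ u →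
    |s - i / N| ≤ 1 / N → |u - j / N| ≤ 1 / N →
    |(mx (σ, N, i, j) : ℝ) - N ^ 2 * Mx Z V σ s u| ≤ K ^ (T + 1) * N

theorem floor_grid {x : ℝ} {N a b : ℕ} (hN : 1 ≤ N) (ha : (a : ℝ) ≤ x * N) (hb : x * N ≤ b) :
    ∃ i : ℕ, a ≤ i ∧ i ≤ b ∧ |x - i / N| ≤ 1 / N := by
  have hN0 : (0 : ℝ) < N := by exact_mod_cast hN
  have h0 : 0 ≤ x * N := (Nat.cast_nonneg a).trans ha
  refine ⟨⌊x * N⌋₊, Nat.le_floor ha, Nat.floor_le_of_le hb, ?_⟩
  have h1 := Nat.floor_le h0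
  have h2 := Nat.lt_floor_add_one (x * N)
  have e : x - ⌊x * N⌋₊ / N = (x * N - ⌊x * N⌋₊) / N := by field_simp
  rw [e, abs_div, abs_of_pos hN0]
  gcongr
  rw [abs_le]; constructor <;> linarith

variable {M : ℝ} {Z V : ℝ → ℝ → ℝ} {K : ℕ} {mx : ℤ × ℕ × ℕ × ℕ → ℤ}

theorem grid_s {D A B n : ℕ} (hD : 1 ≤ D) {s : ℝ} (hs : s ∈ Icc ((A : ℝ) / D) (B / D)) :
    ((A * n : ℕ) : ℝ) ≤ s * (D * n : ℕ) ∧ s * (D * n : ℕ) ≤ (B * n : ℕ) := by
  have hD0 : (0 : ℝ) < D := by exact_mod_cast hD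
  have h1 := (div_le_iff₀ hD0).1 hs.1
  have h2 := (le_div_iff₀ hD0).1 hs.2
  have hn : (0 : ℝ) ≤ n := Nat.cast_nonneg n
  push_cast
  constructor <;> nlinarith

theorem grid_mem {D A B n i : ℕ} (hD : 1 ≤ D) (hn : 1 ≤ n) (h1 : A * n ≤ i) (h2 : i < B * n + 1) :
    (i : ℝ) / (D * n : ℕ) ∈ Icc ((A : ℝ) / D) (B / D) := by
  have hD0 : (0 : ℝ) < D := by exact_mod_cast hD
  have hn0 : (0 : ℝ) < n := by exact_mod_cast hn
  have a1 : (A : ℝ) * n ≤ i := by exact_mod_cast h1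
  have a2 : (i : ℝ) ≤ B * n := by exact_mod_cast Nat.lt_succ_iff.1 h2
  push_cast
  constructor
  · rw [div_le_div_iff₀ hD0 (by positivity)]; nlinarith
  · rw [div_le_div_iff₀ (by positivity) hD0]; nlinarith

theorem grid_mem' {θ θ' N j : ℕ} (hN : 1 ≤ N) (h1 : θ * N ≤ j) (h2 : j < θ' * N + 1) :
    (j : ℝ) / N ∈ Icc (θ : ℝ) θ' := by
  have := grid_mem (D := 1) (A := θ) (B := θ') le_rfl hN h1 h2
  simpa using this

theorem Apx.soundP (h : Fam M Z V) (ha : Apx Z V K mx) {σ : ℤ} (hσ : σ = 1 ∨ σ = -1)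
    {D A B θ θ' n : ℕ} (hD : 1 ≤ D) (hn : 1 ≤ n) (hθ : θ ≤ θ') (hc : chkP K mx σ D A B θ θ' n) :
    ∀ s ∈ Icc ((A : ℝ) / D) (B / D), 0 < mm Z V σ θ θ' s := by
  intro s hs
  have hN : 1 ≤ D * n := Nat.mul_pos hD hn
  have hN0 : (0 : ℝ) < (D * n : ℕ) := by exact_mod_cast hN
  refine h.mm_pos _ _ (by exact_mod_cast hθ) fun u hu => ?_
  obtain ⟨i, i1, i2, i3⟩ := floor_grid hN (grid_s hD hs).1 (grid_s hD hs).2
  obtain ⟨j, j1, j2, j3⟩ := floor_grid (x := u) (a := θ * (D * n)) (b := θ' * (D * n)) hN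
    (by rw [Nat.cast_mul θ]; gcongr; exact hu.1) (by rw [Nat.cast_mul θ']; gcongr; exact hu.2)
  have h1 := hc i (Nat.lt_succ_of_le i2) i1 j (Nat.lt_succ_of_le j2) j1
  have h2 := ha.err σ (D * n) i j θ' s u hσ hN j2 ((Nat.cast_nonneg θ).trans hu.1) i3 j3
  have h3 : (K : ℝ) ^ (θ' + 1) * (D * n : ℕ) < mx (σ, D * n, i, j) := by exact_mod_cast h1
  have h4 : 0 < ((D * n : ℕ) : ℝ) ^ 2 * Mx Z V σ s u := by linarith [(abs_le.1 h2).2]
  exact (mul_pos_iff_of_pos_left (by positivity)).1 h4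

theorem Apx.soundN (h : Fam M Z V) (ha : Apx Z V K mx) {σ : ℤ} (hσ : σ = 1 ∨ σ = -1)
    {D A B θ θ' n : ℕ} (hD : 1 ≤ D) (hn : 1 ≤ n) (hc : chkN K mx σ D A B θ θ' n) :
    ∀ s ∈ Icc ((A : ℝ) / D) (B / D), mm Z V σ θ θ' s < 0 := by
  intro s hs
  have hN : 1 ≤ D * n := Nat.mul_pos hD hn
  have hN0 : (0 : ℝ) < (D * n : ℕ) := by exact_mod_cast hN
  obtain ⟨i, i1, i2, i3⟩ := floor_grid hN (grid_s hD hs).1 (grid_s hD hs).2
  obtain ⟨j, j2, j1, h1⟩ := hc i (Nat.lt_succ_of_le i2) i1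
  have hj := grid_mem' hN j1 j2
  have h2 := ha.err σ (D * n) i j θ' s (j / (D * n : ℕ)) hσ hN (Nat.lt_succ_iff.1 j2)
    (by positivity) i3 (by rw [sub_self, abs_zero]; positivity)
  have h3 : (mx (σ, D * n, i, j) : ℝ) < -((K : ℝ) ^ (θ' + 1) * (D * n : ℕ)) := by exact_mod_cast h1
  have h4 : ((D * n : ℕ) : ℝ) ^ 2 * Mx Z V σ s (j / (D * n : ℕ)) < 0 := by
    linarith [(abs_le.1 h2).1]
  exact lt_of_le_of_lt (h.mm_le _ _ hj) (neg_of_mul_neg_right h4 (sq_nonneg _))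

theorem ev_large {δ : ℝ} (hδ : 0 < δ) (C : ℝ) {D : ℕ} (hD : 1 ≤ D) :
    ∀ᶠ n : ℕ in atTop, 1 ≤ n ∧ 2 * C < (D * n : ℕ) * δ := by
  obtain ⟨n₀, hn₀⟩ := exists_nat_gt (2 * C / δ)
  rw [div_lt_iff₀ hδ] at hn₀
  filter_upwards [eventually_ge_atTop (n₀ + 1)] with n hn
  refine ⟨by omega, lt_of_lt_of_le hn₀ ?_⟩
  gcongr
  calc n₀ ≤ n := by omega
    _ ≤ D * n := Nat.le_mul_of_pos_left n hD

theorem Apx.complP (h : Fam M Z V) (ha : Apx Z V K mx) {σ : ℤ} (hσ : σ = 1 ∨ σ = -1)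
    {D A B θ θ' : ℕ} (hD : 1 ≤ D) (hAB : (A : ℝ) / D ≤ B / D)
    (hp : ∀ s ∈ Icc ((A : ℝ) / D) (B / D), 0 < mm Z V σ θ θ' s) :
    ∀ᶠ n in atTop, chkP K mx σ D A B θ θ' n := by
  obtain ⟨s₀, hs₀, hmin⟩ := isCompact_Icc.exists_isMinOn (nonempty_Icc.2 hAB)
    (h.cmm σ θ θ').continuousOn
  filter_upwards [ev_large (hp s₀ hs₀) ((K : ℝ) ^ (θ' + 1)) hD] with n ⟨hn, hl⟩ i i2 i1 j j2 j1
  have hN : 1 ≤ D * n := Nat.mul_pos hD hn
  have hN0 : (0 : ℝ) < (D * n : ℕ) := by exact_mod_cast hN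
  have h1 : mm Z V σ θ θ' s₀ ≤ Mx Z V σ (i / (D * n : ℕ)) (j / (D * n : ℕ)) :=
    le_trans (hmin (grid_mem hD hn i1 i2)) (h.mm_le _ _ (grid_mem' hN j1 j2))
  have h2 := ha.err σ (D * n) i j θ' (i / (D * n : ℕ)) (j / (D * n : ℕ)) hσ hN
    (Nat.lt_succ_iff.1 j2) (by positivity) (by rw [sub_self, abs_zero]; positivity)
    (by rw [sub_self, abs_zero]; positivity)
  have h3 := mul_le_mul_of_nonneg_left h1 (sq_nonneg ((D * n : ℕ) : ℝ))
  have h4 := mul_lt_mul_of_pos_left hl hN0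
  have h5 : (K : ℝ) ^ (θ' + 1) * (D * n : ℕ) < mx (σ, D * n, i, j) := by
    nlinarith [(abs_le.1 h2).1]
  exact_mod_cast h5

theorem Apx.complN (h : Fam M Z V) (ha : Apx Z V K mx) {σ : ℤ} (hσ : σ = 1 ∨ σ = -1)
    {D A B θ θ' : ℕ} (hD : 1 ≤ D) (hAB : (A : ℝ) / D ≤ B / D) (hθ : θ ≤ θ')
    (hp : ∀ s ∈ Icc ((A : ℝ) / D) (B / D), mm Z V σ θ θ' s < 0) :
    ∀ᶠ n in atTop, chkN K mx σ D A B θ θ' n := by
  obtain ⟨s₀, hs₀, hmax⟩ := isCompact_Icc.exists_isMaxOn (nonempty_Icc.2 hAB)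
    (h.cmm σ θ θ').continuousOn
  filter_upwards [ev_large (neg_pos.2 (hp s₀ hs₀)) ((K : ℝ) ^ (θ' + 1)) hD] with n ⟨hn, hl⟩ i i2 i1
  have hN : 1 ≤ D * n := Nat.mul_pos hD hn
  have hN0 : (0 : ℝ) < (D * n : ℕ) := by exact_mod_cast hN
  obtain ⟨u, hu, e, -⟩ := h.mm_spec σ (i / (D * n : ℕ)) (θ := θ) (θ' := θ') (by exact_mod_cast hθ)
  have h1 : Mx Z V σ (i / (D * n : ℕ)) u ≤ mm Z V σ θ θ' s₀ :=
    e.ge.trans (hmax (grid_mem hD hn i1 i2))
  obtain ⟨j, j1, j2, j3⟩ := floor_grid (x := u) (a := θ * (D * n)) (b := θ' * (D * n)) hN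
    (by rw [Nat.cast_mul θ]; gcongr; exact hu.1) (by rw [Nat.cast_mul θ']; gcongr; exact hu.2)
  refine ⟨j, Nat.lt_succ_of_le j2, j1, ?_⟩
  have h2 := ha.err σ (D * n) i j θ' (i / (D * n : ℕ)) u hσ hN j2
    ((Nat.cast_nonneg θ).trans hu.1) (by rw [sub_self, abs_zero]; positivity) j3
  have h3 := mul_le_mul_of_nonneg_left h1 (sq_nonneg ((D * n : ℕ) : ℝ))
  have h4 := mul_lt_mul_of_pos_left hl hN0
  have h5 : (mx (σ, D * n, i, j) : ℝ) < -((K : ℝ) ^ (θ' + 1) * (D * n : ℕ)) := by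
    nlinarith [(abs_le.1 h2).2]
  exact_mod_cast h5

/-- lower heights of the classes -/
def al : ℕ → ℕ := fun c => Nat.rec (10 ^ 5) (fun _ a => 10 ^ 13 * (a * a)) c

/-- durations of the classes -/
def Ac (c : ℕ) : ℕ := 10 ^ 7 * (al c * al c)

/-- alternating sign -/
def sg (k : ℕ) : ℤ := if k % 2 = 0 then 1 else -1

theorem al_succ (c : ℕ) : al (c + 1) = 10 ^ 13 * (al c * al c) := rfl

theorem al_ge (c : ℕ) : 10 ^ 5 ≤ al c := by
  induction c with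
  | zero => exact le_rfl
  | succ c ih => rw [al_succ]; nlinarith

theorem al_mono : Monotone al :=
  monotone_nat_of_le_succ fun c => by rw [al_succ]; nlinarith [al_ge c]

theorem Ac_ge (c : ℕ) : 10 ^ 17 ≤ Ac c := by unfold Ac; nlinarith [al_ge c]

theorem prim_al : Primrec al :=
  Primrec.nat_rec₁ _ (Primrec.nat_mul.comp (Primrec.const _)
    (Primrec.nat_mul.comp Primrec.snd Primrec.snd)).to₂

theorem prim_Ac : Primrec Ac :=
  Primrec.nat_mul.comp (Primrec.const _) (Primrec.nat_mul.comp prim_al prim_al)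

theorem prim_sg : Primrec sg :=
  Primrec.ite (Primrec.eq.comp (Primrec.nat_mod.comp Primrec.id (Primrec.const 2))
    (Primrec.const 0)) (Primrec.const _) (Primrec.const _)

theorem sg_cases (k : ℕ) : sg k = 1 ∨ sg k = -1 := by unfold sg; split_ifs <;> simp

theorem sg_succ (k : ℕ) : ((sg (k + 1) : ℤ) : ℝ) = -(sg k : ℝ) := by
  unfold sg
  rcases Nat.mod_two_eq_zero_or_one k with h | h
  · rw [if_pos h, if_neg (by omega)]; simp
  · rw [if_neg (by omega : ¬ k % 2 = 0), if_pos (by omega)]; simp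

theorem sg_sq (k : ℕ) : ((sg k : ℤ) : ℝ) ^ 2 = 1 := by
  rcases sg_cases k with h | h <;> simp [h]

/-- the certificate for one step; a state is `(D, A, B, θ)` -/
def Rl (K : ℕ) (mx : ℤ × ℕ × ℕ × ℕ → ℤ) (c : ℕ → ℕ) (k : ℕ) (x y : ℕ × ℕ × ℕ × ℕ) (n : ℕ) : Prop :=
  (1 ≤ y.1 ∧ 1 ≤ n ∧ x.2.1 * y.1 ≤ y.2.1 * x.1 ∧ y.2.1 ≤ y.2.2.1 ∧ y.2.2.1 * x.1 ≤ x.2.2.1 * y.1 ∧
    2 * (y.2.2.1 * x.1) + x.2.1 * y.1 ≤ x.2.2.1 * y.1 + 2 * (y.2.1 * x.1) ∧
    x.2.2.2 + Ac (c k) ≤ y.2.2.2 ∧ y.2.2.2 ≤ x.2.2.2 + Ac (c k) + 20) ∧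
  chkP K mx (sg k) y.1 y.2.1 y.2.2.1 x.2.2.2 y.2.2.2 n ∧
  chkN K mx (sg k) y.1 y.2.1 y.2.2.1 x.2.2.2 (y.2.2.2 + 8) n ∧
  chkN K mx (sg (k + 1)) y.1 y.2.1 y.2.1 y.2.2.2 (y.2.2.2 + 2 * 10 ^ 13) n ∧
  chkP K mx (sg (k + 1)) y.1 y.2.2.1 y.2.2.1 y.2.2.2 (y.2.2.2 + (Ac (c (k + 1)) + 30)) n

theorem prim_Rl (K : ℕ) (hm : Primrec mx) {c : ℕ → ℕ} (hc : Primrec c) :
    PrimrecPred fun p : (ℕ × ℕ × ℕ × ℕ × ℕ) × (ℕ × ℕ × ℕ × ℕ) × ℕ =>
      Rl K mx c p.1.1 p.1.2 p.2.1 p.2.2 := by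
  let β := (ℕ × ℕ × ℕ × ℕ × ℕ) × (ℕ × ℕ × ℕ × ℕ) × ℕ
  have k : Primrec fun p : β => p.1.1 := Primrec.fst.comp Primrec.fst
  have x : Primrec fun p : β => p.1.2 := Primrec.snd.comp Primrec.fst
  have y : Primrec fun p : β => p.2.1 := Primrec.fst.comp Primrec.snd
  have n : Primrec fun p : β => p.2.2 := Primrec.snd.comp Primrec.snd
  have x1 := Primrec.fst.comp x
  have x2 := Primrec.fst.comp (Primrec.snd.comp x)
  have x3 := Primrec.fst.comp (Primrec.snd.comp (Primrec.snd.comp x))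
  have x4 := Primrec.snd.comp (Primrec.snd.comp (Primrec.snd.comp x))
  have y1 := Primrec.fst.comp y
  have y2 := Primrec.fst.comp (Primrec.snd.comp y)
  have y3 := Primrec.fst.comp (Primrec.snd.comp (Primrec.snd.comp y))
  have y4 := Primrec.snd.comp (Primrec.snd.comp (Primrec.snd.comp y))
  have k1 := Primrec.succ.comp k
  have a0 := Primrec.nat_add.comp x4 (prim_Ac.comp (hc.comp k))
  have mul := @Primrec.nat_mul
  have add := @Primrec.nat_add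
  have le := @Primrec.nat_le
  refine PrimrecPred.and ?_ (PrimrecPred.and ?_ (PrimrecPred.and ?_ (PrimrecPred.and ?_ ?_)))
  · exact (le.comp (Primrec.const 1) y1).and ((le.comp (Primrec.const 1) n).and
      ((le.comp (mul.comp x2 y1) (mul.comp y2 x1)).and ((le.comp y2 y3).and
      ((le.comp (mul.comp y3 x1) (mul.comp x3 y1)).and
      ((le.comp (add.comp (mul.comp (Primrec.const 2) (mul.comp y3 x1)) (mul.comp x2 y1))
        (add.comp (mul.comp x3 y1) (mul.comp (Primrec.const 2) (mul.comp y2 x1)))).and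
      ((le.comp a0 y4).and (le.comp y4 (add.comp a0 (Primrec.const 20)))))))))
  · exact (prim_chk K hm (prim_sg.comp k) y1 y2 y3 x4 y4 n).1
  · exact (prim_chk K hm (prim_sg.comp k) y1 y2 y3 x4 (add.comp y4 (Primrec.const 8)) n).2
  · exact (prim_chk K hm (prim_sg.comp k1) y1 y2 y2 y4
      (add.comp y4 (Primrec.const (2 * 10 ^ 13))) n).2
  · exact (prim_chk K hm (prim_sg.comp k1) y1 y3 y3 y4
      (add.comp y4 (add.comp (prim_Ac.comp (hc.comp k1)) (Primrec.const 30))) n).1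

end Pool.Agent.P.MP_9ae58c_an
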