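import Pool.Agent.P.MP_9ae58c_an.Basic

/-! Primitive recursive simulation of a machine on coded configurations; the halting set of a
machine is the preimage of the range of a primitive recursive function. -/

namespace Pool.Agent.P.MP_9ae58c_an

/-- coded configurations: state, left half of the tape, right half of the tape -/
abbrev Cfg : Type := ℕ × List ℕ × List ℕ

/-- the entry of the table read in a coded configuration -/
def look (tb : List (List (ℕ × ℕ × ℕ))) (s : Cfg) : ℕ × ℕ × ℕ :=
  (tb.getD s.1 []).getD s.2.2.headI (0, 0, 0)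

/-- one step on coded configurations -/
def cstep (p : ℕ × List (List (ℕ × ℕ × ℕ))) (s : Cfg) : Cfg :=
  if s.1 = p.1 then s
  else if (look p.2 s).2.2 = 1 then ((look p.2 s).1, s.2.1, (look p.2 s).2.1 :: s.2.2.tail)
  else if (look p.2 s).2.2 = 2 then ((look p.2 s).1, (look p.2 s).2.1 :: s.2.1, s.2.2.tail)
  else ((look p.2 s).1, s.2.1.tail, s.2.1.headI :: (look p.2 s).2.1 :: s.2.2.tail)

theorem look_prim : Primrec₂ look := by
  unfold look
  exact (Primrec.list_getD ((0, 0, 0) : ℕ × ℕ × ℕ)).comp
    ((Primrec.list_getD ([] : List (ℕ × ℕ × ℕ))).comp Primrec.fst (Primrec.fst.comp Primrec.snd))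
    (Primrec.list_headI.comp (Primrec.snd.comp (Primrec.snd.comp Primrec.snd)))

theorem cstep_prim : Primrec₂ cstep := by
  have hl : Primrec fun x : (ℕ × List (List (ℕ × ℕ × ℕ))) × Cfg => look x.1.2 x.2 :=
    look_prim.comp (Primrec.snd.comp Primrec.fst) Primrec.snd
  have hq : Primrec fun x : (ℕ × List (List (ℕ × ℕ × ℕ))) × Cfg => (look x.1.2 x.2).1 :=
    Primrec.fst.comp hl
  have ha : Primrec fun x : (ℕ × List (List (ℕ × ℕ × ℕ))) × Cfg => (look x.1.2 x.2).2.1 :=
    Primrec.fst.comp (Primrec.snd.comp hl)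
  have he : Primrec fun x : (ℕ × List (List (ℕ × ℕ × ℕ))) × Cfg => (look x.1.2 x.2).2.2 :=
    Primrec.snd.comp (Primrec.snd.comp hl)
  have hL : Primrec fun x : (ℕ × List (List (ℕ × ℕ × ℕ))) × Cfg => x.2.2.1 :=
    Primrec.fst.comp (Primrec.snd.comp Primrec.snd)
  have hR : Primrec fun x : (ℕ × List (List (ℕ × ℕ × ℕ))) × Cfg => x.2.2.2.tail :=
    Primrec.list_tail.comp (Primrec.snd.comp (Primrec.snd.comp Primrec.snd))
  have h0 : PrimrecPred fun x : (ℕ × List (List (ℕ × ℕ × ℕ))) × Cfg => x.2.1 = x.1.1 :=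
    Primrec.eq.comp (Primrec.fst.comp Primrec.snd) (Primrec.fst.comp Primrec.fst)
  have h1 : PrimrecPred fun x : (ℕ × List (List (ℕ × ℕ × ℕ))) × Cfg =>
      (look x.1.2 x.2).2.2 = 1 := Primrec.eq.comp he (Primrec.const 1)
  have h2 : PrimrecPred fun x : (ℕ × List (List (ℕ × ℕ × ℕ))) × Cfg =>
      (look x.1.2 x.2).2.2 = 2 := Primrec.eq.comp he (Primrec.const 2)
  have := Primrec.ite h0 Primrec.snd (Primrec.ite h1
    (Primrec.pair hq (Primrec.pair hL (Primrec.list_cons.comp ha hR)))
    (Primrec.ite h2 (Primrec.pair hq (Primrec.pair (Primrec.list_cons.comp ha hL) hR))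
      (Primrec.pair hq (Primrec.pair (Primrec.list_tail.comp hL)
        (Primrec.list_cons.comp (Primrec.list_headI.comp hL) (Primrec.list_cons.comp ha hR))))))
  exact this.of_eq fun x => rfl

/-- the coded configuration `s` describes the configuration `c` -/
def Rep (T : TM) (s : Cfg) (c : Fin T.nQ × (ℤ → Fin (T.nS + 1))) : Prop :=
  s.1 = c.1.val ∧ (∀ n : ℕ, s.2.2.getD n 0 = (c.2 (n : ℤ)).val) ∧
    ∀ n : ℕ, s.2.1.getD n 0 = (c.2 (-(n : ℤ) - 1)).val

theorem headI_getD (l : List ℕ) : l.headI = l.getD 0 0 := by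
  cases l <;> simp

theorem tail_getD (l : List ℕ) (n : ℕ) : l.tail.getD n 0 = l.getD (n + 1) 0 := by
  cases l <;> simp

theorem ofFn_getD {α : Type} {n : ℕ} (f : Fin n → α) (i : Fin n) (x : α) :
    (List.ofFn f).getD i.val x = f i := by
  rw [List.getD_eq_getElem _ _ (by simp)]
  simp only [List.getElem_ofFn, Fin.eta]

theorem look_eq (T : TM) (s : Cfg) (c : Fin T.nQ × (ℤ → Fin (T.nS + 1))) (h : Rep T s c) :
    look T.code.2.2.2.2 s = ((T.δ c.1 (c.2 0)).1.val, (T.δ c.1 (c.2 0)).2.1.val,
      (T.δ c.1 (c.2 0)).2.2.val) := by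
  obtain ⟨h1, h2, -⟩ := h
  have h0 : s.2.2.headI = (c.2 0).val := by
    rw [headI_getD]; simpa using h2 0
  unfold look
  rw [h0, h1]
  simp only [TM.code, ofFn_getD]

theorem rep_step (T : TM) (s : Cfg) (c : Fin T.nQ × (ℤ → Fin (T.nS + 1))) (h : Rep T s c) :
    Rep T (cstep (T.qh.val, T.code.2.2.2.2) s) (T.step c) := by
  have hl := look_eq T s c h
  obtain ⟨h1, h2, h3⟩ := h
  unfold cstep TM.step
  by_cases hq : c.1 = T.qh
  · have : s.1 = T.qh.val := by rw [h1, hq]
    rw [if_pos this, if_pos hq]
    exact ⟨h1, h2, h3⟩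
  · have : ¬ s.1 = T.qh.val := by
      rw [h1]; intro e; exact hq (Fin.ext e)
    rw [if_neg this, if_neg hq]
    simp only [hl]
    generalize T.δ c.1 (c.2 0) = r
    obtain ⟨q', a, e⟩ := r
    fin_cases e
    · simp only [Fin.zero_eta, Fin.isValue, Fin.val_zero, zero_ne_one, if_false,
        OfNat.zero_ne_ofNat]
      refine ⟨rfl, ?_, ?_⟩
      · intro n
        rcases n with _ | _ | n
        · have := h3 0
          simp only [List.getD_cons_zero, headI_getD]
          rw [Function.update_of_ne (by omega), this]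
          congr 2
        · simp
        · simp only [List.getD_cons_succ, tail_getD]
          rw [Function.update_of_ne (by omega), h2]
          exact congrArg (fun z => (c.2 z).val) (by omega)
      · intro n
        simp only [tail_getD]
        rw [Function.update_of_ne (by omega), h3]
        exact congrArg (fun z => (c.2 z).val) (by omega)
    · simp only [Fin.mk_one, Fin.isValue, Fin.val_one, if_true]
      refine ⟨rfl, ?_, ?_⟩
      · intro n
        rcases n with _ | n
        · simp
        · simp only [List.getD_cons_succ, tail_getD]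
          rw [Function.update_of_ne (by omega), h2]
          exact congrArg (fun z => (c.2 z).val) (by omega)
      · intro n
        simp only
        rw [Function.update_of_ne (by omega), h3]
        exact congrArg (fun z => (c.2 z).val) (by omega)
    · simp only [Fin.reduceFinMk, Fin.isValue, Fin.val_two, OfNat.ofNat_ne_one, if_false, if_true]
      refine ⟨rfl, ?_, ?_⟩
      · intro n
        simp only [tail_getD]
        rw [Function.update_of_ne (by omega), h2]
        exact congrArg (fun z => (c.2 z).val) (by omega)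
      · intro n
        rcases n with _ | n
        · simp
        · simp only [List.getD_cons_succ]
          rw [Function.update_of_ne (by omega), h3]
          exact congrArg (fun z => (c.2 z).val) (by omega)

theorem map_val_getD {m : ℕ} (l : List (Fin (m + 1))) (n : ℕ) :
    (l.map Fin.val).getD n 0 = (l.getD n 0).val := by
  induction l generalizing n with
  | nil => simp
  | cons a l ih => cases n <;> simp_all

theorem rep_init (T : TM) (d : T.Inp) :
    Rep T (T.q0.val, (T.inpCode d).1, (T.inpCode d).2) (T.q0, T.tape d) := by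
  refine ⟨rfl, fun n => ?_, fun n => ?_⟩
  · exact map_val_getD d.2 n
  · have : (-(n : ℤ) - 1) = Int.negSucc n := by rw [Int.negSucc_eq]; ring
    simp only [this]
    exact map_val_getD d.1 n

theorem rep_iter (T : TM) (d : T.Inp) (k : ℕ) :
    Rep T ((cstep (T.qh.val, T.code.2.2.2.2))^[k] (T.q0.val, (T.inpCode d).1, (T.inpCode d).2))
      (T.step^[k] (T.q0, T.tape d)) := by
  induction k with
  | zero => exact rep_init T d
  | succ k ih =>
    rw [Function.iterate_succ_apply', Function.iterate_succ_apply']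
    exact rep_step T _ _ ih

theorem halts_uniform :
    ∃ R : ((ℕ × ℕ × ℕ × ℕ × List (List (ℕ × ℕ × ℕ))) × (List ℕ × List ℕ)) × ℕ → Bool,
    Primrec R ∧ ∀ (T : TM) (d : T.Inp), T.Halts d ↔ ∃ k, R ((T.code, T.inpCode d), k) = true := by
  refine ⟨fun x => decide (((cstep x.1.1.2.2.2)^[x.2] (x.1.1.2.2.1, x.1.2.1, x.1.2.2)).1 =
    x.1.1.2.2.2.1), ?_, ?_⟩
  · have hp : Primrec fun x : ((ℕ × ℕ × ℕ × ℕ × List (List (ℕ × ℕ × ℕ))) ×
        (List ℕ × List ℕ)) × ℕ => x.1.1.2.2.2 :=
      Primrec.snd.comp (Primrec.snd.comp (Primrec.snd.comp (Primrec.fst.comp Primrec.fst)))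
    have hi : Primrec fun x : ((ℕ × ℕ × ℕ × ℕ × List (List (ℕ × ℕ × ℕ))) ×
        (List ℕ × List ℕ)) × ℕ => ((x.1.1.2.2.1, x.1.2.1, x.1.2.2) : Cfg) :=
      Primrec.pair
        (Primrec.fst.comp (Primrec.snd.comp (Primrec.snd.comp (Primrec.fst.comp Primrec.fst))))
        (Primrec.pair (Primrec.fst.comp (Primrec.snd.comp Primrec.fst))
          (Primrec.snd.comp (Primrec.snd.comp Primrec.fst)))
    have hs : Primrec₂ fun (x : ((ℕ × ℕ × ℕ × ℕ × List (List (ℕ × ℕ × ℕ))) ×
        (List ℕ × List ℕ)) × ℕ) (s : Cfg) => cstep x.1.1.2.2.2 s :=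
      cstep_prim.comp (hp.comp Primrec.fst) Primrec.snd
    have hit := Primrec.nat_iterate Primrec.snd hi hs
    exact (Primrec.eq.comp (Primrec.fst.comp hit) (Primrec.fst.comp hp)).decide
  · intro T d
    unfold TM.Halts
    refine exists_congr fun k => ?_
    have h := (rep_iter T d k).1
    simp only [decide_eq_true_eq]
    change _ ↔ ((cstep (T.qh.val, T.code.2.2.2.2))^[k]
      (T.q0.val, (T.inpCode d).1, (T.inpCode d).2)).1 = T.qh.val
    rw [h, Fin.ext_iff]

/-- remove trailing blanks -/
def trim {m : ℕ} (l : List (Fin (m + 1))) : List (Fin (m + 1)) :=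
  l.foldr (fun a acc => if a = 0 ∧ acc = [] then [] else a :: acc) []

theorem trim_cons {m : ℕ} (a : Fin (m + 1)) (l : List (Fin (m + 1))) :
    trim (a :: l) = if a = 0 ∧ trim l = [] then [] else a :: trim l := rfl

theorem trim_prim {m : ℕ} : Primrec (trim (m := m)) := by
  have h1 : PrimrecPred fun x : List (Fin (m + 1)) × (Fin (m + 1) × List (Fin (m + 1))) =>
      x.2.1 = 0 := Primrec.eq.comp (Primrec.fst.comp Primrec.snd) (Primrec.const 0)
  have h2 : PrimrecPred fun x : List (Fin (m + 1)) × (Fin (m + 1) × List (Fin (m + 1))) =>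
      x.2.2 = [] := Primrec.eq.comp (Primrec.snd.comp Primrec.snd) (Primrec.const [])
  have h3 : Primrec₂ fun (_ : List (Fin (m + 1))) (y : Fin (m + 1) × List (Fin (m + 1))) =>
      if y.1 = 0 ∧ y.2 = [] then [] else y.1 :: y.2 :=
    Primrec.ite (h1.and h2) (Primrec.const [])
      (Primrec.list_cons.comp (Primrec.fst.comp Primrec.snd) (Primrec.snd.comp Primrec.snd))
  exact (Primrec.list_foldr Primrec.id (Primrec.const []) h3).of_eq fun l => rfl

theorem trim_getD {m : ℕ} (l : List (Fin (m + 1))) (n : ℕ) : (trim l).getD n 0 = l.getD n 0 := by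
  induction l generalizing n with
  | nil => rfl
  | cons a l ih =>
    rw [trim_cons]
    split_ifs with h
    · cases n with
      | zero => simp [h.1]
      | succ n =>
        have := ih n
        rw [h.2] at this
        simpa using this
    · cases n with
      | zero => simp
      | succ n => simpa using ih n

theorem trim_zero {m : ℕ} (l : List (Fin (m + 1))) (h : ∀ n, l.getD n 0 = 0) : trim l = [] := by
  induction l with
  | nil => rfl
  | cons a l ih =>
    rw [trim_cons, if_pos]
    exact ⟨by simpa using h 0, ih fun n => by simpa using h (n + 1)⟩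

theorem trim_congr {m : ℕ} (l l' : List (Fin (m + 1))) (h : ∀ n, l.getD n 0 = l'.getD n 0) :
    trim l = trim l' := by
  induction l generalizing l' with
  | nil => rw [trim_zero l' fun n => (h n).symm]; rfl
  | cons a l ih =>
    cases l' with
    | nil => rw [trim_zero (a :: l) fun n => h n]; rfl
    | cons b l' =>
      have hab : a = b := by simpa using h 0
      have := ih l' fun n => by simpa using h (n + 1)
      rw [trim_cons, trim_cons, hab, this]

theorem tape_eq_iff (T : TM) (d d' : T.Inp) :
    T.tape d = T.tape d' ↔ (trim d.1, trim d.2) = (trim d'.1, trim d'.2) := by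
  constructor
  · intro h
    have h1 : trim d.1 = trim d'.1 := trim_congr _ _ fun n => congrFun h (Int.negSucc n)
    have h2 : trim d.2 = trim d'.2 := trim_congr _ _ fun n => congrFun h (Int.ofNat n)
    rw [h1, h2]
  · intro h
    obtain ⟨h1, h2⟩ := Prod.mk.inj h
    funext z
    cases z with
    | ofNat n =>
      change d.2.getD n 0 = d'.2.getD n 0
      rw [← trim_getD d.2, h2, trim_getD]
    | negSucc n =>
      change d.1.getD n 0 = d'.1.getD n 0
      rw [← trim_getD d.1, h1, trim_getD]

theorem inpCode_prim (T : TM) : Primrec T.inpCode := by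
  have hv : Primrec₂ fun (_ : T.Inp) (a : Fin (T.nS + 1)) => a.val :=
    Primrec.fin_val.comp Primrec.snd
  exact Primrec.pair (Primrec.list_map Primrec.fst hv) (Primrec.list_map Primrec.snd hv)

theorem halts_enum (T : TM) : ∃ (f : T.Inp → ℕ) (c : ℕ → ℕ), Primrec f ∧ Primrec c ∧
    (∀ d d', T.tape d = T.tape d' → f d = f d') ∧ ∀ d, T.Halts d ↔ ∃ k, c k = f d := by
  obtain ⟨R, hR, hh⟩ := halts_uniform
  let f : T.Inp → ℕ := fun d => Encodable.encode ((trim d.1, trim d.2) : T.Inp) + 1
  have hf : Primrec f := Primrec.succ.comp (Primrec.encode.comp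
    (Primrec.pair (trim_prim.comp Primrec.fst) (trim_prim.comp Primrec.snd)))
  have hfe : ∀ d d', f d = f d' ↔ T.tape d = T.tape d' := by
    intro d d'
    rw [tape_eq_iff]
    simp only [f, add_left_inj, Encodable.encode_inj]
  let g : ℕ → T.Inp → ℕ := fun k d => bif R ((T.code, T.inpCode d), k.unpair.2) then f d else 0
  have hg : Primrec₂ g :=
    Primrec.cond (hR.comp (Primrec.pair
      (Primrec.pair (Primrec.const T.code) ((inpCode_prim T).comp Primrec.snd))
      (Primrec.snd.comp (Primrec.unpair.comp Primrec.fst)))) (hf.comp Primrec.snd)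
      (Primrec.const 0)
  have hd : Primrec fun k : ℕ => (Encodable.decode k.unpair.1 : Option T.Inp) :=
    Primrec.decode.comp (Primrec.fst.comp Primrec.unpair)
  have hc := Primrec.option_casesOn hd (Primrec.const (0 : ℕ) : Primrec fun _ : ℕ => (0 : ℕ)) hg
  refine ⟨f, _, hf, hc, fun d d' h => (hfe d d').2 h, fun d => ?_⟩
  constructor
  · intro h
    obtain ⟨k, hk⟩ := (hh T d).1 h
    refine ⟨Nat.pair (Encodable.encode d) k, ?_⟩
    simp only [Nat.unpair_pair, Encodable.encodek, g, hk, cond_true]
  · rintro ⟨k, hk⟩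
    rcases hdec : (Encodable.decode k.unpair.1 : Option T.Inp) with _ | d'
    · simp only [hdec, f] at hk
      omega
    · simp only [hdec, g] at hk
      rcases hRk : R ((T.code, T.inpCode d'), k.unpair.2) with _ | _
      · simp only [hRk, cond_false, f] at hk
        omega
      · simp only [hRk, cond_true] at hk
        have h1 : T.Halts d' := (hh T d').2 ⟨_, hRk⟩
        have h2 := (hfe d' d).1 hk
        unfold TM.Halts at h1 ⊢
        rw [← h2]
        exact h1

end Pool.Agent.P.MP_9ae58c_an
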