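import Pool.Agent.P.MP_9ae58c_an.Key

/-! Capture and escape phases of the binary. -/

namespace Pool.Agent.P.MP_9ae58c_an

open Set Real

/-- what is used about a reduced orbit, in the clock of the eccentric anomaly -/
structure Orb (M : ℝ) (z v c g t A : ℝ → ℝ) : Prop where
  mot : ∀ b, Mot M z v c g t 0 b
  vb : ∀ u, 0 ≤ u → |v u| ≤ 2000
  hc : ∀ u, 0 ≤ u → c u = ((1 + A u * cos u) / 2) ^ 2
  A1 : ∀ u, 0 ≤ u → 9995 / 10000 ≤ A u
  A2 : ∀ u, 0 ≤ u → A u ≤ 10005 / 10000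
  cl1 : ∀ x y, 0 ≤ x → x ≤ y → (y + A y * sin y) - (x + A x * sin x) ≤ 1001 / 1000 * (t y - t x)
  cl2 : ∀ x y, 0 ≤ x → x ≤ y → 999 / 1000 * (t y - t x) ≤ (y + A y * sin y) - (x + A x * sin x)

variable {M : ℝ} {z v c g t A : ℝ → ℝ}

theorem Orb.sign (h : Orb M z v c g t A) {σ : ℝ} (hσ : σ ^ 2 = 1) :
    Orb M (fun u => σ * z u) (fun u => σ * v u) c g t A := by
  refine ⟨fun b => (h.mot b).sign hσ, fun u hu => ?_, h.hc, h.A1, h.A2, h.cl1, h.cl2⟩
  have : |σ| = 1 := by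
    rcases sq_eq_one_iff.1 hσ with h1 | h1 <;> simp [h1]
  rw [abs_mul, this, one_mul]
  exact h.vb u hu

theorem Orb.neg (h : Orb M z v c g t A) : Orb M (fun u => -z u) (fun u => -v u) c g t A := by
  simpa using h.sign (σ := -1) (by norm_num)

theorem Orb.on (h : Orb M z v c g t A) {a : ℝ} (ha : 0 ≤ a) (b : ℝ) : Mot M z v c g t a b :=
  (h.mot b).mono ha le_rfl

theorem cos_ge_half {x : ℝ} (j : ℕ) (h1 : -(π / 3) + j * (2 * π) ≤ x) (h2 : x ≤ π / 3 + j * (2 * π)) :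
    1 / 2 ≤ cos x := by
  rw [← cos_sub_nat_mul_two_pi x j, ← cos_abs, ← cos_pi_div_three]
  refine cos_le_cos_of_nonneg_of_le_pi (abs_nonneg _) (by linarith [pi_pos]) ?_
  rw [abs_le]; constructor <;> linarith

theorem cos_le_half {x : ℝ} (j : ℕ) (h1 : π / 3 + j * (2 * π) ≤ x)
    (h2 : x ≤ 5 * π / 3 + j * (2 * π)) : cos x ≤ 1 / 2 := by
  rw [← cos_sub_nat_mul_two_pi x j, ← cos_pi_div_three]
  rcases le_total (x - j * (2 * π)) π with h | h
  · exact cos_le_cos_of_nonneg_of_le_pi (by linarith [pi_pos]) h (by linarith)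
  · rw [← cos_two_pi_sub]
    exact cos_le_cos_of_nonneg_of_le_pi (by linarith [pi_pos]) (by linarith) (by linarith)

theorem cos_le_zero {x : ℝ} (j : ℕ) (h1 : π / 2 + j * (2 * π) ≤ x)
    (h2 : x ≤ 3 * π / 2 + j * (2 * π)) : cos x ≤ 0 := by
  rw [← cos_sub_nat_mul_two_pi x j]
  exact cos_nonpos_of_pi_div_two_le_of_le (by linarith) (by linarith)

theorem Orb.c_ge (h : Orb M z v c g t A) {u : ℝ} (hu : 0 ≤ u) (hc : 1 / 2 ≤ cos u) :
    562 / 1000 ≤ c u := by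
  rw [h.hc u hu]
  have h1 := h.A1 u hu
  have : 7498 / 10000 ≤ (1 + A u * cos u) / 2 := by nlinarith
  nlinarith

theorem Orb.r_ge (h : Orb M z v c g t A) {u : ℝ} (hu : 0 ≤ u) :
    -(1 / 1000) ≤ (1 + A u * cos u) / 2 := by
  have h1 := h.A1 u hu
  have h2 := h.A2 u hu
  nlinarith [neg_one_le_cos u]

theorem Orb.c_le (h : Orb M z v c g t A) {u : ℝ} (hu : 0 ≤ u) (hc : cos u ≤ 1 / 2) :
    c u ≤ 563 / 1000 := by
  rw [h.hc u hu]
  have h1 := h.A1 u hu
  have h2 := h.A2 u hu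
  have h3 := h.r_ge hu
  have : (1 + A u * cos u) / 2 ≤ 7502 / 10000 := by nlinarith
  nlinarith

theorem Orb.c_le' (h : Orb M z v c g t A) {u : ℝ} (hu : 0 ≤ u) (hc : cos u ≤ 0) :
    c u ≤ 2501 / 10000 := by
  rw [h.hc u hu]
  have h1 := h.A1 u hu
  have h3 := h.r_ge hu
  have : (1 + A u * cos u) / 2 ≤ 1 / 2 := by nlinarith
  nlinarith

theorem sqrt3_bounds : 866 / 1000 ≤ √3 / 2 ∧ √3 / 2 ≤ 8661 / 10000 := by
  have h1 : (1732 / 1000 : ℝ) ≤ √3 := Real.le_sqrt_of_sq_le (by norm_num)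
  have h2 : √3 ≤ (17322 / 10000 : ℝ) := Real.sqrt_le_iff.2 ⟨by norm_num, by norm_num⟩
  constructor <;> linarith

theorem sin_a (j : ℕ) : sin (π / 3 + j * (2 * π)) = √3 / 2 := by
  rw [sin_add_nat_mul_two_pi, sin_pi_div_three]

theorem sin_b (j : ℕ) : sin (-(π / 3) + j * (2 * π)) = -(√3 / 2) := by
  rw [sin_add_nat_mul_two_pi, sin_neg, sin_pi_div_three]

theorem sin_c (j : ℕ) : sin (π / 2 + j * (2 * π)) = 1 := by
  rw [sin_add_nat_mul_two_pi, sin_pi_div_two]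

theorem sin_d (j : ℕ) : sin (3 * π / 2 + j * (2 * π)) = -1 := by
  rw [sin_add_nat_mul_two_pi, show 3 * π / 2 = π / 2 + π by ring, sin_add_pi, sin_pi_div_two]

theorem sin_e (j : ℕ) : sin (5 * π / 3 + j * (2 * π)) = -(√3 / 2) := by
  rw [← sin_b (j + 1)]
  congr 1
  push_cast
  ring

theorem Orb.time1 (h : Orb M z v c g t A) (j : ℕ) (h0 : 0 ≤ -(π / 3) + j * (2 * π)) :
    38 / 10 ≤ t (π / 3 + j * (2 * π)) - t (-(π / 3) + j * (2 * π)) := by
  have h1 := h.cl1 _ (π / 3 + j * (2 * π)) h0 (by linarith [pi_pos])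
  rw [sin_a, sin_b] at h1
  have h2 := h.A1 _ h0
  have h3 := h.A1 (π / 3 + j * (2 * π)) (by linarith [pi_pos])
  obtain ⟨h4, -⟩ := sqrt3_bounds
  have h5 := pi_gt_d4
  nlinarith

theorem two_pi_nonneg (j : ℕ) : 0 ≤ (j : ℝ) * (2 * π) := by positivity

theorem Orb.time2 (h : Orb M z v c g t A) (j : ℕ) :
    t (5 * π / 3 + j * (2 * π)) - t (3 * π / 2 + j * (2 * π)) ≤ 66 / 100 ∧
    179 / 100 ≤ t (5 * π / 3 + j * (2 * π)) - t (π / 2 + j * (2 * π)) ∧
    t (π / 2 + j * (2 * π)) - t (π / 3 + j * (2 * π)) ≤ 66 / 100 ∧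
    179 / 100 ≤ t (3 * π / 2 + j * (2 * π)) - t (π / 3 + j * (2 * π)) := by
  have hj := two_pi_nonneg j
  have hp := pi_pos
  have p1 : 0 ≤ π / 3 + j * (2 * π) := by linarith
  have p2 : 0 ≤ π / 2 + j * (2 * π) := by linarith
  have p3 : 0 ≤ 3 * π / 2 + j * (2 * π) := by linarith
  have p4 : 0 ≤ 5 * π / 3 + j * (2 * π) := by linarith
  have h1 := h.cl2 _ (5 * π / 3 + j * (2 * π)) p3 (by linarith)
  have h2 := h.cl1 _ (5 * π / 3 + j * (2 * π)) p2 (by linarith)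
  have h3 := h.cl2 _ (π / 2 + j * (2 * π)) p1 (by linarith)
  have h4 := h.cl1 _ (3 * π / 2 + j * (2 * π)) p1 (by linarith)
  rw [sin_e, sin_d] at h1
  rw [sin_e, sin_c] at h2
  rw [sin_a, sin_c] at h3
  rw [sin_a, sin_d] at h4
  obtain ⟨s1, s2⟩ := sqrt3_bounds
  have q1 := pi_gt_d4
  have q2 := pi_lt_d4
  have a1 := h.A1 _ p1
  have a2 := h.A2 _ p1
  have a3 := h.A2 _ p2
  have a4 := h.A2 _ p3
  have a5 := h.A1 _ p4
  have a6 := h.A2 _ p4
  have b1 : 9995 / 10000 * (866 / 1000) ≤ A (π / 3 + j * (2 * π)) * (√3 / 2) := by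
    gcongr
  have b2 : A (π / 3 + j * (2 * π)) * (√3 / 2) ≤ 10005 / 10000 * (8661 / 10000) := by gcongr
  have b3 : 9995 / 10000 * (866 / 1000) ≤ A (5 * π / 3 + j * (2 * π)) * (√3 / 2) := by
    gcongr
  have b4 : A (5 * π / 3 + j * (2 * π)) * (√3 / 2) ≤ 10005 / 10000 * (8661 / 10000) := by gcongr
  refine ⟨?_, ?_, ?_, ?_⟩ <;> linarith

theorem Orb.top (h : Orb M z v c g t A) {τ ρ : ℝ} (hτ : 0 ≤ τ) (he : Exc z v τ ρ)
    (hl : 10 ^ 14 ≤ ρ - τ) : ∃ w ∈ Icc τ ρ, v w = 0 ∧ (∀ u ∈ Icc w ρ, v u ≤ 0) ∧ 1000 ≤ z w := by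
  obtain ⟨w, hw, h1, -, h2, h3, h4, -⟩ := (h.on hτ ρ).top he (by linarith)
    fun u hu => h.vb u (hτ.trans hu.1)
  refine ⟨w, hw, h1, h2, ?_⟩
  have h5 := he.nonneg w hw
  by_contra hn
  have h6 := not_le.1 hn
  have h7 : z w ^ 2 ≤ 1000 ^ 2 := pow_le_pow_left₀ h5 h6.le 2
  rw [div_le_iff₀ (by norm_num)] at h4
  linarith

/-- after a long excursion ending at the escape phase the body never comes back -/
theorem Orb.keyP (h : Orb M z v c g t A) {τ : ℝ} (hτ : 0 ≤ τ) (j : ℕ)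
    (he : Exc z v τ (5 * π / 3 + j * (2 * π))) (hl : 10 ^ 14 ≤ 5 * π / 3 + j * (2 * π) - τ) :
    ∀ u, 5 * π / 3 + j * (2 * π) ≤ u → v u < 0 := by
  set ρ := 5 * π / 3 + j * (2 * π) with hρ
  obtain ⟨w, hw, -, h2, h3⟩ := h.top hτ he hl
  have hp := pi_pos
  have hp4 := pi_lt_d4
  have hj := two_pi_nonneg j
  obtain ⟨t1, t2, -, -⟩ := h.time2 j
  have hB := (h.on (hτ.trans hw.1) ρ).rev.bwd (by linarith [hw.2])
    (La := -(3 * π / 2 + j * (2 * π))) (Lb := -(π / 2 + j * (2 * π)))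
    (by linarith) (by linarith) (by linarith) (by simpa using he.z1)
    (fun u hu => neg_nonneg.2 (h2 _ ⟨by linarith [hu.2], by linarith [hu.1]⟩))
    (by simpa using h3)
    (fun u hu => h.c_le (by linarith [hu.2])
      (cos_le_half j (by linarith [hu.2]) (by linarith [hu.1])))
    (fun u hu => h.c_le' (by linarith [hu.2])
      (cos_le_zero j (by linarith [hu.2]) (by linarith [hu.1])))
    (by simp only [neg_neg]; linarith) (by simp only [neg_neg]; linarith)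
  intro u hu
  have e1 : ρ = -(π / 3) + ((j + 1 : ℕ) : ℝ) * (2 * π) := by rw [hρ]; push_cast; ring
  have t3 := h.time1 (j + 1) (by rw [← e1]; linarith)
  have hF := (h.neg.on (a := ρ) (by linarith) u).fwd (L := π / 3 + ((j + 1 : ℕ) : ℝ) * (2 * π))
    (Z := 29 / 10) (T := 38 / 10) (by rw [e1]; linarith) (by simpa using he.z1)
    (by linarith [he.v1])
    (fun x hx => h.c_ge (by linarith [hx.1]) (cos_ge_half (j + 1) (by rw [← e1]; exact hx.1) hx.2))
    (by rw [e1]; exact t3) (by norm_num) (by norm_num) (by norm_num)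
    (by simpa [En, he.z1] using hB)
  linarith [hF u ⟨hu, le_rfl⟩]

/-- after a long excursion ending at the capture phase the next excursion is short -/
theorem Orb.keyM (h : Orb M z v c g t A) {τ : ℝ} (hτ : 0 ≤ τ) (j : ℕ)
    (he : Exc z v τ (π / 3 + j * (2 * π))) (hl : 10 ^ 14 ≤ π / 3 + j * (2 * π) - τ) :
    ∃ u ∈ Icc (π / 3 + j * (2 * π)) (π / 3 + j * (2 * π) + 10 ^ 13), max (-z u) (-v u) < 0 := by
  set ρ := π / 3 + j * (2 * π) with hρ
  obtain ⟨w, hw, h1, -, -⟩ := h.top hτ he hl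
  have hp := pi_pos
  have hp4 := pi_lt_d4
  have hj := two_pi_nonneg j
  obtain ⟨-, -, t1, t2⟩ := h.time2 j
  refine (h.neg.on (a := ρ) (by linarith) _).short (by simpa using he.z1) (by linarith [he.v1])
    fun L hL hv => ?_
  by_contra hn
  have hB := (h.neg.on (a := ρ) (by linarith) L).bwd hL.1
    (La := π / 2 + j * (2 * π)) (Lb := 3 * π / 2 + j * (2 * π))
    (by linarith) (by linarith) (by linarith) (by simpa using he.z1) hv (not_lt.1 hn)
    (fun u hu => h.c_le (by linarith [hu.1]) (cos_le_half j hu.1 (by linarith [hu.2])))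
    (fun u hu => h.c_le' (by linarith [hu.1]) (cos_le_zero j hu.1 hu.2)) t1 t2
  have h0 : 0 ≤ -(π / 3) + j * (2 * π) := by linarith
  have t3 := h.time1 j h0
  have hF := (h.on (hτ.trans hw.1) ρ).rev.fwd (L := -(-(π / 3) + j * (2 * π)))
    (Z := 29 / 10) (T := 38 / 10) (by linarith) (by simpa using he.z1)
    (by simp only [neg_neg]; linarith [he.v1])
    (fun x hx => h.c_ge (by linarith [hx.2])
      (cos_ge_half j (by linarith [hx.2]) (by linarith [hx.1])))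
    (by simp only [neg_neg]; linarith) (by norm_num) (by norm_num) (by norm_num)
    (by simpa [En, he.z1] using hB)
  have := hF (-w) ⟨by linarith [hw.2], le_rfl⟩
  simp [h1] at this

theorem Orb.first_short (h : Orb M z v c g t A) (hz : z 0 = 0) (hv : v 0 = 1) :
    ∃ u ∈ Icc 0 (0 + 10 ^ 13), max (z u) (v u) < 0 := by
  refine (h.mot _).short hz (by rw [hv]; norm_num) fun L hL hv' => ?_
  by_contra hn
  have h1 := (h.mot L).high hz.ge hv' (not_lt.1 hn) 0 ⟨le_rfl, hL.1⟩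
  have h2 : 1 / (1001 / 1000) ≤ Wd 0 (1001 / 1000) :=
    Wd_ge_of (by norm_num) (by norm_num) (by norm_num)
  have h3 : (1 : ℝ) ^ 2 / (2 * M) ≤ 1 ^ 2 / 2 := by
    have := (h.mot 0).M1
    gcongr
    linarith
  unfold En at h1
  rw [hz, hv] at h1
  norm_num at h1 h2 h3
  linarith

theorem Orb.first_long (h : Orb M z v c g t A) (hz : z 0 = 0) (hv : v 0 = 2) :
    ∀ u, 0 ≤ u → 0 < v u := by
  intro u hu
  have hp := pi_pos
  have h1 := h.cl1 0 (π / 3) le_rfl (by linarith)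
  rw [sin_pi_div_three, sin_zero] at h1
  have h2 := h.A1 (π / 3) (by linarith)
  obtain ⟨s1, -⟩ := sqrt3_bounds
  have h3 := pi_gt_d4
  have b1 : 9995 / 10000 * (866 / 1000) ≤ A (π / 3) * (√3 / 2) := by
    gcongr
  refine (h.mot u).fwd (L := π / 3) (Z := 19 / 10) (T := 19 / 10) (by linarith) hz
    (by rw [hv]; norm_num)
    (fun x hx => h.c_ge hx.1 (cos_ge_half 0 (by simp; linarith [hx.1]) (by simpa using hx.2)))
    (by linarith) (by norm_num) (by norm_num) (by norm_num) ?_ u ⟨hu, le_rfl⟩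
  have w1 : Wd 0 (562 / 1000) ≤ 1 / (7496 / 10000) := Wd_le_of (by norm_num) (by norm_num)
  have w2 := Wd_pos (19 / 10) (c := 562 / 1000) (by norm_num)
  have w3 : 199 / 100 ≤ (2 : ℝ) ^ 2 / (2 * M) := by
    have h4 := (h.mot 0).M1
    have h5 := (h.mot 0).M2
    rw [le_div_iff₀ (by linarith)]
    linarith
  unfold En
  rw [hz, hv]
  norm_num at w1 w3 ⊢
  linarith

end Pool.Agent.P.MP_9ae58c_an
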