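import Pool.Agent.P.MP_9ae58c_an.Num
import Pool.Agent.P.MP_9ae58c_an.Orb

/-! The clipped vector field of the reduced isosceles problem in the eccentric anomaly clock. -/

namespace Pool.Agent.P.MP_9ae58c_an

open Set

/-- mass ratio of the third body -/
noncomputable def mu : ℝ := 1 / 10 ^ 12

/-- reduced mass ratio -/
noncomputable def nu : ℝ := mu / (1 + mu)

/-- clip to `[-R, R]` -/
noncomputable def clip (R : ℕ) (a : ℝ) : ℝ := max (-(R : ℝ)) (min (R : ℝ) a)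

/-- energy constant -/
noncomputable def kk (s : ℝ) : ℝ := 4 / 10 ^ 6 * (s * s) + 4 * nu * (s * s) - 8 * mu

/-- the perturbation -/
noncomputable def xiR (r W v s : ℝ) : ℝ :=
  kk s - 4 * nu * (v * v) + 8 * mu * W - 4 * mu * (r * r * (W * W * W))

/-- the speed factor -/
noncomputable def qR (r W x y v s : ℝ) : ℝ :=
  (x * x + y * y) * (1 / max (x * x + y * y + 2 * (r * x * xiR r W v s)) (1 / 2))

/-- clipped first coordinate -/
noncomputable def xh (Y : Fin 5 → ℝ) : ℝ := min (1 - 2 / 10 ^ 6) (clip 2 (Y 0))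

/-- clipped radius -/
noncomputable def rh (Y : Fin 5 → ℝ) : ℝ := 1 / 2 * (1 - xh Y)

/-- inverse distance -/
noncomputable def Wh (Y : Fin 5 → ℝ) : ℝ := 1 / √(Y 2 ^ 2 + rh Y ^ 2)

/-- clipped perturbation -/
noncomputable def xih (Y : Fin 5 → ℝ) : ℝ := xiR (rh Y) (Wh Y) (clip 2000 (Y 3)) (clip 2 (Y 4))

/-- clipped speed factor -/
noncomputable def qh (Y : Fin 5 → ℝ) : ℝ :=
  qR (rh Y) (Wh Y) (xh Y) (clip 2 (Y 1)) (clip 2000 (Y 3)) (clip 2 (Y 4))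

/-- time speed -/
noncomputable def gh (Y : Fin 5 → ℝ) : ℝ := 2 * (qh Y * rh Y)

/-- the clipped field -/
noncomputable def Fld : Fin 5 → (Fin 5 → ℝ) → ℝ :=
  ![fun Y => -(qh Y * clip 2 (Y 1)), fun Y => qh Y * (xh Y + 2 * (rh Y * xih Y)),
    fun Y => gh Y * clip 2000 (Y 3),
    fun Y => -(gh Y * ((1 + mu) * (Y 2 / √(Y 2 ^ 2 + rh Y ^ 2) * (Wh Y * Wh Y)))), fun _ => 0]

theorem Good.rat {d : ℕ} (a b : ℕ) {c : ℝ} (h : c = (a : ℝ) / b) : Good (d := d) (fun _ => c) :=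
  h ▸ Good.const a b

theorem Good.sub {d : ℕ} {g h : (Fin d → ℝ) → ℝ} (hg : Good g) (hh : Good h) :
    Good (fun x => g x - h x) := by
  simpa only [sub_eq_add_neg] using hg.add hh.neg

theorem Good.continuous {d : ℕ} {g : (Fin d → ℝ) → ℝ} (hg : Good g) : Continuous g := by
  obtain ⟨K, -, h, -⟩ := hg
  exact (LipschitzWith.of_dist_le_mul (K := K) fun x y => by simpa [Real.dist_eq] using h x y).continuous

theorem good_clip (i : Fin 5) (R : ℕ) : Good (fun Y : Fin 5 → ℝ => clip R (Y i)) := Good.coord i R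

theorem good_xh : Good xh :=
  (Good.rat 999998 1000000 (by norm_num)).min (good_clip 0 2)

theorem good_rh : Good rh :=
  (Good.rat 1 2 (by norm_num)).mul ((Good.rat 1 1 (by norm_num)).sub good_xh)

theorem rh_ge (Y : Fin 5 → ℝ) : 1 / ((1000000 : ℕ) : ℝ) ≤ rh Y := by
  have : xh Y ≤ 1 - 2 / 10 ^ 6 := min_le_left _ _
  unfold rh
  norm_num at this ⊢
  linarith

theorem good_Wh : Good Wh := Good.invNorm 2 good_rh 1000000 (by norm_num) rh_ge

theorem good_xih : Good xih := by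
  have c1 : Good (d := 5) (fun _ => 4 / 10 ^ 6) := Good.rat 4 1000000 (by norm_num)
  have c2 : Good (d := 5) (fun _ => 4 * nu) := Good.rat 4 1000000000001 (by norm_num [nu, mu])
  have c3 : Good (d := 5) (fun _ => 8 * mu) := Good.rat 8 1000000000000 (by norm_num [mu])
  have c4 : Good (d := 5) (fun _ => 4 * mu) := Good.rat 4 1000000000000 (by norm_num [mu])
  have hs := good_clip 4 2
  have hv := good_clip 3 2000
  exact (((((c1.mul (hs.mul hs)).add (c2.mul (hs.mul hs))).sub c3).sub (c2.mul (hv.mul hv))).add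
    (c3.mul good_Wh)).sub (c4.mul ((good_rh.mul good_rh).mul ((good_Wh.mul good_Wh).mul good_Wh)))

theorem good_qh : Good qh := by
  have hy := good_clip 1 2
  have hP := (good_xh.mul good_xh).add (hy.mul hy)
  have c2 : Good (d := 5) (fun _ => 2) := Good.rat 2 1 (by norm_num)
  have c3 : Good (d := 5) (fun _ => 1 / 2) := Good.rat 1 2 (by norm_num)
  exact hP.mul (((hP.add (c2.mul ((good_rh.mul good_xh).mul good_xih))).max c3).inv 2 (by norm_num)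
    fun x => by simp)

theorem good_gh : Good gh := (Good.rat 2 1 (by norm_num)).mul (good_qh.mul good_rh)

theorem good_Fld (i : Fin 5) : Good (Fld i) := by
  have c2 : Good (d := 5) (fun _ => 2) := Good.rat 2 1 (by norm_num)
  have c3 : Good (d := 5) (fun _ => 1 + mu) :=
    Good.rat 1000000000001 1000000000000 (by norm_num [mu])
  fin_cases i
  · exact (good_qh.mul (good_clip 1 2)).neg
  · exact good_qh.mul (good_xh.add (c2.mul (good_rh.mul good_xih)))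
  · exact good_gh.mul (good_clip 3 2000)
  · exact (good_gh.mul (c3.mul ((Good.dirNorm 2 good_rh 1000000 (by norm_num) rh_ge).mul
      (good_Wh.mul good_Wh)))).neg
  · exact Good.rat (c := 0) 0 1 (by norm_num)

theorem clip_eq {R : ℕ} {a : ℝ} (h : |a| ≤ R) : clip R a = a := by
  rw [abs_le] at h
  rw [clip, min_eq_right h.2, max_eq_right h.1]

/-- the region where no clipping is active -/
structure In (Y : Fin 5 → ℝ) : Prop where
  x1 : -2 ≤ Y 0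
  x2 : Y 0 ≤ 1 - 2 / 10 ^ 6
  y : |Y 1| ≤ 2
  v : |Y 3| ≤ 2000
  hP : 9 / 10 ≤ Y 0 * Y 0 + Y 1 * Y 1
  s1 : 1 ≤ Y 4
  s2 : Y 4 ≤ 2

theorem mu_pos : 0 < mu := by unfold mu; norm_num

theorem nu_bounds : 0 < nu ∧ nu ≤ 1 / 10 ^ 12 := by
  unfold nu mu; constructor <;> norm_num

theorem nu_mul : nu * (1 + mu) = mu := by
  unfold nu mu; norm_num

variable {Y : Fin 5 → ℝ}

theorem In.xh_eq (h : In Y) : xh Y = Y 0 := by
  have h1 := h.x1
  have h2 := h.x2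
  rw [xh, clip_eq (by rw [abs_le]; constructor <;> norm_num at * <;> linarith), min_eq_right h2]

theorem In.rh_eq (h : In Y) : rh Y = (1 - Y 0) / 2 := by rw [rh, h.xh_eq]; ring

theorem In.cy (h : In Y) : clip 2 (Y 1) = Y 1 := clip_eq (by simpa using h.y)

theorem In.cv (h : In Y) : clip 2000 (Y 3) = Y 3 := clip_eq (by simpa using h.v)

theorem In.cs (h : In Y) : clip 2 (Y 4) = Y 4 :=
  clip_eq (by rw [abs_le]; constructor <;> norm_num <;> linarith [h.s1, h.s2])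

theorem Wh_eq (Y : Fin 5 → ℝ) : Wh Y = Wd (Y 2) (rh Y ^ 2) := rfl

theorem rh_ge' (Y : Fin 5 → ℝ) : 1 / 10 ^ 6 ≤ rh Y := by
  have := rh_ge Y
  norm_num at this ⊢
  linarith

theorem rh_pos (Y : Fin 5 → ℝ) : 0 < rh Y := lt_of_lt_of_le (by norm_num) (rh_ge' Y)

theorem Wh_pos (Y : Fin 5 → ℝ) : 0 < Wh Y := Wd_pos _ (pow_pos (rh_pos Y) 2)

theorem Wh_le (Y : Fin 5 → ℝ) : rh Y * Wh Y ≤ 1 ∧ Wh Y ≤ 10 ^ 6 := by
  have h1 : Wh Y ≤ 1 / rh Y := Wd_le_of (rh_pos Y) (by nlinarith [sq_nonneg (Y 2)])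
  have h2 := rh_pos Y
  rw [le_div_iff₀ h2] at h1
  refine ⟨by linarith, ?_⟩
  nlinarith [rh_ge' Y, Wh_pos Y]

/-- the conserved combination -/
noncomputable def zeh (Y : Fin 5 → ℝ) : ℝ := kk (Y 4) - 4 * nu * (Y 3 * Y 3) + 8 * mu * Wh Y

theorem In.xih_eq (h : In Y) :
    xih Y = zeh Y - 4 * mu * (rh Y * rh Y * (Wh Y * Wh Y * Wh Y)) := by
  rw [xih, xiR, zeh, h.cv, h.cs]

theorem In.zeh_bd (h : In Y) : -(17 / 10 ^ 6) ≤ zeh Y ∧ zeh Y ≤ 25 / 10 ^ 6 := by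
  obtain ⟨n1, n2⟩ := nu_bounds
  obtain ⟨-, w2⟩ := Wh_le Y
  have w1 := Wh_pos Y
  have hv : Y 3 * Y 3 ≤ 2000 * 2000 := by
    have := abs_le.1 h.v
    nlinarith
  have hs : Y 4 * Y 4 ≤ 4 := by nlinarith [h.s1, h.s2]
  have hs0 : 0 ≤ Y 4 * Y 4 := mul_self_nonneg _
  have a1 : nu * (Y 3 * Y 3) ≤ 1 / 10 ^ 12 * (2000 * 2000) := by
    gcongr
    exact mul_self_nonneg _
  have a2 : 0 ≤ nu * (Y 3 * Y 3) := mul_nonneg n1.le (mul_self_nonneg _)
  have a3 : nu * (Y 4 * Y 4) ≤ 1 / 10 ^ 12 * 4 := by gcongr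
  have a4 : 0 ≤ nu * (Y 4 * Y 4) := mul_nonneg n1.le hs0
  unfold zeh kk mu
  constructor <;> nlinarith

theorem In.xih_bd (h : In Y) : |xih Y| ≤ 25 / 10 ^ 6 := by
  obtain ⟨z1, z2⟩ := h.zeh_bd
  obtain ⟨w1, w2⟩ := Wh_le Y
  have w0 := Wh_pos Y
  have r0 := rh_pos Y
  have a1 : rh Y * rh Y * (Wh Y * Wh Y * Wh Y) ≤ 10 ^ 6 := by
    have e : rh Y * rh Y * (Wh Y * Wh Y * Wh Y) = (rh Y * Wh Y) * (rh Y * Wh Y) * Wh Y := by ring
    rw [e]
    have : (rh Y * Wh Y) * (rh Y * Wh Y) ≤ 1 := by nlinarith [mul_pos r0 w0]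
    nlinarith
  have a2 : 0 ≤ rh Y * rh Y * (Wh Y * Wh Y * Wh Y) := by positivity
  rw [h.xih_eq, abs_le]
  unfold mu
  constructor <;> nlinarith

theorem In.rh_le (h : In Y) : rh Y ≤ 3 / 2 := by rw [h.rh_eq]; linarith [h.x1]

theorem In.pert (h : In Y) : |2 * (rh Y * Y 0 * xih Y)| ≤ 15 / 10 ^ 5 := by
  have h1 := h.xih_bd
  have h2 : |Y 0| ≤ 2 := abs_le.2 ⟨h.x1, by linarith [h.x2]⟩
  have h3 := h.rh_le
  have h4 := rh_pos Y
  rw [abs_mul, abs_mul, abs_mul, abs_of_pos h4, abs_two]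
  have : rh Y * |Y 0| * |xih Y| ≤ 3 / 2 * 2 * (25 / 10 ^ 6) := by gcongr
  linarith

theorem In.qh_mul (h : In Y) :
    qh Y * (Y 0 * Y 0 + Y 1 * Y 1 + 2 * (rh Y * Y 0 * xih Y)) = Y 0 * Y 0 + Y 1 * Y 1 := by
  have h1 := abs_le.1 h.pert
  have h2 := h.hP
  have h3 : 1 / 2 ≤ Y 0 * Y 0 + Y 1 * Y 1 + 2 * (rh Y * Y 0 * xih Y) := by linarith
  have e : qh Y = (Y 0 * Y 0 + Y 1 * Y 1) *
      (1 / (Y 0 * Y 0 + Y 1 * Y 1 + 2 * (rh Y * Y 0 * xih Y))) := by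
    rw [qh, qR, h.xh_eq, h.cy, ← xih, max_eq_left h3]
  rw [e, mul_assoc, one_div_mul_cancel (by linarith), mul_one]

theorem In.qh_bd (h : In Y) : 999 / 1000 ≤ qh Y ∧ qh Y ≤ 1001 / 1000 := by
  have h1 := abs_le.1 h.pert
  have h2 := h.hP
  have h3 := h.qh_mul
  set P := Y 0 * Y 0 + Y 1 * Y 1
  set e := 2 * (rh Y * Y 0 * xih Y)
  have h4 : 0 < P + e := by linarith
  constructor
  · by_contra hn
    have := mul_lt_mul_of_pos_right (not_le.1 hn) h4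
    linarith
  · by_contra hn
    have := mul_lt_mul_of_pos_right (not_le.1 hn) h4
    linarith

theorem In.gh_bd (h : In Y) (r2 : rh Y ≤ 1001 / 1000) : 1 / 10 ^ 6 ≤ gh Y ∧ gh Y ≤ 3 := by
  obtain ⟨q1, q2⟩ := h.qh_bd
  have r1 := rh_ge' Y
  unfold gh
  constructor <;> nlinarith

theorem In.F0 (h : In Y) : Fld 0 Y = -(qh Y * Y 1) := by
  change -(qh Y * clip 2 (Y 1)) = _
  rw [h.cy]

theorem In.F1 (h : In Y) : Fld 1 Y = qh Y * (Y 0 + 2 * (rh Y * xih Y)) := by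
  change qh Y * (xh Y + 2 * (rh Y * xih Y)) = _
  rw [h.xh_eq]

theorem In.F2 (h : In Y) : Fld 2 Y = gh Y * Y 3 := by
  change gh Y * clip 2000 (Y 3) = _
  rw [h.cv]

theorem F3 (Y : Fin 5 → ℝ) : Fld 3 Y = -(gh Y * (1 + mu) * Y 2 * Wd (Y 2) (rh Y ^ 2) ^ 3) := by
  change -(gh Y * ((1 + mu) * (Y 2 / √(Y 2 ^ 2 + rh Y ^ 2) * (Wh Y * Wh Y)))) = _
  rw [Wh_eq]
  unfold Wd
  ring

theorem F4 (Y : Fin 5 → ℝ) : Fld 4 Y = 0 := rfl

end Pool.Agent.P.MP_9ae58c_an
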