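import Pool.Agent.P.MP_9ae58c_an.Mot

/-! The passage estimates and the structure of excursions. -/

namespace Pool.Agent.P.MP_9ae58c_an

open Set

variable {M : ℝ} {z v c g t : ℝ → ℝ} {a b : ℝ}

theorem Mot.fwd (h : Mot M z v c g t a b) {L Z T : ℝ} (hL : a ≤ L) (hz0 : z a = 0) (hv0 : 0 ≤ v a)
    (hc : ∀ u ∈ Icc a L, 562 / 1000 ≤ c u) (hT : T ≤ t L - t a) (hZ : 0 < Z) (hT0 : 0 ≤ T)
    (hZT : Z ^ 3 ≤ 2 * T ^ 2) (hE : 1 / Z ≤ En M (562 / 1000) z v a + Wd Z (562 / 1000)) :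
    ∀ u ∈ Icc a b, 0 < v u := by
  have hκ : (0 : ℝ) < 562 / 1000 := by norm_num
  have hWZ : ∀ κ : ℝ, 0 ≤ κ → Wd Z κ ≤ 1 / Z := fun κ hk => Wd_le_of hZ (by linarith)
  have hE0 : 0 ≤ En M (562 / 1000) z v a := by linarith [hWZ _ hκ.le]
  rcases le_total b L with hb | hb
  · exact h.escape hκ (fun u hu => hc u ⟨hu.1, hu.2.trans hb⟩) hz0.ge hv0 hE0
  have h' := h.mono le_rfl hb
  have hv1 := h'.escape hκ hc hz0.ge hv0 hE0
  have hmono : ∀ x y, a ≤ x → x ≤ y → y ≤ L → z x ≤ z y := fun x y h1 h2 h3 =>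
    (h'.mono h1 h3).z_mono h2 fun u hu => (hv1 u ⟨h1.trans hu.1, hu.2.trans h3⟩).le
  have hz : ∀ u ∈ Icc a L, 0 ≤ z u := fun u hu => hz0 ▸ hmono a u le_rfl hu.1 hu.2
  have hen : ∀ u ∈ Icc a L, En M (562 / 1000) z v a ≤ En M (562 / 1000) z v u := fun u hu =>
    (h'.mono le_rfl hu.2).en_mono hu.1 hκ
      (fun x hx => mul_nonneg (hz x ⟨hx.1, hx.2.trans hu.2⟩) (hv1 x ⟨hx.1, hx.2.trans hu.2⟩).le)
      fun x hx => hc x ⟨hx.1, hx.2.trans hu.2⟩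
  have hM : 0 < 2 * M := by linarith [h.M1]
  have hsp : ∀ u ∈ Icc a L, z u ≤ Z → 1 / Z ≤ v u ^ 2 / (2 * M) := fun u hu hle => by
    have h1 := hen u hu
    have h2 : Wd Z (562 / 1000) ≤ Wd (z u) (562 / 1000) :=
      Wd_le hκ (pow_le_pow_left₀ (hz u hu) hle 2)
    unfold En at h1 hE
    linarith
  have hZL : Z ≤ z L := by
    by_contra hn
    have hlt := not_le.1 hn
    have hw : ∀ u ∈ Icc a L, √(2 / Z) ≤ v u := fun u hu => by
      have h1 := hsp u hu ((hmono u L hu.1 hu.2 le_rfl).trans hlt.le)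
      rw [le_div_iff₀ hM] at h1
      refine Real.sqrt_le_iff.2 ⟨(hv1 u hu).le, ?_⟩
      have h2 : 2 / Z = 1 / Z * 2 := by ring
      have h3 : 0 < 1 / Z := by positivity
      nlinarith [h.M1]
    have h1 := h'.z_ge hL hw
    have h2 : Z ≤ √(2 / Z) * T := by
      refine (pow_le_pow_iff_left₀ hZ.le (by positivity) two_ne_zero).1 ?_
      rw [mul_pow, Real.sq_sqrt (by positivity), div_mul_eq_mul_div, le_div_iff₀ hZ]
      nlinarith
    have h3 : √(2 / Z) * T ≤ √(2 / Z) * (t L - t a) := by gcongr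
    linarith
  obtain ⟨w, hw, hwZ⟩ := intermediate_value_Icc hL h'.contz ⟨hz0 ▸ hZ.le, hZL⟩
  have hκ' : (0 : ℝ) < 1 / 10 ^ 12 := by norm_num
  have h2 := (h.mono hw.1 le_rfl).escape hκ'
    (fun u hu => h.c1 u ⟨hw.1.trans hu.1, hu.2⟩) (hz w hw) (hv1 w hw).le (by
      have h1 := hsp w hw hwZ.le
      have h3 := hWZ _ hκ'.le
      unfold En
      rw [hwZ]
      linarith)
  intro u hu
  rcases le_total u w with h3 | h3
  · exact hv1 u ⟨hu.1, h3.trans hw.2⟩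
  · exact h2 u ⟨h3, hu.2⟩

theorem Mot.high (h : Mot M z v c g t a b) (hz0 : 0 ≤ z a) (hv : ∀ u ∈ Icc a b, 0 ≤ v u)
    (hH : 1000 ≤ z b) : ∀ u ∈ Icc a b, -(1 / 1000) ≤ En M (1001 / 1000) z v u := by
  intro u hu
  have hz : ∀ x ∈ Icc a b, 0 ≤ z x := fun x hx =>
    hz0.trans ((h.mono le_rfl hx.2).z_mono hx.1 fun y hy => hv y ⟨hy.1, hy.2.trans hx.2⟩)
  have h1 := (h.mono hu.1 le_rfl).en_anti hu.2 (κ := 1001 / 1000) (by norm_num)
    (fun x hx => mul_nonneg (hz x ⟨hu.1.trans hx.1, hx.2⟩) (hv x ⟨hu.1.trans hx.1, hx.2⟩))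
    fun x hx => h.c2 x ⟨hu.1.trans hx.1, hx.2⟩
  have h2 : Wd (z b) (1001 / 1000) ≤ 1 / 1000 := Wd_le_of (by norm_num) (by nlinarith)
  have h3 : 0 ≤ v b ^ 2 / (2 * M) := by have := h.M1; positivity
  unfold En at h1 ⊢
  linarith

theorem Mot.bwd (h : Mot M z v c g t a b) (hab : a ≤ b) {La Lb : ℝ} (h1 : a ≤ La) (h2 : La ≤ Lb)
    (h3 : Lb ≤ a + 4) (hz0 : z a = 0) (hv : ∀ u ∈ Icc a b, 0 ≤ v u) (hH : 1000 ≤ z b)
    (hc1 : ∀ u ∈ Icc a Lb, c u ≤ 563 / 1000) (hc2 : ∀ u ∈ Icc La Lb, c u ≤ 2501 / 10000)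
    (hta : t La - t a ≤ 66 / 100) (htb : 179 / 100 ≤ t Lb - t a) :
    1 / (29 / 10) ≤ En M (562 / 1000) z v a + Wd (29 / 10) (562 / 1000) := by
  by_contra hn
  have hlt := not_le.1 hn
  have hM : 0 < 2 * M := by linarith [h.M1]
  have w1 : Wd 0 (562 / 1000) ≤ 1 / (7496 / 10000) := Wd_le_of (by norm_num) (by norm_num)
  have w2 : 1 / (29954 / 10000) ≤ Wd (29 / 10) (562 / 1000) :=
    Wd_ge_of (by norm_num) (by norm_num) (by norm_num)
  have w3 : 1 / (7504 / 10000) ≤ Wd 0 (563 / 1000) :=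
    Wd_ge_of (by norm_num) (by norm_num) (by norm_num)
  have w4 : Wd (11 / 10) (563 / 1000) ≤ 1 / (13315 / 10000) := Wd_le_of (by norm_num) (by norm_num)
  have w5 : 1 / (12084 / 10000) ≤ Wd (11 / 10) (2501 / 10000) :=
    Wd_ge_of (by norm_num) (by norm_num) (by norm_num)
  have w6 : Wd (7 / 4) (2501 / 10000) ≤ 1 / (182 / 100) := Wd_le_of (by norm_num) (by norm_num)
  have w7 : 1 / (2016 / 1000) ≤ Wd (7 / 4) (1001 / 1000) :=
    Wd_ge_of (by norm_num) (by norm_num) (by norm_num)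
  have hA : v a ^ 2 / (2 * M) < 13451 / 10000 := by
    unfold En at hlt
    rw [hz0] at hlt
    norm_num at w1 w2 hlt ⊢
    linarith
  have hmono : ∀ x y, a ≤ x → x ≤ y → y ≤ b → z x ≤ z y := fun x y h1 h2 h3 =>
    (h.mono h1 h3).z_mono h2 fun u hu => hv u ⟨h1.trans hu.1, hu.2.trans h3⟩
  have hz : ∀ u ∈ Icc a b, 0 ≤ z u := fun u hu => hz0 ▸ hmono a u le_rfl hu.1 hu.2
  have hva : v a ≤ 1641 / 1000 := by
    rw [div_lt_iff₀ hM] at hA
    nlinarith [h.M2]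
  have hvu : ∀ u ∈ Icc a b, v u ≤ 1641 / 1000 := fun u hu =>
    ((h.mono le_rfl hu.2).v_anti hu.1 fun x hx => hz x ⟨hx.1, hx.2.trans hu.2⟩).trans hva
  have hLb : Lb ≤ b := by
    by_contra hn'
    have h4 := h.z_le hab hvu
    have h5 := h.t_le hab
    have := not_le.1 hn'
    linarith
  have hen := h.high hz0.ge hv hH
  have hza : z La ≤ 11 / 10 := by
    have := (h.mono le_rfl (h2.trans hLb)).z_le h1 fun u hu =>
      hvu u ⟨hu.1, hu.2.trans (h2.trans hLb)⟩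
    linarith
  have hzb : 7 / 4 ≤ z Lb := by
    by_contra hn'
    have hl := not_le.1 hn'
    have hw : ∀ u ∈ Icc a Lb, 99 / 100 ≤ v u := fun u hu => by
      have hu' : u ∈ Icc a b := ⟨hu.1, hu.2.trans hLb⟩
      have h4 := hen u hu'
      have h5 : Wd (7 / 4) (1001 / 1000) ≤ Wd (z u) (1001 / 1000) :=
        Wd_le (by norm_num) (pow_le_pow_left₀ (hz u hu') ((hmono u Lb hu.1 hu.2 hLb).trans hl.le) 2)
      have h6 : 495 / 1000 ≤ v u ^ 2 / (2 * M) := by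
        unfold En at h4
        norm_num at w7 h4 h5 ⊢
        linarith
      rw [le_div_iff₀ hM] at h6
      have h7 := hv u hu'
      nlinarith [h.M1]
    have := (h.mono le_rfl hLb).z_ge (h1.trans h2) hw
    linarith
  obtain ⟨x2, hx2, e2⟩ := intermediate_value_Icc h2 (h.mono h1 hLb).contz
    (show (7 / 4 : ℝ) ∈ Icc (z La) (z Lb) from ⟨by linarith, hzb⟩)
  obtain ⟨x1, hx1, e1⟩ := intermediate_value_Icc hx2.1 (h.mono h1 (hx2.2.trans hLb)).contz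
    (show (11 / 10 : ℝ) ∈ Icc (z La) (z x2) from ⟨hza, by rw [e2]; norm_num⟩)
  have hx2b : x2 ≤ b := hx2.2.trans hLb
  have hx1b : x1 ≤ b := hx1.2.trans hx2b
  have hax1 : a ≤ x1 := h1.trans hx1.1
  have k1 := (h.mono le_rfl hx1b).en_anti hax1 (κ := 563 / 1000) (by norm_num)
    (fun x hx => mul_nonneg (hz x ⟨hx.1, hx.2.trans hx1b⟩) (hv x ⟨hx.1, hx.2.trans hx1b⟩))
    fun x hx => hc1 x ⟨hx.1, hx.2.trans (hx1.2.trans hx2.2)⟩
  have k2 := (h.mono hax1 hx2b).en_anti hx1.2 (κ := 2501 / 10000) (by norm_num)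
    (fun x hx => mul_nonneg (hz x ⟨hax1.trans hx.1, hx.2.trans hx2b⟩)
      (hv x ⟨hax1.trans hx.1, hx.2.trans hx2b⟩))
    fun x hx => hc2 x ⟨hx1.1.trans hx.1, hx.2.trans hx2.2⟩
  have k3 := hen x2 ⟨hax1.trans hx1.2, hx2b⟩
  unfold En at k1 k2 k3
  rw [e1] at k1 k2
  rw [e2] at k2 k3
  rw [hz0] at k1
  norm_num at w3 w4 w5 w6 w7 k1 k2 k3 hA
  linarith

theorem last_nonneg {f : ℝ → ℝ} {a b : ℝ} (hab : a ≤ b) (hc : ContinuousOn f (Icc a b))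
    (ha : 0 ≤ f a) : ∃ t₀ ∈ Icc a b, 0 ≤ f t₀ ∧ ∀ u ∈ Ioc t₀ b, f u < 0 := by
  have hcl : IsClosed (Icc a b ∩ f ⁻¹' Ici 0) :=
    hc.preimage_isClosed_of_isClosed isClosed_Icc isClosed_Ici
  have hcp : IsCompact (Icc a b ∩ f ⁻¹' Ici 0) :=
    isCompact_Icc.of_isClosed_subset hcl inter_subset_left
  obtain ⟨t₀, ht₀, hl⟩ := hcp.exists_isGreatest ⟨a, left_mem_Icc.2 hab, ha⟩
  refine ⟨t₀, ht₀.1, ht₀.2, fun u hu => ?_⟩
  by_contra hn
  have := hl ⟨⟨ht₀.1.1.trans hu.1.le, hu.2⟩, (not_lt.1 hn : 0 ≤ f u)⟩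
  linarith [hu.1]

theorem nonneg_of_Ioc {f : ℝ → ℝ} {a b : ℝ} (hab : a < b) (hc : ContinuousOn f (Icc a b))
    (h : ∀ u ∈ Ioo a b, 0 ≤ f u) : 0 ≤ f a := by
  have h1 : ContinuousWithinAt f (Ioo a b) a :=
    (hc a (left_mem_Icc.2 hab.le)).mono Ioo_subset_Icc_self
  have h2 : a ∈ closure (Ioo a b) := by
    rw [closure_Ioo hab.ne]; exact left_mem_Icc.2 hab.le
  exact ContinuousWithinAt.closure_le h2 continuousWithinAt_const h1 h

theorem Mot.t_pos (h : Mot M z v c g t a b) (hab : a < b) : 0 < t b - t a :=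
  lt_of_lt_of_le (by have := sub_pos.2 hab; positivity) (h.t_ge hab.le)

theorem Mot.pos_of (h : Mot M z v c g t a b) (hz0 : z a = 0)
    (hm : ∀ u ∈ Ico a b, 0 < max (z u) (v u)) : ∀ u ∈ Ioo a b, 0 < z u := by
  have hA : ∀ u ∈ Ico a b, 0 ≤ z u := by
    intro u hu
    by_contra hn
    have h' := h.mono le_rfl hu.2.le
    obtain ⟨t₀, ht₀, h1, h2⟩ := last_nonneg hu.1 h'.contz hz0.ge
    have hlt : t₀ < u := lt_of_le_of_ne ht₀.2 (by rintro rfl; exact hn h1)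
    have hv : ∀ x ∈ Ioc t₀ u, 0 ≤ v x := fun x hx => by
      have h3 := hm x ⟨ht₀.1.trans hx.1.le, lt_of_le_of_lt hx.2 hu.2⟩
      rcases lt_max_iff.1 h3 with h4 | h4
      · linarith [h2 x hx]
      · exact h4.le
    have hv0 : 0 ≤ v t₀ := nonneg_of_Ioc hlt (h'.mono ht₀.1 le_rfl).contv
      fun x hx => hv x ⟨hx.1, hx.2.le⟩
    have := (h'.mono ht₀.1 le_rfl).z_mono ht₀.2 fun x hx => by
      rcases hx.1.eq_or_lt with h4 | h4
      · rw [← h4]; exact hv0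
      · exact hv x ⟨h4, hx.2⟩
    exact hn (h1.trans this)
  intro u hu
  rcases (hA u ⟨hu.1.le, hu.2⟩).eq_or_lt with h0 | h0
  · have h' := h.mono le_rfl hu.2.le
    have hv : 0 < v u := by
      rcases lt_max_iff.1 (hm u ⟨hu.1.le, hu.2⟩) with h4 | h4
      · linarith
      · exact h4
    have h1 := h'.z_ge hu.1.le (w := v u) fun x hx => (h'.mono hx.1 le_rfl).v_anti hx.2
      fun y hy => hA y ⟨hx.1.trans hy.1, lt_of_le_of_lt hy.2 hu.2⟩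
    have h2 := mul_pos hv (h'.t_pos hu.1)
    linarith
  · exact h0

/-- an excursion to the positive side -/
structure Exc (z v : ℝ → ℝ) (τ ρ : ℝ) : Prop where
  lt : τ < ρ
  z0 : z τ = 0
  z1 : z ρ = 0
  v0 : 0 < v τ
  v1 : v ρ < 0
  pos : ∀ u ∈ Ioo τ ρ, 0 < z u

theorem Exc.nonneg {τ ρ : ℝ} (h : Exc z v τ ρ) : ∀ u ∈ Icc τ ρ, 0 ≤ z u := by
  intro u hu
  rcases hu.1.eq_or_lt with h1 | h1
  · rw [← h1, h.z0]
  rcases hu.2.eq_or_lt with h2 | h2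
  · rw [h2, h.z1]
  exact (h.pos u ⟨h1, h2⟩).le

theorem Mot.ret (h : Mot M z v c g t a b) {τ x : ℝ} (hτ : a ≤ τ) (hv : ∀ u ∈ Icc a τ, 0 < v u)
    (hz : z τ = 0) (hx : x ∈ Icc a b) (hm : max (z x) (v x) ≤ 0) :
    ∃ ρ, ρ ≤ x ∧ Exc z v τ ρ ∧ ∀ u ∈ Ico a ρ, 0 < max (z u) (v u) := by
  obtain ⟨ρ, hρ, h1, h2⟩ := first_nonpos (f := fun u => max (z u) (v u)) (h.contz.sup h.contv) hx hm
  have hb : ρ ≤ b := hρ.2.trans hx.2
  have hlt : τ < ρ := by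
    by_contra hn
    have := hv ρ ⟨hρ.1, not_lt.1 hn⟩
    linarith [le_max_right (z ρ) (v ρ)]
  have h' := h.mono hτ hb
  have hpos := h'.pos_of hz fun u hu => h2 u ⟨hτ.trans hu.1, hu.2⟩
  have hz1 : z ρ = 0 := le_antisymm ((le_max_left _ _).trans h1)
    (nonneg_of_Ico hlt h'.contz fun u hu => (hpos u hu).le)
  have hnn : ∀ u ∈ Icc τ ρ, 0 ≤ z u := fun u hu => by
    rcases hu.1.eq_or_lt with h1 | h1
    · rw [← h1, hz]
    rcases hu.2.eq_or_lt with h2 | h2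
    · rw [h2, hz1]
    exact (hpos u ⟨h1, h2⟩).le
  refine ⟨ρ, hρ.2, ⟨hlt, hz, hz1, hv τ ⟨hτ, le_rfl⟩, ?_, hpos⟩, h2⟩
  by_contra hn
  have hm : (τ + ρ) / 2 ∈ Ioo τ ρ := ⟨by linarith, by linarith⟩
  have := (h'.mono hm.1.le le_rfl).z_mono hm.2.le fun y hy =>
    (not_lt.1 hn).trans ((h'.mono (hm.1.le.trans hy.1) le_rfl).v_anti hy.2
      fun w hw => hnn w ⟨hm.1.le.trans (hy.1.trans hw.1), hw.2⟩)
  linarith [hpos _ hm]

theorem Mot.after (h : Mot M z v c g t a b) (hab : a < b) (hz : z a = 0) (hv : v a < 0) :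
    ∃ u ∈ Ioc a b, max (z u) (v u) < 0 := by
  have hc := (h.hv a (left_mem_Icc.2 hab.le)).continuousAt
  have hev : ∀ᶠ u in nhds a, v u < v a / 2 := hc.eventually (gt_mem_nhds (by linarith))
  obtain ⟨ε, hε, hball⟩ := Metric.eventually_nhds_iff.1 hev
  set u := min b (a + ε / 2) with hu
  have h1 : a < u := lt_min hab (by linarith)
  have h2 : u ≤ b := min_le_left _ _
  have h3 : u ≤ a + ε / 2 := min_le_right _ _
  have h4 : ∀ x ∈ Icc a u, v x < v a / 2 := fun x hx => hball (by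
    rw [Real.dist_eq, abs_lt]; constructor <;> linarith [hx.1, hx.2])
  have h' := h.mono le_rfl h2
  have h5 := h'.z_le h1.le fun x hx => (h4 x hx).le
  have h6 := h'.t_pos h1
  refine ⟨u, ⟨h1, h2⟩, max_lt ?_ (by linarith [h4 u (right_mem_Icc.2 h1.le)])⟩
  nlinarith

theorem Mot.short (h : Mot M z v c g t a (a + 10 ^ 13)) (hz : z a = 0) (hv : 0 < v a)
    (hlow : ∀ L ∈ Icc a (a + 10 ^ 13), (∀ u ∈ Icc a L, 0 ≤ v u) → z L < 1000) :
    ∃ u ∈ Icc a (a + 10 ^ 13), max (z u) (v u) < 0 := by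
  by_cases hx : ∃ x ∈ Icc a (a + 10 ^ 13 - 1), max (z x) (v x) ≤ 0
  · obtain ⟨x, hx, hm⟩ := hx
    obtain ⟨ρ, h1, h2, -⟩ := h.ret le_rfl (fun u hu => by rw [le_antisymm hu.2 hu.1]; exact hv) hz
      ⟨hx.1, by linarith [hx.2]⟩ hm
    obtain ⟨u, hu, h3⟩ := (h.mono h2.lt.le le_rfl).after (by linarith [hx.2]) h2.z1 h2.v1
    exact ⟨u, ⟨h2.lt.le.trans hu.1.le, hu.2⟩, h3⟩
  · exfalso
    push Not at hx
    have hp := (h.mono le_rfl (b' := a + 10 ^ 13 - 1) (by linarith)).pos_of hz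
      fun u hu => hx u ⟨hu.1, hu.2.le⟩
    have h' := h.mono le_rfl (b' := a + 10 ^ 13 - 2) (by linarith)
    obtain ⟨w, hw, h1, h2, -⟩ := h'.apex (by linarith) (fun u hu => by
      rcases hu.1.eq_or_lt with h1 | h1
      · rw [← h1, hz]
      · exact (hp u ⟨h1, by linarith [hu.2]⟩).le) hv.le
    have h3 := hlow w ⟨hw.1, by linarith [hw.2]⟩ h1
    have h'' := h'.mono (a' := a + 1) (by linarith) le_rfl
    have h4 := h''.riccati (by linarith) (H := 1000) fun u hu =>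
      ⟨hp u ⟨by linarith [hu.1], by linarith [hu.2]⟩,
        (h2 u ⟨by linarith [hu.1], hu.2⟩).trans h3.le⟩
    have h5 := h''.t_ge (by linarith)
    norm_num at h4 h5
    linarith

/-- the highest point of a long excursion -/
theorem Mot.top {τ ρ : ℝ} (h : Mot M z v c g t τ ρ) (he : Exc z v τ ρ) (hl : 2 ≤ ρ - τ)
    (hv : ∀ u ∈ Icc τ ρ, |v u| ≤ 2000) :
    ∃ w ∈ Icc τ ρ, v w = 0 ∧ (∀ u ∈ Icc τ w, 0 ≤ v u) ∧ (∀ u ∈ Icc w ρ, v u ≤ 0) ∧
      (∀ u ∈ Icc τ ρ, z u ≤ z w) ∧ (ρ - τ - 2) / 10 ^ 6 ≤ 4 * (z w ^ 2 + 2) ∧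
      z w ≤ 6000 * (w - τ) ∧ z w ≤ 6000 * (ρ - w) ∧
      ∀ u ∈ Icc τ ρ, Wd (z u) (1001 / 1000) ≤ Wd (z w) (1001 / 1000) + v u ^ 2 / 2 := by
  obtain ⟨w, hw, h1, h2, h3⟩ := h.apex he.lt.le he.nonneg he.v0.le
  have h4 : v w = 0 ∧ ∀ u ∈ Icc w ρ, v u ≤ 0 := by
    rcases h3 with h3 | h3
    · have := h1 w (right_mem_Icc.2 hw.1)
      rw [h3] at this
      linarith [he.v1]
    · exact h3
  refine ⟨w, hw, h4.1, h1, h4.2, h2, ?_, ?_, ?_, fun u hu => ?_⟩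
  · have h' := h.mono (a' := τ + 1) (b' := ρ - 1) (by linarith) (by linarith)
    have h5 := h'.riccati (by linarith) (H := z w) fun u hu =>
      ⟨he.pos u ⟨by linarith [hu.1], by linarith [hu.2]⟩,
        h2 u ⟨by linarith [hu.1], by linarith [hu.2]⟩⟩
    have h6 := h'.t_ge (by linarith)
    have : ρ - 1 - (τ + 1) = ρ - τ - 2 := by ring
    rw [this] at h6
    linarith
  · have h' := h.mono le_rfl hw.2
    have h5 := h'.z_le hw.1 (w := 2000) fun u hu => (abs_le.1 (hv u ⟨hu.1, hu.2.trans hw.2⟩)).2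
    have h6 := h'.t_le hw.1
    linarith [he.z0]
  · have h' := h.mono hw.1 le_rfl
    have h5 := h'.z_ge hw.2 (w := -2000) fun u hu => (abs_le.1 (hv u ⟨hw.1.trans hu.1, hu.2⟩)).1
    have h6 := h'.t_le hw.2
    linarith [he.z1]
  · have key : En M (1001 / 1000) z v w ≤ En M (1001 / 1000) z v u := by
      rcases le_total u w with h5 | h5
      · exact (h.mono hu.1 hw.2).en_anti h5 (by norm_num)
          (fun x hx => mul_nonneg (he.nonneg x ⟨hu.1.trans hx.1, hx.2.trans hw.2⟩)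
            (h1 x ⟨hu.1.trans hx.1, hx.2⟩)) fun x hx => h.c2 x ⟨hu.1.trans hx.1, hx.2.trans hw.2⟩
      · exact (h.mono hw.1 hu.2).en_desc h5 (by norm_num)
          (fun x hx => mul_nonpos_of_nonneg_of_nonpos
            (he.nonneg x ⟨hw.1.trans hx.1, hx.2.trans hu.2⟩) (h4.2 x ⟨hx.1, hx.2.trans hu.2⟩))
          fun x hx => h.c2 x ⟨hw.1.trans hx.1, hx.2.trans hu.2⟩
    unfold En at key
    rw [h4.1] at key
    have h5 : v u ^ 2 / (2 * M) ≤ v u ^ 2 / 2 := by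
      have := h.M1
      gcongr
      linarith
    simp only [ne_eq, OfNat.ofNat_ne_zero, not_false_eq_true, zero_pow, zero_div] at key
    linarith

end Pool.Agent.P.MP_9ae58c_an
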