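import Mathlib

/-! Motion of the third body along the axis: elementary estimates. -/

namespace Pool.Agent.P.MP_9ae58c_an

open Set

theorem le_of_deriv {f f' : ℝ → ℝ} {a b : ℝ} (hab : a ≤ b)
    (hf : ∀ u ∈ Icc a b, HasDerivAt f (f' u) u) (h : ∀ u ∈ Icc a b, 0 ≤ f' u) : f a ≤ f b := by
  have := monotoneOn_of_deriv_nonneg (convex_Icc a b) (f := f)
    (fun u hu => (hf u hu).continuousAt.continuousWithinAt)
    (fun u hu => (hf u (interior_subset hu)).differentiableAt.differentiableWithinAt)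
    (fun u hu => by rw [(hf u (interior_subset hu)).deriv]; exact h u (interior_subset hu))
  exact this (left_mem_Icc.2 hab) (right_mem_Icc.2 hab) hab

theorem ge_of_deriv {f f' : ℝ → ℝ} {a b : ℝ} (hab : a ≤ b)
    (hf : ∀ u ∈ Icc a b, HasDerivAt f (f' u) u) (h : ∀ u ∈ Icc a b, f' u ≤ 0) : f b ≤ f a := by
  have := le_of_deriv (f := fun u => -f u) (f' := fun u => -f' u) hab
    (fun u hu => (hf u hu).neg) (fun u hu => neg_nonneg.2 (h u hu))
  simpa using this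

theorem first_nonpos {f : ℝ → ℝ} {a b : ℝ} (hc : ContinuousOn f (Icc a b)) {t : ℝ}
    (ht : t ∈ Icc a b) (hft : f t ≤ 0) :
    ∃ t₀ ∈ Icc a t, f t₀ ≤ 0 ∧ ∀ u ∈ Ico a t₀, 0 < f u := by
  have hcl : IsClosed (Icc a b ∩ f ⁻¹' Iic 0) :=
    hc.preimage_isClosed_of_isClosed isClosed_Icc isClosed_Iic
  have hcp : IsCompact (Icc a b ∩ f ⁻¹' Iic 0) :=
    isCompact_Icc.of_isClosed_subset hcl inter_subset_left
  obtain ⟨t₀, ht₀, hl⟩ := hcp.exists_isLeast ⟨t, ht, hft⟩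
  refine ⟨t₀, ⟨ht₀.1.1, hl ⟨ht, hft⟩⟩, ht₀.2, fun u hu => ?_⟩
  by_contra hn
  have := hl ⟨⟨hu.1, hu.2.le.trans ht₀.1.2⟩, (not_lt.1 hn : f u ≤ 0)⟩
  linarith [hu.2]

theorem nonneg_of_Ico {f : ℝ → ℝ} {a b : ℝ} (hab : a < b) (hc : ContinuousOn f (Icc a b))
    (h : ∀ u ∈ Ioo a b, 0 ≤ f u) : 0 ≤ f b := by
  have h1 : ContinuousWithinAt f (Ioo a b) b :=
    (hc b (right_mem_Icc.2 hab.le)).mono Ioo_subset_Icc_self
  have h2 : b ∈ closure (Ioo a b) := by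
    rw [closure_Ioo hab.ne]; exact right_mem_Icc.2 hab.le
  exact ContinuousWithinAt.closure_le h2 continuousWithinAt_const h1 h

theorem boot {f : ℝ → ℝ} {a b : ℝ} (hc : ContinuousOn f (Icc a b)) (h0 : 0 ≤ f a)
    (h : ∀ t ∈ Icc a b, (∀ u ∈ Icc a t, 0 ≤ f u) → 0 < f t) : ∀ t ∈ Icc a b, 0 < f t := by
  intro t ht
  by_contra hn
  obtain ⟨t₀, ht₀, h1, h2⟩ := first_nonpos hc ht (not_lt.1 hn)
  have hb : t₀ ∈ Icc a b := ⟨ht₀.1, ht₀.2.trans ht.2⟩
  have h3 : 0 ≤ f t₀ := by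
    rcases ht₀.1.eq_or_lt with h4 | h4
    · rw [← h4]; exact h0
    · exact nonneg_of_Ico h4 (hc.mono (Icc_subset_Icc le_rfl hb.2))
        fun u hu => (h2 u ⟨hu.1.le, hu.2⟩).le
  have := h t₀ hb fun u hu => by
    rcases hu.2.eq_or_lt with h4 | h4
    · rw [h4]; exact h3
    · exact (h2 u ⟨hu.1, h4⟩).le
  linarith

/-- the softened inverse distance -/
noncomputable def Wd (z c : ℝ) : ℝ := 1 / √(z ^ 2 + c)

theorem Wd_pos (z : ℝ) {c : ℝ} (hc : 0 < c) : 0 < Wd z c := by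
  unfold Wd; positivity

theorem Wd_anti (z : ℝ) {κ c : ℝ} (hκ : 0 < κ) (h : κ ≤ c) : Wd z c ≤ Wd z κ := by
  unfold Wd
  gcongr

theorem Wd_le {z z' c : ℝ} (hc : 0 < c) (h : z ^ 2 ≤ z' ^ 2) : Wd z' c ≤ Wd z c := by
  unfold Wd
  gcongr

theorem Wd_ge_of {z c x : ℝ} (hc : 0 < c) (hx : 0 < x) (h : z ^ 2 + c ≤ x ^ 2) :
    1 / x ≤ Wd z c := by
  unfold Wd
  gcongr
  exact Real.sqrt_le_iff.2 ⟨hx.le, h⟩

theorem Wd_le_of {z c x : ℝ} (hx : 0 < x) (h : x ^ 2 ≤ z ^ 2 + c) : Wd z c ≤ 1 / x := by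
  unfold Wd
  gcongr
  exact Real.le_sqrt_of_sq_le h

theorem hasDerivAt_Wd {z : ℝ → ℝ} {z' u κ : ℝ} (hz : HasDerivAt z z' u) (hκ : 0 < κ) :
    HasDerivAt (fun u => Wd (z u) κ) (-(z u * z' * Wd (z u) κ ^ 3)) u := by
  have hp : 0 < z u ^ 2 + κ := by positivity
  have h1 : HasDerivAt (fun u => z u ^ 2 + κ) (2 * z u * z') u := by
    simpa using (hz.pow 2).add_const κ
  have h2 := (h1.sqrt hp.ne').inv (Real.sqrt_pos.2 hp).ne'
  have hs : 0 < √(z u ^ 2 + κ) := Real.sqrt_pos.2 hp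
  have h3 : (fun u => Wd (z u) κ) = fun u => (√(z u ^ 2 + κ))⁻¹ := by
    funext u; simp [Wd]
  rw [h3]
  refine h2.congr_deriv ?_
  unfold Wd
  field_simp

/-- motion along the axis on the interval `[a, b]` -/
structure Mot (M : ℝ) (z v c g t : ℝ → ℝ) (a b : ℝ) : Prop where
  hz : ∀ u ∈ Icc a b, HasDerivAt z (g u * v u) u
  hv : ∀ u ∈ Icc a b, HasDerivAt v (-(g u * M * z u * Wd (z u) (c u) ^ 3)) u
  ht : ∀ u ∈ Icc a b, HasDerivAt t (g u) u
  g1 : ∀ u ∈ Icc a b, 1 / 10 ^ 6 ≤ g u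
  g2 : ∀ u ∈ Icc a b, g u ≤ 3
  c1 : ∀ u ∈ Icc a b, 1 / 10 ^ 12 ≤ c u
  c2 : ∀ u ∈ Icc a b, c u ≤ 1001 / 1000
  M1 : 1 ≤ M
  M2 : M ≤ 10001 / 10000

variable {M : ℝ} {z v c g t : ℝ → ℝ} {a b : ℝ}

theorem Mot.mono (h : Mot M z v c g t a b) {a' b' : ℝ} (ha : a ≤ a') (hb : b' ≤ b) :
    Mot M z v c g t a' b' :=
  have hs : Icc a' b' ⊆ Icc a b := Icc_subset_Icc ha hb
  ⟨fun u hu => h.hz u (hs hu), fun u hu => h.hv u (hs hu), fun u hu => h.ht u (hs hu),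
    fun u hu => h.g1 u (hs hu), fun u hu => h.g2 u (hs hu), fun u hu => h.c1 u (hs hu),
    fun u hu => h.c2 u (hs hu), h.M1, h.M2⟩

theorem Mot.sign (h : Mot M z v c g t a b) {σ : ℝ} (hσ : σ ^ 2 = 1) :
    Mot M (fun u => σ * z u) (fun u => σ * v u) c g t a b := by
  refine ⟨fun u hu => ((h.hz u hu).const_mul σ).congr_deriv (by ring),
    fun u hu => ((h.hv u hu).const_mul σ).congr_deriv ?_, h.ht, h.g1, h.g2, h.c1, h.c2, h.M1, h.M2⟩
  have : Wd (σ * z u) (c u) = Wd (z u) (c u) := by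
    unfold Wd; rw [mul_pow, hσ, one_mul]
  rw [this]; ring

theorem Mot.rev (h : Mot M z v c g t a b) :
    Mot M (fun u => z (-u)) (fun u => -v (-u)) (fun u => c (-u)) (fun u => g (-u))
      (fun u => -t (-u)) (-b) (-a) := by
  have hs : ∀ u ∈ Icc (-b) (-a), -u ∈ Icc a b := fun u hu => ⟨by linarith [hu.2], by linarith [hu.1]⟩
  refine ⟨fun u hu => ?_, fun u hu => ?_, fun u hu => ?_, fun u hu => h.g1 _ (hs u hu),
    fun u hu => h.g2 _ (hs u hu), fun u hu => h.c1 _ (hs u hu), fun u hu => h.c2 _ (hs u hu),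
    h.M1, h.M2⟩
  · exact ((h.hz _ (hs u hu)).comp u (hasDerivAt_neg u)).congr_deriv (by ring)
  · exact ((h.hv _ (hs u hu)).comp u (hasDerivAt_neg u)).neg.congr_deriv (by ring)
  · exact ((h.ht _ (hs u hu)).comp u (hasDerivAt_neg u)).neg.congr_deriv (by ring)

theorem Mot.gpos (h : Mot M z v c g t a b) {u : ℝ} (hu : u ∈ Icc a b) : 0 < g u :=
  lt_of_lt_of_le (by norm_num) (h.g1 u hu)

theorem Mot.cpos (h : Mot M z v c g t a b) {u : ℝ} (hu : u ∈ Icc a b) : 0 < c u :=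
  lt_of_lt_of_le (by norm_num) (h.c1 u hu)

theorem Mot.contz (h : Mot M z v c g t a b) : ContinuousOn z (Icc a b) :=
  fun u hu => (h.hz u hu).continuousAt.continuousWithinAt

theorem Mot.contv (h : Mot M z v c g t a b) : ContinuousOn v (Icc a b) :=
  fun u hu => (h.hv u hu).continuousAt.continuousWithinAt

theorem Mot.z_ge (h : Mot M z v c g t a b) (hab : a ≤ b) {w : ℝ} (hw : ∀ u ∈ Icc a b, w ≤ v u) :
    z a + w * (t b - t a) ≤ z b := by
  have := le_of_deriv (f := fun u => z u - w * t u) (f' := fun u => g u * v u - w * g u) hab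
    (fun u hu => (h.hz u hu).sub ((h.ht u hu).const_mul w))
    (fun u hu => by nlinarith [h.gpos hu, hw u hu])
  linarith

theorem Mot.z_le (h : Mot M z v c g t a b) (hab : a ≤ b) {w : ℝ} (hw : ∀ u ∈ Icc a b, v u ≤ w) :
    z b ≤ z a + w * (t b - t a) := by
  have := ge_of_deriv (f := fun u => z u - w * t u) (f' := fun u => g u * v u - w * g u) hab
    (fun u hu => (h.hz u hu).sub ((h.ht u hu).const_mul w))
    (fun u hu => by nlinarith [h.gpos hu, hw u hu])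
  linarith

theorem Mot.z_mono (h : Mot M z v c g t a b) (hab : a ≤ b) (hw : ∀ u ∈ Icc a b, 0 ≤ v u) :
    z a ≤ z b := by
  simpa using h.z_ge hab hw

theorem Mot.z_anti (h : Mot M z v c g t a b) (hab : a ≤ b) (hw : ∀ u ∈ Icc a b, v u ≤ 0) :
    z b ≤ z a := by
  simpa using h.z_le hab hw

theorem Mot.t_ge (h : Mot M z v c g t a b) (hab : a ≤ b) : (b - a) / 10 ^ 6 ≤ t b - t a := by
  have := le_of_deriv (f := fun u => t u - u / 10 ^ 6) (f' := fun u => g u - 1 / 10 ^ 6) hab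
    (fun u hu => (h.ht u hu).sub ((hasDerivAt_id u).div_const _))
    (fun u hu => by linarith [h.g1 u hu])
  linarith

theorem Mot.t_le (h : Mot M z v c g t a b) (hab : a ≤ b) : t b - t a ≤ 3 * (b - a) := by
  have := ge_of_deriv (f := fun u => t u - 3 * u) (f' := fun u => g u - 3 * 1) hab
    (fun u hu => (h.ht u hu).sub ((hasDerivAt_id u).const_mul _))
    (fun u hu => by linarith [h.g2 u hu])
  linarith

theorem Mot.v_anti (h : Mot M z v c g t a b) (hab : a ≤ b) (hw : ∀ u ∈ Icc a b, 0 ≤ z u) :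
    v b ≤ v a := by
  refine ge_of_deriv hab h.hv fun u hu => ?_
  have h1 := h.gpos hu
  have h2 := Wd_pos (z u) (h.cpos hu)
  have h3 := hw u hu
  have h4 := h.M1
  have : 0 ≤ g u * M * z u * Wd (z u) (c u) ^ 3 := by positivity
  linarith

/-- energy relative to a frozen radius -/
noncomputable def En (M κ : ℝ) (z v : ℝ → ℝ) (u : ℝ) : ℝ := v u ^ 2 / (2 * M) - Wd (z u) κ

theorem Mot.en_deriv (h : Mot M z v c g t a b) {κ : ℝ} (hκ : 0 < κ) {u : ℝ} (hu : u ∈ Icc a b) :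
    HasDerivAt (En M κ z v) (g u * (z u * v u) * (Wd (z u) κ ^ 3 - Wd (z u) (c u) ^ 3)) u := by
  have hM : M ≠ 0 := by linarith [h.M1]
  refine ((((h.hv u hu).pow 2).div_const (2 * M)).sub
    (hasDerivAt_Wd (h.hz u hu) hκ)).congr_deriv ?_
  simp only [Nat.cast_ofNat, Nat.add_one_sub_one, pow_one]
  field_simp
  ring

theorem Mot.en_mono (h : Mot M z v c g t a b) (hab : a ≤ b) {κ : ℝ} (hκ : 0 < κ)
    (hzv : ∀ u ∈ Icc a b, 0 ≤ z u * v u) (hc : ∀ u ∈ Icc a b, κ ≤ c u) :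
    En M κ z v a ≤ En M κ z v b := by
  refine le_of_deriv hab (fun u hu => h.en_deriv hκ hu) fun u hu => ?_
  have h1 := (h.gpos hu).le
  have h2 := hzv u hu
  have h3 : Wd (z u) (c u) ^ 3 ≤ Wd (z u) κ ^ 3 :=
    pow_le_pow_left₀ (Wd_pos _ (h.cpos hu)).le (Wd_anti _ hκ (hc u hu)) 3
  exact mul_nonneg (mul_nonneg h1 h2) (sub_nonneg.2 h3)

theorem Mot.en_anti (h : Mot M z v c g t a b) (hab : a ≤ b) {κ : ℝ} (hκ : 0 < κ)
    (hzv : ∀ u ∈ Icc a b, 0 ≤ z u * v u) (hc : ∀ u ∈ Icc a b, c u ≤ κ) :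
    En M κ z v b ≤ En M κ z v a := by
  refine ge_of_deriv hab (fun u hu => h.en_deriv hκ hu) fun u hu => ?_
  have h1 := (h.gpos hu).le
  have h2 := hzv u hu
  have h3 : Wd (z u) κ ^ 3 ≤ Wd (z u) (c u) ^ 3 :=
    pow_le_pow_left₀ (Wd_pos _ hκ).le (Wd_anti _ (h.cpos hu) (hc u hu)) 3
  exact mul_nonpos_of_nonneg_of_nonpos (mul_nonneg h1 h2) (sub_nonpos.2 h3)

theorem Mot.en_desc (h : Mot M z v c g t a b) (hab : a ≤ b) {κ : ℝ} (hκ : 0 < κ)
    (hzv : ∀ u ∈ Icc a b, z u * v u ≤ 0) (hc : ∀ u ∈ Icc a b, c u ≤ κ) :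
    En M κ z v a ≤ En M κ z v b := by
  refine le_of_deriv hab (fun u hu => h.en_deriv hκ hu) fun u hu => ?_
  have h1 := (h.gpos hu).le
  have h2 := hzv u hu
  have h3 : Wd (z u) κ ^ 3 ≤ Wd (z u) (c u) ^ 3 :=
    pow_le_pow_left₀ (Wd_pos _ hκ).le (Wd_anti _ (h.cpos hu) (hc u hu)) 3
  exact mul_nonneg_of_nonpos_of_nonpos (mul_nonpos_of_nonneg_of_nonpos h1 h2) (sub_nonpos.2 h3)

/-- nonnegative energy: the body keeps moving outwards -/
theorem Mot.escape (h : Mot M z v c g t a b) {κ : ℝ} (hκ : 0 < κ) (hc : ∀ u ∈ Icc a b, κ ≤ c u)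
    (hz0 : 0 ≤ z a) (hv0 : 0 ≤ v a) (hE : 0 ≤ En M κ z v a) : ∀ u ∈ Icc a b, 0 < v u := by
  refine boot h.contv hv0 fun u hu hv => ?_
  have h' := h.mono le_rfl hu.2
  have hz : ∀ w ∈ Icc a u, 0 ≤ z w := fun w hw =>
    hz0.trans ((h'.mono le_rfl hw.2).z_mono hw.1 fun x hx => hv x ⟨hx.1, hx.2.trans hw.2⟩)
  have h1 := h'.en_mono hu.1 hκ (fun w hw => mul_nonneg (hz w hw) (hv w hw))
    (fun w hw => hc w ⟨hw.1, hw.2.trans hu.2⟩)
  have h2 := Wd_pos (z u) hκ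
  have h3 := hv u (right_mem_Icc.2 hu.1)
  rcases h3.eq_or_lt with h4 | h4
  · unfold En at h1 hE
    rw [← h4] at h1
    simp only [ne_eq, OfNat.ofNat_ne_zero, not_false_eq_true, zero_pow, zero_div] at h1
    linarith
  · exact h4

/-- the Riccati bound for the time spent at a bounded positive height -/
theorem Mot.riccati (h : Mot M z v c g t a b) (hab : a ≤ b) {H : ℝ}
    (hz : ∀ u ∈ Icc a b, 0 < z u ∧ z u ≤ H) : t b - t a ≤ 4 * (H ^ 2 + 2) := by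
  set l : ℝ := H ^ 2 + 2 with hl
  have hl1 : 1 ≤ l := by nlinarith [sq_nonneg H]
  have hl0 : 0 < l := by linarith
  have key := ge_of_deriv (f := fun u => Real.arctan (l * (v u / z u)) + t u / l)
    (f' := fun u => 1 / (1 + (l * (v u / z u)) ^ 2) *
      (l * ((-(g u * M * z u * Wd (z u) (c u) ^ 3) * z u - v u * (g u * v u)) / z u ^ 2)) +
        g u / l) hab
    (fun u hu => ((((h.hv u hu).div (h.hz u hu) (hz u hu).1.ne').const_mul l).arctan).add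
      ((h.ht u hu).div_const l))
    (fun u hu => by
      have hz0 := (hz u hu).1
      have hg := h.gpos hu
      have hW : 1 / l ^ 2 ≤ M * Wd (z u) (c u) ^ 3 := by
        have h1 : 1 / √l ≤ Wd (z u) (c u) := by
          refine Wd_ge_of (h.cpos hu) (Real.sqrt_pos.2 hl0) ?_
          rw [Real.sq_sqrt hl0.le]
          nlinarith [(hz u hu).2, h.c2 u hu]
        have h2 : (1 / √l) ^ 3 ≤ Wd (z u) (c u) ^ 3 := pow_le_pow_left₀ (by positivity) h1 3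
        have h3 : 1 / l ^ 2 ≤ (1 / √l) ^ 3 := by
          rw [div_pow, one_pow]
          have h4 : 1 ≤ √l := Real.one_le_sqrt.2 hl1
          have h5 : √l ^ 2 = l := Real.sq_sqrt hl0.le
          refine one_div_le_one_div_of_le (by positivity) ?_
          nlinarith
        have h6 := Wd_pos (z u) (h.cpos hu)
        have h7 : 0 ≤ Wd (z u) (c u) ^ 3 := by positivity
        nlinarith [h.M1]
      set A := v u / z u with hA
      set X := M * Wd (z u) (c u) ^ 3 with hX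
      have e1 : (-(g u * M * z u * Wd (z u) (c u) ^ 3) * z u - v u * (g u * v u)) / z u ^ 2 =
          -(g u * (X + A ^ 2)) := by
        rw [hA, hX]; field_simp; ring
      rw [e1]
      have hden : 0 < 1 + (l * A) ^ 2 := by positivity
      have e2 : 1 / (1 + (l * A) ^ 2) * (l * -(g u * (X + A ^ 2))) + g u / l =
          g u * (1 - l ^ 2 * X) / (l * (1 + (l * A) ^ 2)) := by
        field_simp; ring
      rw [e2]
      refine div_nonpos_of_nonpos_of_nonneg (mul_nonpos_of_nonneg_of_nonpos hg.le ?_)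
        (by positivity)
      rw [div_le_iff₀ (by positivity)] at hW
      linarith)
  have h1 := Real.arctan_lt_pi_div_two (l * (v a / z a))
  have h2 := Real.neg_pi_div_two_lt_arctan (l * (v b / z b))
  have h3 := Real.pi_le_four
  have h4 : (t b - t a) / l ≤ 4 := by rw [sub_div]; linarith
  rwa [div_le_iff₀ hl0] at h4

/-- a piece of an excursion has a highest point -/
theorem Mot.apex (h : Mot M z v c g t a b) (hab : a ≤ b) (hz : ∀ u ∈ Icc a b, 0 ≤ z u)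
    (hv : 0 ≤ v a) : ∃ w ∈ Icc a b, (∀ u ∈ Icc a w, 0 ≤ v u) ∧ (∀ u ∈ Icc a b, z u ≤ z w) ∧
      (w = b ∨ (v w = 0 ∧ ∀ u ∈ Icc w b, v u ≤ 0)) := by
  have hanti : ∀ x y, a ≤ x → x ≤ y → y ≤ b → v y ≤ v x := fun x y h1 h2 h3 =>
    (h.mono h1 h3).v_anti h2 fun u hu => hz u ⟨h1.trans hu.1, hu.2.trans h3⟩
  by_cases hb : 0 ≤ v b
  · have hp : ∀ u ∈ Icc a b, 0 ≤ v u := fun u hu => hb.trans (hanti u b hu.1 hu.2 le_rfl)
    exact ⟨b, right_mem_Icc.2 hab, hp, fun u hu => (h.mono hu.1 le_rfl).z_mono hu.2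
      fun x hx => hp x ⟨hu.1.trans hx.1, hx.2⟩, Or.inl rfl⟩
  · obtain ⟨w, hw, hw0⟩ := intermediate_value_Icc' hab h.contv ⟨(not_le.1 hb).le, hv⟩
    have hp : ∀ u ∈ Icc a w, 0 ≤ v u := fun u hu => hw0 ▸ hanti u w hu.1 hu.2 hw.2
    have hn : ∀ u ∈ Icc w b, v u ≤ 0 := fun u hu => hw0 ▸ hanti w u hw.1 hu.1 hu.2
    refine ⟨w, hw, hp, fun u hu => ?_, Or.inr ⟨hw0, hn⟩⟩
    rcases le_total u w with h1 | h1
    · exact (h.mono hu.1 hw.2).z_mono h1 fun x hx => hp x ⟨hu.1.trans hx.1, hx.2⟩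
    · exact (h.mono hw.1 hu.2).z_anti h1 fun x hx => hn x ⟨hx.1, hx.2.trans hu.2⟩

end Pool.Agent.P.MP_9ae58c_an
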