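import Pool.Agent.P.MP_9ae58c_an.Eff

/-! The limit parameter: computable, with prescribed excursion lengths. -/

namespace Pool.Agent.P.MP_9ae58c_an

open Set Real Filter Topology

/-- left end point -/
noncomputable def lo (x : ℕ × ℕ × ℕ × ℕ) : ℝ := (x.2.1 : ℝ) / x.1

/-- right end point -/
noncomputable def hi (x : ℕ × ℕ × ℕ × ℕ) : ℝ := (x.2.2.1 : ℝ) / x.1

/-- invariant of the construction -/
structure Inv (Z V : ℝ → ℝ → ℝ) (c : ℕ → ℕ) (k : ℕ) (x : ℕ × ℕ × ℕ × ℕ) : Prop where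
  d : 1 ≤ x.1
  l1 : 1 ≤ lo x
  l2 : lo x ≤ hi x
  l3 : hi x ≤ 2
  cr : ∀ s ∈ Icc (lo x) (hi x), ∃ τ, Cr Z V (sg k) s x.2.2.2 τ
  short : mm Z V (sg k) x.2.2.2 (x.2.2.2 + 2 * 10 ^ 13) (lo x) < 0
  long : 0 < mm Z V (sg k) x.2.2.2 (x.2.2.2 + (Ac (c k) + 30)) (hi x)

/-- meaning of a certificate -/
structure Stp (Z V : ℝ → ℝ → ℝ) (c : ℕ → ℕ) (k : ℕ) (x y : ℕ × ℕ × ℕ × ℕ) : Prop where
  d : 1 ≤ y.1
  l1 : lo x ≤ lo y
  l2 : lo y ≤ hi y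
  l3 : hi y ≤ hi x
  half : 2 * (hi y - lo y) ≤ hi x - lo x
  t1 : x.2.2.2 + Ac (c k) ≤ y.2.2.2
  t2 : y.2.2.2 ≤ x.2.2.2 + Ac (c k) + 20
  nx : Nxt Z V (sg k) x.2.2.2 (Ac (c (k + 1)) + 30) (lo y) (hi y) y.2.2.2

variable {M : ℝ} {Z V : ℝ → ℝ → ℝ} {K : ℕ} {mx : ℤ × ℕ × ℕ × ℕ → ℤ} {c : ℕ → ℕ}

theorem arith_iff {D A B D' A' B' : ℕ} (hD : 1 ≤ D) (hD' : 1 ≤ D') :
    ((A : ℝ) / D ≤ A' / D' ↔ A * D' ≤ A' * D) ∧ ((A' : ℝ) / D' ≤ B' / D' ↔ A' ≤ B') ∧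
    ((B' : ℝ) / D' ≤ B / D ↔ B' * D ≤ B * D') ∧
    (2 * ((B' : ℝ) / D' - A' / D') ≤ B / D - A / D ↔
      2 * (B' * D) + A * D' ≤ B * D' + 2 * (A' * D)) := by
  have h1 : (0 : ℝ) < D := by exact_mod_cast hD
  have h2 : (0 : ℝ) < D' := by exact_mod_cast hD'
  refine ⟨?_, ?_, ?_, ?_⟩
  · rw [div_le_div_iff₀ h1 h2]; exact_mod_cast Iff.rfl
  · rw [div_le_div_iff_of_pos_right h2]; exact_mod_cast Iff.rfl
  · rw [div_le_div_iff₀ h2 h1]; exact_mod_cast Iff.rfl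
  · rw [← sub_div, ← sub_div, ← mul_div_assoc, div_le_div_iff₀ h2 h1, ← Nat.cast_le (α := ℝ)]
    push_cast
    constructor <;> intro h <;> linarith

theorem cast_B0 (n : ℕ) : ((n + 2 * 10 ^ 13 : ℕ) : ℝ) = n + 2 * 10 ^ 13 := by
  push_cast; norm_num

theorem Apx.sound (h : Fam M Z V) (ha : Apx Z V K mx) {k n : ℕ} {x y : ℕ × ℕ × ℕ × ℕ}
    (hx : 1 ≤ x.1) (hR : Rl K mx c k x y n) : Stp Z V c k x y := by
  obtain ⟨⟨a1, a2, a3, a4, a5, a6, a7, a8⟩, b1, b2, b3, b4⟩ := hR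
  obtain ⟨e1, e2, e3, e4⟩ := arith_iff (A := x.2.1) (B := x.2.2.1) (A' := y.2.1) (B' := y.2.2.1)
    hx a1
  refine ⟨a1, e1.2 a3, e2.2 a4, e3.2 a5, e4.2 a6, a7, a8,
    ha.soundP h (sg_cases k) a1 a2 (by omega) b1, fun s hs => ?_, ?_, ?_⟩
  · have := ha.soundN h (sg_cases k) a1 a2 b2 s hs
    push_cast at this
    exact this
  · have := ha.soundN h (sg_cases (k + 1)) a1 a2 b3 _ (left_mem_Icc.2 le_rfl)
    rw [sg_succ, cast_B0] at this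
    exact this
  · have := ha.soundP h (sg_cases (k + 1)) a1 a2 (by omega) b4 _ (left_mem_Icc.2 le_rfl)
    rw [sg_succ] at this
    push_cast at this
    exact this

theorem Apx.compl (h : Fam M Z V) (ha : Apx Z V K mx) {k : ℕ} {x y : ℕ × ℕ × ℕ × ℕ}
    (hx : 1 ≤ x.1) (hS : Stp Z V c k x y) : ∃ n, Rl K mx c k x y n := by
  obtain ⟨e1, e2, e3, e4⟩ := arith_iff (A := x.2.1) (B := x.2.2.1) (A' := y.2.1) (B' := y.2.2.1)
    hx hS.d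
  have t1 := hS.t1
  have b1 := ha.complP h (sg_cases k) hS.d hS.l2 hS.nx.c1
  have b2 := ha.complN h (sg_cases k) (θ := x.2.2.2) (θ' := y.2.2.2 + 8) hS.d hS.l2 (by omega)
    (by push_cast; exact hS.nx.c2)
  have b3 := ha.complN h (sg_cases (k + 1)) (A := y.2.1) (B := y.2.1) (θ := y.2.2.2)
    (θ' := y.2.2.2 + 2 * 10 ^ 13) hS.d le_rfl (by omega) (fun s hs => by
      rw [le_antisymm hs.2 hs.1, sg_succ, cast_B0]; exact hS.nx.c3)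
  have b4 := ha.complP h (sg_cases (k + 1)) (A := y.2.2.1) (B := y.2.2.1) (θ := y.2.2.2)
    (θ' := y.2.2.2 + (Ac (c (k + 1)) + 30)) hS.d le_rfl (fun s hs => by
      rw [le_antisymm hs.2 hs.1, sg_succ]; push_cast; exact hS.nx.c4)
  obtain ⟨n, hn, c1, c2, c3, c4⟩ :=
    ((eventually_ge_atTop 1).and (b1.and (b2.and (b3.and b4)))).exists
  exact ⟨n, ⟨hS.d, hn, e1.1 hS.l1, e2.1 hS.l2, e3.1 hS.l3, e4.1 hS.half, hS.t1, hS.t2⟩,
    c1, c2, c3, c4⟩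

theorem Fam.link (h : Fam M Z V) {k : ℕ} {x y : ℕ × ℕ × ℕ × ℕ} (hI : Inv Z V c k x)
    (hS : Stp Z V c k x y) {s τ : ℝ} (hs : s ∈ Icc (lo y) (hi y))
    (hc : Cr Z V (sg k) s x.2.2.2 τ) :
    ∃ ρ, Exc (fun u => sg k * Z s u) (fun u => sg k * V s u) τ ρ ∧
      Cr Z V (sg (k + 1)) s y.2.2.2 ρ := by
  have h1 : (x.2.2.2 : ℝ) + Ac (c k) ≤ y.2.2.2 := by exact_mod_cast hS.t1
  have h2 : (10 : ℝ) ^ 17 ≤ Ac (c k) := by exact_mod_cast Ac_ge (c k)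
  rw [sg_succ]
  exact h.next_cr ⟨by linarith [hI.l1, hS.l1, hs.1], by linarith [hI.l3, hS.l3, hs.2]⟩ (sg_sq k)
    (Nat.cast_nonneg _) hc (by linarith) (hS.nx.c1 s hs) (hS.nx.c2 s hs)

theorem Fam.inv_succ (h : Fam M Z V) {k : ℕ} {x y : ℕ × ℕ × ℕ × ℕ} (hI : Inv Z V c k x)
    (hS : Stp Z V c k x y) : Inv Z V c (k + 1) y := by
  refine ⟨hS.d, hI.l1.trans hS.l1, hS.l2, hS.l3.trans hI.l3, fun s hs => ?_, ?_, ?_⟩
  · obtain ⟨τ, hτ⟩ := hI.cr s ⟨hS.l1.trans hs.1, hs.2.trans hS.l3⟩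
    obtain ⟨ρ, -, hρ⟩ := h.link hI hS hs hτ
    exact ⟨ρ, hρ⟩
  · rw [sg_succ]; exact hS.nx.c3
  · rw [sg_succ]; exact hS.nx.c4

theorem Fam.exists_stp (h : Fam M Z V) {k : ℕ} {x : ℕ × ℕ × ℕ × ℕ} (hI : Inv Z V c k x) :
    ∃ y, Stp Z V c k x y := by
  obtain ⟨D, A, B, θ', a1, a2, a3, a4, a5, a6, a7, a8⟩ := h.step (sg_sq k) x.2.2.2 (Ac (c k))
    hI.l1 hI.l2 hI.l3 hI.cr (Ac_ge _) hI.short hI.long (L := Ac (c (k + 1)) + 30) (by positivity)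
  exact ⟨(D, A, B, θ'), a1, a2, a3, a4, a5, a6, a7, a8⟩

theorem Fam.cr_zero (h : Fam M Z V) {s : ℝ} (hs : 1 ≤ s) : Cr Z V (sg 0) s ((0 : ℕ) : ℝ) 0 := by
  refine ⟨by simp, by simp, h.z0 s, fun u hu => ?_⟩
  have : u = 0 := le_antisymm hu.2 (by simpa using hu.1)
  rw [this, h.v0]
  simp only [sg, Nat.zero_mod, ↓reduceIte, Int.cast_one, one_mul]
  linarith

theorem Fam.inv_zero (h : Fam M Z V) : Inv Z V c 0 (1, 1, 2, 0) := by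
  have e1 : lo (1, 1, 2, 0) = 1 := by simp [lo]
  have e2 : hi (1, 1, 2, 0) = 2 := by simp [hi]
  have e3 : ((sg 0 : ℤ) : ℝ) = 1 := by simp [sg]
  refine ⟨le_rfl, e1.ge, by rw [e1, e2]; norm_num, e2.le,
    fun s hs => ⟨0, h.cr_zero (e1 ▸ hs.1)⟩, ?_, ?_⟩
  · obtain ⟨c, g, t, A, ho⟩ := h.orb 1 ⟨le_rfl, by norm_num⟩
    obtain ⟨u, hu, hu'⟩ := ho.first_short (h.z0 1) (h.v0 1)
    rw [e1, e3]
    refine lt_of_le_of_lt (h.mm_le 1 1 (w := u) ⟨by simpa using hu.1, ?_⟩) (by simpa [Mx] using hu')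
    have := hu.2
    simp only [CharP.cast_eq_zero] at this ⊢
    linarith
  · obtain ⟨c', g, t, A, ho⟩ := h.orb 2 ⟨by norm_num, le_rfl⟩
    rw [e2, e3]
    refine h.mm_pos _ _ (le_add_of_nonneg_right (by positivity)) fun u hu => lt_max_of_lt_right ?_
    simpa using ho.first_long (h.z0 2) (h.v0 2) u (by simpa using hu.1)

theorem Fam.shoot (h : Fam M Z V) (ha : Apx Z V K mx) (hc : Primrec c) :
    ∃ s ∈ Icc (1 : ℝ) 2,
      (∃ a D : ℕ → ℕ, Computable a ∧ Computable D ∧ ∀ k, 1 ≤ D k ∧ 1 ≤ (a k : ℝ) / D k ∧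
        |s - a k / D k| ≤ 1 / 2 ^ k) ∧
      ∃ τ : ℕ → ℝ, τ 0 = 0 ∧ ∀ k,
        Exc (fun u => sg k * Z s u) (fun u => sg k * V s u) (τ k) (τ (k + 1)) ∧
        (Ac (c k) : ℝ) - 8 ≤ τ (k + 1) - τ k ∧ τ (k + 1) - τ k ≤ Ac (c k) + 28 := by
  obtain ⟨f, hf, f0, hI⟩ := comp_choice (R := Rl K mx c) (prim_Rl K ha.prim hc) (Inv Z V c)
    (1, 1, 2, 0) h.inv_zero
    (fun k x hx => by
      obtain ⟨y, hy⟩ := h.exists_stp hx
      exact ⟨y, ha.compl h hx.d hy⟩)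
    (fun k x y n hx hR => h.inv_succ hx (ha.sound h hx.d hR))
  have hS : ∀ k, Stp Z V c k (f k) (f (k + 1)) := fun k => by
    obtain ⟨h1, n, h2⟩ := hI k
    exact ha.sound h h1.d h2
  have mlo : Monotone fun k => lo (f k) := monotone_nat_of_le_succ fun k => (hS k).l1
  have mhi : Antitone fun k => hi (f k) := antitone_nat_of_succ_le fun k => (hS k).l3
  have hlh : ∀ j k, lo (f j) ≤ hi (f k) := fun j k =>
    (mlo (le_max_left j k)).trans ((hI _).1.l2.trans (mhi (le_max_right j k)))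
  have hbd : BddAbove (range fun k => lo (f k)) := ⟨hi (f 0), by rintro _ ⟨j, rfl⟩; exact hlh j 0⟩
  set s := ⨆ k, lo (f k) with hs
  have hsI : ∀ k, s ∈ Icc (lo (f k)) (hi (f k)) := fun k =>
    ⟨le_ciSup hbd k, ciSup_le fun j => hlh j k⟩
  have hlen : ∀ k, hi (f k) - lo (f k) ≤ 1 / 2 ^ k := by
    intro k
    induction k with
    | zero => rw [f0]; simp [lo, hi]; norm_num
    | succ k ih =>
      have := (hS k).half
      rw [pow_succ, ← div_div]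
      linarith
  refine ⟨s, ⟨(hI 0).1.l1.trans (hsI 0).1, (hsI 0).2.trans (hI 0).1.l3⟩,
    ⟨fun k => (f k).2.1, fun k => (f k).1, Computable.fst.comp (Computable.snd.comp hf),
      Computable.fst.comp hf, fun k => ⟨(hI k).1.d, (hI k).1.l1, ?_⟩⟩, ?_⟩
  · change |s - lo (f k)| ≤ _
    rw [abs_of_nonneg (by linarith [(hsI k).1])]
    linarith [(hsI k).2, hlen k]
  · choose! nx hnx using fun k τ (hτ : Cr Z V (sg k) s (f k).2.2.2 τ) =>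
      h.link (hI k).1 (hS k) (hsI (k + 1)) hτ
    let τ : ℕ → ℝ := fun k => Nat.rec (motive := fun _ => ℝ) 0 (fun k x => nx k x) k
    have hτ : ∀ k, Cr Z V (sg k) s (f k).2.2.2 (τ k) := by
      intro k
      induction k with
      | zero => rw [f0]; exact h.cr_zero ((hI 0).1.l1.trans (hsI 0).1)
      | succ k ih => exact (hnx k _ ih).2
    refine ⟨τ, rfl, fun k => ⟨(hnx k _ (hτ k)).1, ?_, ?_⟩⟩
    · have h1 : ((f k).2.2.2 : ℝ) + Ac (c k) ≤ (f (k + 1)).2.2.2 := by exact_mod_cast (hS k).t1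
      linarith [(hτ k).r, (hτ (k + 1)).l]
    · have h1 : ((f (k + 1)).2.2.2 : ℝ) ≤ (f k).2.2.2 + Ac (c k) + 20 := by
        exact_mod_cast (hS k).t2
      linarith [(hτ k).l, (hτ (k + 1)).r]

end Pool.Agent.P.MP_9ae58c_an
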