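import Pool.Agent.P.MP_9ae58c_an.Orb

/-! The shooting argument: one step of the nested interval construction. -/

namespace Pool.Agent.P.MP_9ae58c_an

open Set Real Filter Topology

/-- a continuous family of reduced orbits -/
structure Fam (M : ℝ) (Z V : ℝ → ℝ → ℝ) : Prop where
  cz : Continuous fun p : ℝ × ℝ => Z p.1 p.2
  cv : Continuous fun p : ℝ × ℝ => V p.1 p.2
  orb : ∀ s ∈ Icc (1 : ℝ) 2, ∃ c g t A, Orb M (Z s) (V s) c g t A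
  z0 : ∀ s, Z s 0 = 0
  v0 : ∀ s, V s 0 = s

/-- positive before the return, negative just after -/
noncomputable def Mx (Z V : ℝ → ℝ → ℝ) (σ s u : ℝ) : ℝ := max (σ * Z s u) (σ * V s u)

/-- minimum over a window -/
noncomputable def mm (Z V : ℝ → ℝ → ℝ) (σ θ θ' s : ℝ) : ℝ := sInf (Mx Z V σ s '' Icc θ θ')

/-- first crossing after `θ` -/
structure Cr (Z V : ℝ → ℝ → ℝ) (σ s θ τ : ℝ) : Prop where
  l : θ ≤ τ
  r : τ ≤ θ + 8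
  z : Z s τ = 0
  v : ∀ u ∈ Icc θ τ, 0 < σ * V s u

variable {M : ℝ} {Z V : ℝ → ℝ → ℝ}

theorem Fam.cMx (h : Fam M Z V) (σ : ℝ) : Continuous fun p : ℝ × ℝ => Mx Z V σ p.1 p.2 :=
  (continuous_const.mul h.cz).max (continuous_const.mul h.cv)

theorem Fam.cmm (h : Fam M Z V) (σ θ θ' : ℝ) : Continuous (mm Z V σ θ θ') :=
  isCompact_Icc.continuous_sInf (f := fun s u => Mx Z V σ s u) (h.cMx σ)

theorem Fam.mm_spec (h : Fam M Z V) (σ s : ℝ) {θ θ' : ℝ} (hθ : θ ≤ θ') :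
    ∃ u ∈ Icc θ θ', mm Z V σ θ θ' s = Mx Z V σ s u ∧
      ∀ w ∈ Icc θ θ', mm Z V σ θ θ' s ≤ Mx Z V σ s w := by
  obtain ⟨u, hu, h1, h2⟩ := isCompact_Icc.exists_sInf_image_eq_and_le (nonempty_Icc.2 hθ)
    (f := Mx Z V σ s) ((h.cMx σ).comp (Continuous.prodMk_right s)).continuousOn
  exact ⟨u, hu, h1, fun w hw => h1.le.trans (h2 w hw)⟩

theorem Fam.mm_le (h : Fam M Z V) (σ s : ℝ) {θ θ' w : ℝ} (hw : w ∈ Icc θ θ') :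
    mm Z V σ θ θ' s ≤ Mx Z V σ s w := by
  obtain ⟨-, -, -, h2⟩ := h.mm_spec σ s (hw.1.trans hw.2)
  exact h2 w hw

theorem Fam.mm_pos (h : Fam M Z V) (σ s : ℝ) {θ θ' : ℝ} (hθ : θ ≤ θ')
    (hp : ∀ u ∈ Icc θ θ', 0 < Mx Z V σ s u) : 0 < mm Z V σ θ θ' s := by
  obtain ⟨u, hu, h1, -⟩ := h.mm_spec σ s hθ
  rw [h1]; exact hp u hu

theorem Fam.mm_anti (h : Fam M Z V) (σ s : ℝ) {θ x y : ℝ} (hx : θ ≤ x) (hxy : x ≤ y) :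
    mm Z V σ θ y s ≤ mm Z V σ θ x s := by
  obtain ⟨u, hu, h1, -⟩ := h.mm_spec σ s hx
  rw [h1]; exact h.mm_le σ s ⟨hu.1, hu.2.trans hxy⟩

theorem Orb.desc {z v c g t A : ℝ → ℝ} (h : Orb M z v c g t A) {τ ρ : ℝ} (hτ : 0 ≤ τ)
    (he : Exc z v τ ρ) (hl : 10 ^ 16 ≤ ρ - τ) : ∀ u ∈ Icc (ρ - 8) ρ, v u < 0 := by
  obtain ⟨w, hw, -, -, -, -, h4, -, h6, -⟩ := (h.on hτ ρ).top he (by linarith)
    fun u hu => h.vb u (hτ.trans hu.1)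
  have h5 := he.nonneg w hw
  have h7 : 49000 ≤ z w := by
    by_contra hn
    have h7 : z w ^ 2 ≤ 49000 ^ 2 := pow_le_pow_left₀ h5 (not_le.1 hn).le 2
    rw [div_le_iff₀ (by norm_num)] at h4
    linarith
  intro u hu
  by_contra hn
  have h8 : w ≤ u := by linarith [hu.1]
  have hw0 : 0 ≤ w := hτ.trans hw.1
  have h9 := (h.on hw0 u).z_mono h8 fun x hx => (not_lt.1 hn).trans
    ((h.on (hw0.trans hx.1) u).v_anti hx.2 fun y hy =>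
      he.nonneg y ⟨hw.1.trans (hx.1.trans hy.1), hy.2.trans hu.2⟩)
  have h10 := (h.on (hw0.trans h8) ρ).z_ge hu.2 (w := -2000)
    fun x hx => (abs_le.1 (h.vb x (hw0.trans (h8.trans hx.1)))).1
  have h11 := (h.on (hw0.trans h8) ρ).t_le hu.2
  linarith [he.z1, hu.1]

theorem Fam.sorb (h : Fam M Z V) {s : ℝ} (hs : s ∈ Icc (1 : ℝ) 2) {σ : ℝ} (hσ : σ ^ 2 = 1) :
    ∃ c g t A, Orb M (fun u => σ * Z s u) (fun u => σ * V s u) c g t A := by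
  obtain ⟨c, g, t, A, ho⟩ := h.orb s hs
  exact ⟨c, g, t, A, ho.sign hσ⟩

theorem Fam.ret (h : Fam M Z V) {s : ℝ} (hs : s ∈ Icc (1 : ℝ) 2) {σ : ℝ} (hσ : σ ^ 2 = 1)
    {θ τ x : ℝ} (hθ : 0 ≤ θ) (hc : Cr Z V σ s θ τ) (hx : θ ≤ x) (hm : mm Z V σ θ x s ≤ 0) :
    ∃ ρ, ρ ≤ x ∧ Exc (fun u => σ * Z s u) (fun u => σ * V s u) τ ρ ∧
      ∀ y, ρ < y → mm Z V σ θ y s < 0 := by
  obtain ⟨c, g, t, A, ho⟩ := h.sorb hs hσ
  obtain ⟨u, hu, h1, -⟩ := h.mm_spec σ s hx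
  obtain ⟨ρ, h2, h3, -⟩ := (ho.on hθ x).ret hc.l hc.v (by simp [hc.z]) hu (h1.ge.trans hm)
  refine ⟨ρ, h2.trans hu.2, h3, fun y hy => ?_⟩
  have h4 : θ ≤ ρ := hc.l.trans h3.lt.le
  obtain ⟨w, hw, h5⟩ := (ho.on (hθ.trans h4) y).after hy h3.z1 h3.v1
  exact lt_of_le_of_lt (h.mm_le σ s ⟨h4.trans hw.1.le, hw.2⟩) h5

theorem Fam.ret_exact (h : Fam M Z V) {s : ℝ} (hs : s ∈ Icc (1 : ℝ) 2) {σ : ℝ} (hσ : σ ^ 2 = 1)
    {θ τ x : ℝ} (hθ : 0 ≤ θ) (hc : Cr Z V σ s θ τ) (hx : θ ≤ x) (hm : mm Z V σ θ x s = 0) :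
    Exc (fun u => σ * Z s u) (fun u => σ * V s u) τ x ∧ ∀ y, x < y → mm Z V σ θ y s < 0 := by
  obtain ⟨ρ, h1, h2, h3⟩ := h.ret hs hσ hθ hc hx hm.le
  have : ρ = x := by
    by_contra hn
    linarith [h3 x (lt_of_le_of_ne h1 hn)]
  rw [← this]
  exact ⟨h2, h3⟩

theorem Fam.next_cr (h : Fam M Z V) {s : ℝ} (hs : s ∈ Icc (1 : ℝ) 2) {σ : ℝ} (hσ : σ ^ 2 = 1)
    {θ τ θ' : ℝ} (hθ : 0 ≤ θ) (hc : Cr Z V σ s θ τ) (hl : θ + 10 ^ 17 ≤ θ')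
    (h1 : 0 < mm Z V σ θ θ' s) (h2 : mm Z V σ θ (θ' + 8) s < 0) :
    ∃ ρ, Exc (fun u => σ * Z s u) (fun u => σ * V s u) τ ρ ∧ Cr Z V (-σ) s θ' ρ := by
  obtain ⟨ρ, h3, h4, -⟩ := h.ret hs hσ hθ hc (by linarith) h2.le
  obtain ⟨c, g, t, A, ho⟩ := h.sorb hs hσ
  have h5 : θ' < ρ := by
    by_contra hn
    have h6 := h.mm_le σ s (θ := θ) (θ' := θ') (w := ρ) ⟨hc.l.trans h4.lt.le, not_lt.1 hn⟩
    have h7 : Mx Z V σ s ρ ≤ 0 := max_le h4.z1.le h4.v1.le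
    linarith
  have hσ0 : σ ≠ 0 := by rintro rfl; norm_num at hσ
  refine ⟨ρ, h4, h5.le, h3, (mul_eq_zero.1 h4.z1).resolve_left hσ0, fun u hu => ?_⟩
  have := ho.desc (hθ.trans hc.l) h4 (by linarith [hc.r]) u ⟨by linarith [hu.1], hu.2⟩
  linarith

theorem pick {f₁ f₂ : ℝ → ℝ} (h₁ : Continuous f₁) (h₂ : Continuous f₂) (hle : ∀ s, f₂ s ≤ f₁ s)
    {a b : ℝ} (hab : a ≤ b) (ha : f₁ a < 0) (hb : 0 < f₂ b) :
    ∃ x y, a ≤ x ∧ x ≤ y ∧ y ≤ b ∧ f₁ x = 0 ∧ f₂ y = 0 ∧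
      ∀ s ∈ Ioo x y, 0 < f₁ s ∧ f₂ s < 0 := by
  obtain ⟨y, hy, h1, h2⟩ := first_nonpos (f := fun s => -f₂ s) h₂.neg.continuousOn
    (right_mem_Icc.2 hab) (by linarith)
  have hay : a < y := lt_of_le_of_ne hy.1 (by rintro rfl; linarith [hle a])
  have h3 := nonneg_of_Ico (f := fun s => -f₂ s) hay h₂.neg.continuousOn
    fun u hu => (h2 u ⟨hu.1.le, hu.2⟩).le
  have h4 : f₂ y = 0 := by linarith
  obtain ⟨x, hx, h5, h6⟩ := last_nonneg (f := fun s => -f₁ s) hay.le h₁.neg.continuousOn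
    (by linarith)
  refine ⟨x, y, hx.1, hx.2, hy.2, ?_, h4, fun s hs =>
    ⟨by linarith [h6 s ⟨hs.1, hs.2.le⟩], by linarith [h2 s ⟨hx.1.trans hs.1.le, hs.2⟩]⟩⟩
  rcases hx.2.eq_or_lt with h7 | h7
  · rw [h7] at h5 ⊢
    linarith [hle y]
  · have := nonneg_of_Ioc h7 h₁.continuousOn fun u hu => by linarith [h6 u ⟨hu.1, hu.2.le⟩]
    linarith

theorem exists_grid {x y : ℝ} (hx : 0 ≤ x) {N : ℕ} (hN : 1 < N * (y - x)) :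
    ∃ A : ℕ, x < A / N ∧ (A : ℝ) / N < y := by
  have hN0 : (0 : ℝ) < N := by
    rcases Nat.eq_zero_or_pos N with h | h
    · rw [h] at hN; norm_num at hN
    · exact_mod_cast h
  refine ⟨⌊x * N⌋₊ + 1, ?_, ?_⟩
  · rw [lt_div_iff₀ hN0]; push_cast; exact Nat.lt_floor_add_one _
  · rw [div_lt_iff₀ hN0]; push_cast
    linarith [Nat.floor_le (mul_nonneg hx hN0.le)]

theorem exists_rat_pair {x y : ℝ} (hx : 0 ≤ x) (hxy : x < y) {P Q : ℝ → Prop}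
    (hP : ∀ᶠ s in 𝓝 x, P s) (hQ : ∀ᶠ s in 𝓝 y, Q s) :
    ∃ D A B : ℕ, 1 ≤ D ∧ x < A / D ∧ (A : ℝ) / D ≤ B / D ∧ (B : ℝ) / D < y ∧
      P (A / D) ∧ Q (B / D) := by
  obtain ⟨ε₁, e1, h1⟩ := Metric.eventually_nhds_iff.1 hP
  obtain ⟨ε₂, e2, h2⟩ := Metric.eventually_nhds_iff.1 hQ
  set ε := min (min ε₁ ε₂) ((y - x) / 2) with hε
  have a1 : ε ≤ ε₁ := (min_le_left _ _).trans (min_le_left _ _)
  have a2 : ε ≤ ε₂ := (min_le_left _ _).trans (min_le_right _ _)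
  have a3 : ε ≤ (y - x) / 2 := min_le_right _ _
  have a0 : 0 < ε := lt_min (lt_min e1 e2) (by linarith)
  obtain ⟨N, hN⟩ := exists_nat_gt (1 / ε)
  rw [div_lt_iff₀ a0] at hN
  obtain ⟨A, hA1, hA2⟩ := exists_grid (y := x + ε) hx (N := N) (by simpa using hN)
  obtain ⟨B, hB1, hB2⟩ := exists_grid (x := y - ε) (y := y) (by linarith) (N := N)
    (by simpa using hN)
  refine ⟨N, A, B, ?_, hA1, by linarith, hB2, h1 ?_, h2 ?_⟩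
  · rcases Nat.eq_zero_or_pos N with h | h
    · rw [h] at hN; norm_num at hN
    · exact h
  · rw [Real.dist_eq, abs_lt]; constructor <;> linarith
  · rw [Real.dist_eq, abs_lt]; constructor <;> linarith

/-- what the new interval has to satisfy -/
structure Nxt (Z V : ℝ → ℝ → ℝ) (σ θ L a b θ' : ℝ) : Prop where
  c1 : ∀ s ∈ Icc a b, 0 < mm Z V σ θ θ' s
  c2 : ∀ s ∈ Icc a b, mm Z V σ θ (θ' + 8) s < 0
  c3 : mm Z V (-σ) θ' (θ' + 2 * 10 ^ 13) a < 0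
  c4 : 0 < mm Z V (-σ) θ' (θ' + L) b

theorem Fam.one (h : Fam M Z V) {σ : ℝ} (hσ : σ ^ 2 = 1) {θ a b : ℝ} (hθ : 0 ≤ θ) (ha : 1 ≤ a)
    (hab : a ≤ b) (hb : b ≤ 2) (hc : ∀ s ∈ Icc a b, ∃ τ, Cr Z V σ s θ τ) (j : ℕ)
    (hj : θ + 10 ^ 17 ≤ π / 3 + j * (2 * π)) (h1 : mm Z V σ θ (π / 3 + j * (2 * π)) a < 0)
    (h2 : 0 < mm Z V σ θ (5 * π / 3 + j * (2 * π)) b) {L : ℝ} (hL : 0 ≤ L) :
    ∃ y, a ≤ y ∧ y ≤ b ∧ mm Z V σ θ (π / 3 + ((j + 1 : ℕ) : ℝ) * (2 * π)) y < 0 ∧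
      ∃ D A B : ℕ, 1 ≤ D ∧ a ≤ A / D ∧ (A : ℝ) / D ≤ B / D ∧ (B : ℝ) / D ≤ y ∧
        Nxt Z V σ θ L (A / D) (B / D) ⌊π / 3 + j * (2 * π)⌋₊ := by
  have hp := pi_pos
  have hp4 := pi_lt_d4
  set θ₁ := π / 3 + j * (2 * π) with hθ₁
  set θ₂ := 5 * π / 3 + j * (2 * π) with hθ₂
  have e12 : θ₂ = θ₁ + 4 * π / 3 := by rw [hθ₁, hθ₂]; ring
  have f1 : (⌊θ₁⌋₊ : ℝ) ≤ θ₁ := Nat.floor_le (by linarith)
  have f2 : θ₁ < ⌊θ₁⌋₊ + 1 := Nat.lt_floor_add_one _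
  obtain ⟨x, y, hx, hxy, hy, e1, e2, hs⟩ := pick (h.cmm σ θ θ₁) (h.cmm σ θ θ₂)
    (fun s => h.mm_anti σ s (by linarith) (by linarith)) hab h1 h2
  have hxI : x ∈ Icc (1 : ℝ) 2 := ⟨by linarith, by linarith⟩
  have hyI : y ∈ Icc (1 : ℝ) 2 := ⟨by linarith, by linarith⟩
  obtain ⟨τx, cx⟩ := hc x ⟨hx, hxy.trans hy⟩
  obtain ⟨τy, cy⟩ := hc y ⟨hx.trans hxy, hy⟩
  obtain ⟨ex, ex'⟩ := h.ret_exact hxI hσ hθ cx (by linarith) e1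
  obtain ⟨ey, ey'⟩ := h.ret_exact hyI hσ hθ cy (by linarith) e2
  have hlt : x < y := lt_of_le_of_ne hxy (by
    rintro rfl
    linarith [ex' θ₂ (by linarith)])
  have hP : mm Z V (-σ) ⌊θ₁⌋₊ (⌊θ₁⌋₊ + 2 * 10 ^ 13) x < 0 := by
    obtain ⟨c, g, t, A, ho⟩ := h.sorb hxI hσ
    obtain ⟨u, hu, hu'⟩ := ho.keyM (hθ.trans cx.l) j ex (by linarith [cx.r])
    refine lt_of_le_of_lt (h.mm_le (-σ) x (w := u) ⟨by linarith [hu.1], by linarith [hu.2]⟩) ?_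
    simpa [Mx] using hu'
  have hQ : 0 < mm Z V (-σ) ⌊θ₁⌋₊ (⌊θ₁⌋₊ + L) y := by
    obtain ⟨c, g, t, A, ho⟩ := h.sorb hyI hσ
    refine h.mm_pos _ _ (by linarith) fun u hu => lt_max_of_lt_right ?_
    rcases le_total u θ₂ with h3 | h3
    · have := ho.desc (hθ.trans cy.l) ey (by linarith [cy.r]) u ⟨by linarith [hu.1], h3⟩
      linarith
    · have := ho.keyP (hθ.trans cy.l) j ey (by linarith [cy.r]) u h3
      linarith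
  obtain ⟨D, A, B, hD, k1, k2, k3, k4, k5⟩ := exists_rat_pair (by linarith) hlt
    ((h.cmm (-σ) ⌊θ₁⌋₊ (⌊θ₁⌋₊ + 2 * 10 ^ 13)).continuousAt.eventually (gt_mem_nhds hP))
    ((h.cmm (-σ) ⌊θ₁⌋₊ (⌊θ₁⌋₊ + L)).continuousAt.eventually (lt_mem_nhds hQ))
  refine ⟨y, hx.trans hxy, hy, ey' _ (by push_cast; linarith), D, A, B, hD, by linarith, k2, k3.le,
    fun s hs' => ?_, fun s hs' => ?_, k4, k5⟩
  · exact lt_of_lt_of_le (hs s ⟨by linarith [hs'.1], by linarith [hs'.2]⟩).1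
      (h.mm_anti σ s (by linarith) f1)
  · exact lt_of_le_of_lt (h.mm_anti σ s (by linarith) (by linarith))
      (hs s ⟨by linarith [hs'.1], by linarith [hs'.2]⟩).2

theorem Fam.step (h : Fam M Z V) {σ : ℝ} (hσ : σ ^ 2 = 1) (θ E : ℕ) {a b : ℝ} (ha : 1 ≤ a)
    (hab : a ≤ b) (hb : b ≤ 2) (hc : ∀ s ∈ Icc a b, ∃ τ, Cr Z V σ s θ τ) (hE : 10 ^ 17 ≤ E)
    (h1 : mm Z V σ θ (θ + 2 * 10 ^ 13) a < 0) (h2 : 0 < mm Z V σ θ (θ + (E + 30)) b)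
    {L : ℝ} (hL : 0 ≤ L) :
    ∃ D A B θ' : ℕ, 1 ≤ D ∧ a ≤ A / D ∧ (A : ℝ) / D ≤ B / D ∧ (B : ℝ) / D ≤ b ∧
      2 * ((B : ℝ) / D - A / D) ≤ b - a ∧ θ + E ≤ θ' ∧ θ' ≤ θ + E + 20 ∧
      Nxt Z V σ θ L (A / D) (B / D) θ' := by
  have hp := pi_pos
  have hp4 := pi_lt_d4
  have hE' : (10 : ℝ) ^ 17 ≤ E := by exact_mod_cast hE
  have hθ : (0 : ℝ) ≤ θ := Nat.cast_nonneg _
  set j := ⌈((θ : ℝ) + E) / (2 * π)⌉₊ with hj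
  have j1 : (θ : ℝ) + E ≤ j * (2 * π) := by
    rw [← div_le_iff₀ (by linarith)]; exact Nat.le_ceil _
  have j2 : (j : ℝ) * (2 * π) < θ + E + 2 * π := by
    have := Nat.ceil_lt_add_one (show 0 ≤ ((θ : ℝ) + E) / (2 * π) by positivity)
    rw [← hj, div_add_one (by linarith), lt_div_iff₀ (by linarith)] at this
    exact this
  have fl : ∀ x : ℝ, (θ : ℝ) + E ≤ x → x ≤ θ + E + 20 → θ + E ≤ ⌊x⌋₊ ∧ ⌊x⌋₊ ≤ θ + E + 20 :=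
    fun x hx1 hx2 => ⟨Nat.le_floor (by push_cast; exact hx1),
      Nat.floor_le_of_le (by push_cast; exact hx2)⟩
  obtain ⟨y, y1, y2, y3, D, A, B, hD, k1, k2, k3, k4⟩ := h.one hσ hθ ha hab hb hc j (by linarith)
    (lt_of_le_of_lt (h.mm_anti σ a (by linarith) (by linarith)) h1)
    (lt_of_lt_of_le h2 (h.mm_anti σ b (by linarith) (by linarith))) hL
  by_cases hy : 2 * (y - a) ≤ b - a
  · obtain ⟨m1, m2⟩ := fl (π / 3 + j * (2 * π)) (by linarith) (by linarith)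
    exact ⟨D, A, B, _, hD, k1, k2, k3.trans y2, by linarith, m1, m2, k4⟩
  · have e : ((j + 1 : ℕ) : ℝ) * (2 * π) = j * (2 * π) + 2 * π := by push_cast; ring
    obtain ⟨y', -, y2', -, D, A, B, hD, k1, k2, k3, k4⟩ := h.one hσ hθ (ha.trans y1) y2 hb
      (fun s hs => hc s ⟨y1.trans hs.1, hs.2⟩) (j + 1) (by linarith) y3
      (lt_of_lt_of_le h2 (h.mm_anti σ b (by linarith) (by linarith))) hL
    obtain ⟨m1, m2⟩ := fl (π / 3 + ((j + 1 : ℕ) : ℝ) * (2 * π)) (by linarith) (by linarith)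
    exact ⟨D, A, B, _, hD, y1.trans k1, k2, k3.trans y2', by linarith [not_le.1 hy], m1, m2, k4⟩

end Pool.Agent.P.MP_9ae58c_an
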